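import Pool.Agent.Lib.MP_b4b3cb_nt.HF.Lin1

/-! The exponential of Bloch and Kato. -/

namespace Pool.Agent.HF

open NumberField Matrix WittVector Ideal Pool.Agent.SelTwo Module
open scoped TensorProduct Topology Classical

section Ex
variable {G : Type} [Group G] [TopologicalSpace G] {E : Type}
  [NontriviallyNormedField E] {χ : G →* E} {B D C : Type} [CommRing B]
  [Algebra E B] [CommRing D] [Algebra E D] [CommRing C] [Algebra E C] (X : PD G E χ B D C) {n : ℕ}
  (ρ : G →* Matrix (Fin n) (Fin n) E) {ρ' : G →* Matrix (Fin n) (Fin n) E}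
  {M : Matrix (Fin n) (Fin n) E} {h : Fin n → ℤ} {m : ℕ} {x y : G → Fin n → E} {b b' : Fin n → B}
  {a a' : Fin n → D}

/-- `x` is the exponential of `a / t ^ m`, computed with the lift `b`. -/
structure PD.Li (m : ℕ) (x : G → Fin n → E) (b : Fin n → B) (a : Fin n → D) : Prop where
  fr : ∀ j, X.fB (b j) = 2 ^ m * b j
  co : ∀ g, ac (ρ g) (X.gB g) b = χ g ^ m • (b + X.t ^ m • al B (x g))
  iv : ∀ g, ac (ρ g) (X.gD g) a = χ g ^ m • a
  cg : ∀ j, X.β X.t ^ m ∣ X.β (b j) - a j

theorem PD.gp (g : G) (k : ℕ) : X.gB g (X.t ^ k) = χ g ^ k • X.t ^ k := by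
  rw [map_pow, X.gt, smul_pow]

theorem PD.gpD (g : G) (k : ℕ) : X.gD g (X.β X.t ^ k) = χ g ^ k • X.β X.t ^ k := by
  rw [← map_pow, ← X.βg, X.gp, map_smul]

theorem PD.gpC (g : G) (k : ℕ) : X.gC g (X.γ X.t ^ k) = χ g ^ k • X.γ X.t ^ k := by
  rw [← map_pow, ← X.γg, X.gp, map_smul]

theorem PD.fp (k : ℕ) : X.fB (X.t ^ k) = 2 ^ k * X.t ^ k := by rw [map_pow, X.ft, mul_pow]

theorem PD.gdv (g : G) {k : ℕ} {u v : D} (d : X.β X.t ^ k ∣ u - v) :
    X.β X.t ^ k ∣ X.gD g u - X.gD g v := by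
  obtain ⟨c, d⟩ := d
  rw [← map_sub, d, map_mul, X.gpD, smul_mul_assoc, ← mul_smul_comm]
  exact dvd_mul_right _ _

theorem PD.uqv (m : ℕ) {u v : Fin n → E} (e : X.t ^ m • al B u = X.t ^ m • al B v) : u = v :=
  funext fun j => X.uq m (by
    simpa [al, Algebra.smul_def, mul_comm] using congrFun e j)

theorem PD.li_cob (m : ℕ) (u : Fin n → E) :
    X.Li ρ m (fun g => ρ g *ᵥ u - u) (X.t ^ m • al B u) 0 where
  fr j := by simp only [Pi.smul_apply, smul_eq_mul, map_mul, X.fp, al, AlgHom.commutes, mul_assoc]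
  co g := by rw [ac_sm, X.gp, ac_al, al_sub, ← smul_add, add_sub_cancel, smul_assoc]
  iv g := by rw [ac_zero, smul_zero]
  cg j := by simp

variable {X ρ}

theorem PD.Li.add (p : X.Li ρ m x b a) (q : X.Li ρ m y b' a') :
    X.Li ρ m (x + y) (b + b') (a + a') where
  fr j := by simp only [Pi.add_apply, map_add, p.fr, q.fr, mul_add]
  co g := by
    rw [ac_add, p.co, q.co, Pi.add_apply, al_add, ← smul_add, smul_add (X.t ^ m), add_add_add_comm]
  iv g := by rw [ac_add, p.iv, q.iv, smul_add]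
  cg j := by
    simpa only [Pi.add_apply, map_add, add_sub_add_comm] using (p.cg j).add (q.cg j)

theorem PD.Li.smul (c : E) (p : X.Li ρ m x b a) : X.Li ρ m (c • x) (c • b) (c • a) where
  fr j := by simp only [Pi.smul_apply, map_smul, p.fr, mul_smul_comm]
  co g := by
    rw [ac_smul, p.co, Pi.smul_apply, al_smul, smul_comm (X.t ^ m), ← smul_add, smul_comm]
  iv g := by rw [ac_smul, p.iv, smul_comm]
  cg j := by
    rw [Pi.smul_apply, Pi.smul_apply, map_smul, ← smul_sub, Algebra.smul_def]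
    exact (p.cg j).mul_left _

theorem PD.Li.sum {ι : Type} (s : Finset ι) {x : ι → G → Fin n → E} {b : ι → Fin n → B}
    {a : ι → Fin n → D} (p : ∀ i, X.Li ρ m (x i) (b i) (a i)) :
    X.Li ρ m (∑ i ∈ s, x i) (∑ i ∈ s, b i) (∑ i ∈ s, a i) := by
  induction s using Finset.induction_on with
  | empty =>
    have := X.li_cob ρ m 0
    simp only [mulVec_zero, sub_zero, al_zero, smul_zero] at this
    exact this
  | insert i s hi ih => simpa only [Finset.sum_insert hi] using (p i).add ih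

theorem PD.ex_li (iv : ∀ g, ac (ρ g) (X.gD g) a = χ g ^ m • a) : ∃ x b, X.Li ρ m x b a := by
  choose b fb cb using fun j => X.sur m (a j)
  have : ∀ g j, ∃ c : E, ((χ g ^ m)⁻¹ • ac (ρ g) (X.gB g) b - b) j = c • X.t ^ m := by
    refine fun g j => X.ker m _ ?_ ?_
    · simp [ac, mulVec, dotProduct, X.fg, fb, mul_sub, Finset.mul_sum, mul_left_comm, map_ofNat]
    · have e := congrFun (iv g) j
      have e2 : a j = (χ g ^ m)⁻¹ • ac (ρ g) (X.gD g) a j := by
        rw [e, Pi.smul_apply, inv_smul_smul₀ (pow_ne_zero _ (ch_ne χ g))]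
      have d : X.β X.t ^ m ∣ X.β (ac (ρ g) (X.gB g) b j) - ac (ρ g) (X.gD g) a j := by
        simp only [ac, mulVec, dotProduct, map_sum, map_mul, map_apply, AlgHom.commutes, X.βg,
          ← Finset.sum_sub_distrib, ← mul_sub]
        exact Finset.dvd_sum fun i _ => (X.gdv g (cb i)).mul_left _
      have := (d.mul_left (algebraMap E D (χ g ^ m)⁻¹)).sub (cb j)
      rwa [← Algebra.smul_def, smul_sub, ← e2, sub_sub_sub_cancel_right, ← map_smul,
        ← map_sub] at this
  choose x hx using this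
  refine ⟨x, b, fb, fun g => ?_, iv, cb⟩
  rw [← inv_smul_eq_iff₀ (pow_ne_zero _ (ch_ne χ g)), ← sub_eq_iff_eq_add']
  ext j
  rw [hx]
  simp [al, Algebra.smul_def, mul_comm]

theorem PD.Li.cr (p : X.Li ρ m x b a) {u : C} (hu : X.γ X.t ^ m * u = 1) (g : G) :
    ac (ρ g) (X.gC g) (u • X.γ ∘ b) - u • X.γ ∘ b = al C (x g) := by
  have e : X.gC g u = (χ g ^ m)⁻¹ • u := by
    have := congrArg (X.gC g) hu
    rw [map_mul, X.gpC, map_one, smul_mul_assoc] at this
    rw [eq_inv_smul_iff₀ (pow_ne_zero _ (ch_ne χ g))]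
    rw [Algebra.smul_def] at this ⊢
    linear_combination u * this - algebraMap E C (χ g ^ m) * X.gC g u * hu
  rw [ac_sm, ← ac_map X.γ (X.γg g), p.co, e]
  ext j
  simp only [Pi.sub_apply, Pi.smul_apply, Function.comp, Pi.add_apply, smul_eq_mul, map_smul,
    map_add, map_mul, map_pow, al, AlgHom.commutes, smul_mul_smul_comm,
    inv_mul_cancel₀ (pow_ne_zero m (ch_ne χ g)), one_smul]
  linear_combination algebraMap E C (x g j) * hu

theorem PD.Li.zero (nf : X.Nf ρ) (p : X.Li ρ m 0 b a) (j : Fin n) : X.β (b j) = 0 := by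
  obtain ⟨u, hu⟩ := (X.ut.pow m).exists_right_inv
  have f : 2 ^ m * X.fC u = u := by
    have := congrArg X.fC hu
    rw [map_mul, ← map_pow, ← X.γf, X.fp, map_mul, map_pow, map_pow, map_ofNat, map_one] at this
    linear_combination u * this - 2 ^ m * X.fC u * hu
  have := congrFun (nf (u • X.γ ∘ b) (fun g => sub_eq_zero.1 ((p.cr hu g).trans al_zero)) fun i => by
    simp only [Pi.smul_apply, Function.comp, smul_eq_mul, map_mul, ← X.γf, p.fr, map_pow, map_ofNat]
    linear_combination X.γ (b i) * f) j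
  simp only [Pi.smul_apply, Function.comp, smul_eq_mul, Pi.zero_apply] at this
  exact X.kr _ (by linear_combination X.γ X.t ^ m * this - X.γ (b j) * hu)

theorem ch_inv (cχ : Continuous χ) (k : ℕ) : Continuous fun g => (χ g ^ k)⁻¹ :=
  (cχ.pow k).inv₀ fun g => pow_ne_zero _ (ch_ne χ g)

variable [NormedAlgebra ℚ_[2] E]

theorem PD.Li.hc (cχ : Continuous χ) (hρ : Continuous ρ) (p : X.Li ρ m x b a) : x ∈ X.Hc ρ := by
  obtain ⟨u, hu⟩ := (X.ut.pow m).exists_right_inv
  refine ⟨⟨Continuous.continuousOn (continuous_pi fun j => PD.LC.cont (X := X) (m := m) ?_),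
    fun g _ k _ => X.uqv m ?_⟩, _, p.cr hu⟩
  · have : ∀ g, x g j • X.t ^ m = (χ g ^ m)⁻¹ • (∑ i, ρ g j i • X.gB g (b i)) - b j := fun g => by
      have := congrFun (p.co g) j
      simp only [ac, mulVec, dotProduct, map_apply, ← Algebra.smul_def] at this
      rw [this, Pi.smul_apply, inv_smul_smul₀ (pow_ne_zero _ (ch_ne χ g))]
      simp [al, Algebra.smul_def, mul_comm]
    simp only [this]
    exact (PD.LC.smul (ch_inv cχ m) (PD.LC.sum _ fun i => PD.LC.smul
      (hρ.matrix_elem j i) (X.ct _))).sub (PD.LC.const _)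
  · have := p.co (g * k)
    rw [map_mul, map_mul, ac_mul, p.co, ac_smul, ac_add, p.co, ac_sm, ac_al, X.gp, smul_assoc,
      ← smul_add, smul_smul, ← mul_pow, mul_comm (χ k), ← map_mul,
      smul_right_inj (pow_ne_zero _ (ch_ne χ _)), add_assoc, add_right_inj] at this
    rw [al_add, smul_add, this]

theorem PD.Li.orth (cχ : Continuous χ) (pr : ∀ g, (ρ g)ᵀ * M * ρ' g = χ g • M)
    (p : X.Li ρ m x b a) (hy : y ∈ X.Hc ρ') : Orth χ ρ' M x y := by
  obtain ⟨hy, z, hz⟩ := hy
  have cy : Continuous y := by simpa using hy.1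
  choose l z1 h1 using fun j => X.loc (z j)
  obtain ⟨k, hk⟩ := (Set.finite_range l).bddAbove
  obtain ⟨z0, h0⟩ : ∃ z0 : Fin n → B, X.γ ∘ z0 = X.γ X.t ^ k • z := by
    refine ⟨fun j => X.t ^ (k - l j) * z1 j, funext fun j => ?_⟩
    simp only [Function.comp, map_mul, map_pow, ← h1, ← mul_assoc, ← pow_add,
      Nat.sub_add_cancel (hk ⟨j, rfl⟩), Pi.smul_apply, smul_eq_mul]
  have h2 : ∀ g, ac (ρ' g) (X.gD g) (X.β ∘ z0) =
      χ g ^ k • (X.β ∘ z0 + X.β X.t ^ k • al D (y g)) := fun g => by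
    have e := ac_map (M := ρ' g) X.γ (X.γg g) z0
    rw [h0, ac_sm, X.gpC, sub_eq_iff_eq_add'.1 (hz g), smul_assoc, smul_add, ← h0] at e
    rw [← ac_map X.β (X.βg g)]
    ext j
    have := X.kr (ac (ρ' g) (X.gB g) z0 j - χ g ^ k • (z0 j + X.t ^ k * al B (y g) j)) (by
      rw [map_sub, sub_eq_zero]; simpa [al] using congrFun e j)
    rw [map_sub, sub_eq_zero] at this
    simpa [al] using this
  obtain ⟨w, fw, cw⟩ := X.sur (m + k) (pa M a (X.β ∘ z0))
  have c0 := fun g => pow_ne_zero (m + k) (ch_ne χ g)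
  let T : G → B → B := fun g v => (χ g * (χ g ^ (m + k))⁻¹) • X.gB g v
  have hT : ∀ g g' v, T (g * g') v = T g (T g' v) := fun g g' v => by
    simp only [T, map_mul, map_smul, smul_smul, AlgHom.mul_apply]
    congr 1
    ring
  have : ∀ g, ∃ c : E, X.t ^ k * pa M b (al B (y g)) - (T g w - w) = c • X.t ^ (m + k) := by
    refine fun g => X.ker _ _ ?_ ?_
    · simp only [T, pa, al, mulVec, dotProduct, map_sub, map_mul, map_sum, X.fp, p.fr,
        X.fg, fw, map_apply, AlgHom.commutes, map_pow (X.gB g), map_ofNat, mul_assoc,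
        ← Finset.mul_sum, Algebra.smul_def]
      ring
    · have e := pa_ac (pr g) (X.gD g) a (X.β ∘ z0)
      rw [p.iv, h2, smul_pa, pa_smul, smul_smul, ← pow_add, pa_add, pa_sm,
        ← eq_inv_smul_iff₀ (c0 g), smul_smul, mul_comm _ (χ g)] at e
      have d1 : X.β X.t ^ m ∣ pa M (X.β ∘ b) (al D (y g)) - pa M a (al D (y g)) := by
        rw [pa, pa, ← sub_dotProduct]
        exact Finset.dvd_sum fun i _ => (p.cg i).mul_right _
      have d2 := (mul_dvd_mul_left (X.β X.t ^ k) d1)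
      rw [← pow_add, add_comm] at d2
      have d3 := (X.gdv g cw).mul_left (algebraMap E D (χ g * (χ g ^ (m + k))⁻¹))
      rw [← Algebra.smul_def, smul_sub, ← e] at d3
      have := (d2.sub d3).add cw
      simp only [T, map_sub, map_mul, map_pow, map_smul, pa_map, al_map, X.βg]
      exact this.trans (dvd_of_eq (by ring))
  choose f hf using this
  refine ⟨f, PD.LC.cont (X := X) (m := m + k) ?_, fun g g' => X.uq (m + k) ?_⟩
  · simp only [← hf, pa, al, mulVec, dotProduct]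
    exact ((PD.LC.const _).mul (PD.LC.sum _ fun i => (PD.LC.const _).mul (PD.LC.sum _ fun j =>
      (PD.LC.const _).mul (PD.LC.alg (continuous_apply j |>.comp cy))))).sub ((PD.LC.smul
      (cχ.mul (ch_inv cχ _)) (X.ct w)).sub (PD.LC.const _))
  · have e1 : T g (f g' • X.t ^ (m + k)) = (χ g * f g') • X.t ^ (m + k) := by
      simp only [T, map_smul, X.gp, smul_smul]
      congr 1
      field_simp [c0 g]
    have e := pa_ac (pr g) (X.gB g) b (al B (y g'))
    rw [p.co, ac_al, smul_pa, add_pa, sm_pa, pa_al] at e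
    have e2 : T g (X.t ^ k * pa M b (al B (y g'))) = X.t ^ k * (pa M b (al B (ρ' g *ᵥ y g')) +
        X.t ^ m * algebraMap E B (x g ⬝ᵥ M *ᵥ ρ' g *ᵥ y g')) := by
      rw [← eq_inv_smul_iff₀ (pow_ne_zero _ (ch_ne χ g))] at e
      simp only [T, e, map_mul, X.gp, smul_mul_assoc, mul_smul_comm, smul_smul]
      congr 1
      have := ch_ne χ g
      field_simp
      ring
    have e3 : ∀ u v, T g (u - v) = T g u - T g v := fun u v => by simp only [T, map_sub, smul_sub]
    rw [sub_smul, add_smul, ← e1, ← hf, ← hf, ← hf, e3, e3, e2, hT, hy.2 g trivial g' trivial,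
      al_add, pa_add, Algebra.smul_def]
    ring

end Ex

variable {G : Type} [Group G] [TopologicalSpace G] [IsTopologicalGroup G] {E : Type}
  [NontriviallyNormedField E] [NormedAlgebra ℚ_[2] E] {χ : G →* E} {B D C : Type} [CommRing B]
  [Algebra E B] [CommRing D] [Algebra E D] [CommRing C] [Algebra E C] (X : PD G E χ B D C) {n : ℕ}
  {ρ ρ' : G →* Matrix (Fin n) (Fin n) E} {M : Matrix (Fin n) (Fin n) E} {h : Fin n → ℤ}

theorem PD.exp (cχ : Continuous χ) (hρ : Continuous ρ) (nf : X.Nf ρ) (dr : X.Dr ρ h)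
    (pr : ∀ g, (ρ g)ᵀ * M * ρ' g = χ g • M) : ∃ W : Submodule E (G → Fin n → E),
    (∀ x ∈ W, x ∈ X.Hc ρ) ∧ (∀ x, Cob ρ ⊤ x → x ∈ W) ∧
    finrank E W = n + (Finset.univ.filter fun i => 0 < h i).card ∧
    ∀ x ∈ W, ∀ y ∈ X.Hc ρ', Orth χ ρ' M x y := by
  obtain ⟨P, hP, H⟩ := dr
  obtain ⟨m, hm⟩ := (Set.finite_range fun i => (h i).toNat).bddAbove
  have hm' : ∀ i, ((m - h i).toNat : ℤ) = m - h i := fun i => by
    have : (h i).toNat ≤ m := hm ⟨i, rfl⟩
    omega
  choose x b p using fun i => PD.ex_li (X := X) (ρ := ρ) (m := m)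
    (a := X.β X.t ^ (m - h i).toNat • P.col i) fun g => by
      rw [ac_sm, X.gpD, H, smul_assoc, smul_comm (X.β X.t ^ _), smul_smul, ← zpow_natCast, hm',
        ← zpow_add₀ (ch_ne χ g), sub_add_cancel, zpow_natCast]
  let I := {i // 0 < h i}
  let L : ((Fin n → E) × (I → E)) →ₗ[E] G → Fin n → E := LinearMap.coprod
    (LinearMap.pi fun g => (ρ g).mulVecLin - LinearMap.id)
    (Fintype.linearCombination E fun i : I => x i)
  have q : ∀ v, X.Li ρ m (L v) (X.t ^ m • al B v.1 + ∑ i : I, v.2 i • b i)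
      (0 + ∑ i : I, v.2 i • X.β X.t ^ (m - h i).toNat • P.col i) := fun v =>
    (X.li_cob ρ m v.1).add (PD.Li.sum Finset.univ fun i : I => (p i).smul (v.2 i))
  refine ⟨LinearMap.range L, ?_, fun y ⟨u, hu⟩ => ⟨(u, 0), funext fun g => ?_⟩, ?_, ?_⟩
  · rintro _ ⟨v, rfl⟩
    exact (q v).hc cχ hρ
  · simp [L, hu g trivial]
  · rw [LinearMap.finrank_range_of_inj, finrank_prod, finrank_fintype_fun_eq_card,
      finrank_fintype_fun_eq_card, Fintype.card_fin, Fintype.card_subtype]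
    refine (injective_iff_map_eq_zero L).2 fun v hv => ?_
    have q := q v
    rw [hv] at q
    have z := q.zero nf
    obtain ⟨Q, hQ⟩ := hP.exists_left_inv
    have v2 : v.2 = 0 := funext fun i => by
      have d : X.β X.t ^ m ∣
          (Q *ᵥ ∑ i : I, v.2 i • X.β X.t ^ (m - h i).toNat • P.col i) i := by
        rw [mulVec, dotProduct]
        refine Finset.dvd_sum fun j _ => Dvd.dvd.mul_left ?_ _
        have := q.cg j
        rwa [z, zero_add, zero_sub, dvd_neg] at this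
      have e : ∀ k, (Q *ᵥ P.col k) i = if (i : Fin n) = k then 1 else 0 := fun k => by
        rw [← one_apply, ← hQ]; rfl
      simp only [mulVec_sum, mulVec_smul, Finset.sum_apply, Pi.smul_apply, e, Subtype.val_inj,
        smul_ite, smul_zero, smul_eq_mul, mul_ite, mul_one, mul_zero] at d
      rw [Finset.sum_eq_single i (fun k _ hk => if_neg hk.symm) (by simp), if_pos rfl,
        Algebra.smul_def, mul_comm] at d
      have := hm' i
      have := i.2
      exact X.inj (m - h i).toNat ((pow_dvd_pow _ (by omega)).trans d)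
    refine Prod.ext (funext fun j => X.inj m ?_) v2
    have := z j
    simp only [v2, Pi.zero_apply, zero_smul, Finset.sum_const_zero, add_zero, Pi.smul_apply,
      smul_eq_mul, map_mul, map_pow, al, AlgHom.commutes] at this
    rw [this]
    exact dvd_zero _
  · rintro _ ⟨v, rfl⟩ y hy
    exact (q v).orth cχ pr hy

theorem PD.dr_dual (hM : IsUnit M) (pr : ∀ g, (ρ g)ᵀ * M * ρ' g = χ g • M) (dr : X.Dr ρ h) :
    X.Dr ρ' fun i => 1 - h i := X.dr_dual' hM pr dr

theorem Orth.swap (pr : ∀ g, (ρ g)ᵀ * M * ρ' g = χ g • M) {x y : G → Fin n → E} (hx : Coc ρ ⊤ x)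
    (hy : Coc ρ' ⊤ y) (o : Orth χ ρ Mᵀ y x) : Orth χ ρ' M x y := o.swap' pr hx hy

theorem PD.hc_sub : ∃ W : Submodule E (G → Fin n → E), (W : Set _) = X.Hc ρ := X.hc_sub'

end Pool.Agent.HF
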