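import Pool.Agent.Lib.MP_b4b3cb_nt.HF.Defs

/-! Extension of scalars for period data. -/

namespace Pool.Agent.HF

open Module Filter
open scoped TensorProduct Topology

namespace Ten

variable {K E : Type} [Field K] [Field E] [Algebra K E] {ι : Type} (b : Basis ι K E)
  {B D : Type} [CommRing B] [Algebra K B] [CommRing D] [Algebra K D]

/-- The coordinates of an element of the tensor product. -/
noncomputable def co (i : ι) : E ⊗[K] B →ₗ[K] B :=
  (TensorProduct.lid K B).toLinearMap ∘ₗ LinearMap.rTensor B (b.coord i)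

theorem co_tmul (i : ι) (a : E) (x : B) : co b i (a ⊗ₜ x) = b.repr a i • x := by simp [co]

theorem co_map (i : ι) (φ : B →ₐ[K] D) (z : E ⊗[K] B) :
    co b i (Algebra.TensorProduct.map (AlgHom.id E E) φ z) = φ (co b i z) := by
  induction z using TensorProduct.induction_on with
  | zero => simp
  | tmul a x => simp [co_tmul]
  | add z w h1 h2 => simp [h1, h2]

theorem co_mul (i : ι) (x : B) (z : E ⊗[K] B) : co b i (1 ⊗ₜ x * z) = x * co b i z := by
  induction z using TensorProduct.induction_on with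
  | zero => simp
  | tmul a y => simp [co_tmul]
  | add z w h1 h2 => simp [mul_add, h1, h2]

theorem two_r (m : ℕ) : (2 : E ⊗[K] B) ^ m = 1 ⊗ₜ (2 ^ m) := by
  rw [← Algebra.TensorProduct.includeRight_apply, map_pow, map_ofNat]

theorem two_l (m : ℕ) : (2 : E ⊗[K] B) ^ m = (2 ^ m : E) ⊗ₜ 1 := by
  rw [← Algebra.TensorProduct.includeLeft_apply (S := K), map_pow, map_ofNat]

theorem co_two (i : ι) (m : ℕ) (z : E ⊗[K] B) : co b i (2 ^ m * z) = 2 ^ m * co b i z := by
  rw [two_r, co_mul]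

theorem two_tmul (m k : ℕ) (a : E) (x : B) :
    (2 : E ⊗[K] B) ^ (m + k) * a ⊗ₜ x = (2 ^ m * a) ⊗ₜ (2 ^ k * x) := by
  rw [pow_add, two_l m, two_r k]
  simp

variable [Fintype ι]

theorem co_sum (z : E ⊗[K] B) : ∑ i, b i ⊗ₜ co b i z = z := by
  induction z using TensorProduct.induction_on with
  | zero => simp
  | tmul a x =>
    simp only [co_tmul, ← TensorProduct.smul_tmul]
    rw [← TensorProduct.sum_tmul, b.sum_repr]
  | add z w h1 h2 => simp [TensorProduct.tmul_add, Finset.sum_add_distrib, h1, h2]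

theorem co_ext {z w : E ⊗[K] B} (h : ∀ i, co b i z = co b i w) : z = w := by
  rw [← co_sum b z, ← co_sum b w]
  simp only [h]

theorem co_surj (x : ι → B) : ∃ z : E ⊗[K] B, ∀ i, co b i z = x i := by
  classical
  exact ⟨∑ j, b j ⊗ₜ x j, fun i => by simp [co_tmul, Finsupp.single_apply]⟩

theorem co_dvd {x : B} {z : E ⊗[K] B} : 1 ⊗ₜ x ∣ z ↔ ∀ i, x ∣ co b i z := by
  refine ⟨fun ⟨w, e⟩ i => ⟨co b i w, by rw [e, co_mul]⟩, fun h => ?_⟩
  choose w hw using h
  obtain ⟨y, hy⟩ := co_surj b w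
  exact ⟨y, co_ext b fun i => by rw [co_mul, hy, hw]⟩

end Ten

namespace Ten

variable {E : Type} [NontriviallyNormedField E] [NormedAlgebra ℚ_[2] E] {B : Type} [CommRing B]
  [Algebra ℚ_[2] B]

theorem small {K : Type} [NontriviallyNormedField K] [NormedAlgebra ℚ_[2] K] (C : ℝ) :
    ∃ c : ℕ, ∀ a : K, ‖a‖ ≤ C → ‖2 ^ c * a‖ ≤ 1 := by
  obtain ⟨c, hc⟩ := pow_unbounded_of_one_lt C (one_lt_two (α := ℝ))
  refine ⟨c, fun a ha => ?_⟩
  have e : ‖(2 : K)‖ = 2⁻¹ := by
    rw [← map_ofNat (algebraMap ℚ_[2] K) 2, norm_algebraMap']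
    exact_mod_cast Padic.norm_p (p := 2)
  rw [norm_mul, norm_pow, e, inv_pow, inv_mul_le_iff₀ (by positivity), mul_one]
  exact ha.trans hc.le

/-- The pure tensors of the lattice. -/
def S (E : Type) [NontriviallyNormedField E] [NormedAlgebra ℚ_[2] E] (Λ : Subring B) :
    Submonoid (E ⊗[ℚ_[2]] B) where
  carrier := {z | ∃ a x, ‖a‖ ≤ 1 ∧ x ∈ Λ ∧ z = a ⊗ₜ x}
  one_mem' := ⟨1, 1, norm_one.le, Λ.one_mem, rfl⟩
  mul_mem' := by
    rintro _ _ ⟨a, x, h1, h2, rfl⟩ ⟨a', x', h3, h4, rfl⟩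
    exact ⟨a * a', x * x', by rw [norm_mul]; exact mul_le_one₀ h1 (norm_nonneg _) h3,
      Λ.mul_mem h2 h4, Algebra.TensorProduct.tmul_mul_tmul _ _ _ _⟩

theorem mem_S {Λ : Subring B} {a : E} {x : B} (h : ‖a‖ ≤ 1) (hx : x ∈ Λ) :
    a ⊗ₜ x ∈ Subring.closure (S E Λ : Set (E ⊗[ℚ_[2]] B)) :=
  Subring.subset_closure ⟨a, x, h, hx, rfl⟩

theorem co_bd [FiniteDimensional ℚ_[2] E] {ι : Type} (b : Basis ι ℚ_[2] E) {Λ : Subring B}
    (il : ∀ a : ℚ_[2], ‖a‖ ≤ 1 → algebraMap _ B a ∈ Λ) (i : ι) :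
    ∃ c : ℕ, ∀ z ∈ Subring.closure (S E Λ : Set (E ⊗[ℚ_[2]] B)), 2 ^ c * co b i z ∈ Λ := by
  obtain ⟨c, hc⟩ := small (K := ℚ_[2]) ‖LinearMap.toContinuousLinearMap (b.coord i)‖
  refine ⟨c, fun z hz => ?_⟩
  rw [Subring.mem_closure_iff, Submonoid.closure_eq] at hz
  induction hz using AddSubgroup.closure_induction with
  | mem z h =>
    obtain ⟨a, x, h1, h2, rfl⟩ := h
    have := Λ.mul_mem (il _ (hc (b.repr a i)
      ((LinearMap.toContinuousLinearMap (b.coord i)).unit_le_opNorm a h1))) h2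
    rwa [map_mul, map_pow, map_ofNat, mul_assoc, ← Algebra.smul_def, ← co_tmul] at this
  | zero => simp
  | add z w _ _ h1 h2 => rw [map_add, mul_add]; exact Λ.add_mem h1 h2
  | neg z _ h => rw [map_neg, mul_neg]; exact Λ.neg_mem h

end Ten

open Ten Algebra.TensorProduct in
theorem PD.ten {G : Type} [Group G] [TopologicalSpace G] {χ : G →* ℚ_[2]} {B D C : Type}
    [CommRing B] [Algebra ℚ_[2] B] [CommRing D] [Algebra ℚ_[2] D] [CommRing C] [Algebra ℚ_[2] C]
    (X : PD G ℚ_[2] χ B D C) (E : Type) [NontriviallyNormedField E] [NormedAlgebra ℚ_[2] E]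
    [FiniteDimensional ℚ_[2] E] (χ' : G →* E) (hχ : ∀ g, χ' g = algebraMap _ E (χ g)) :
    ∃ Y : PD G E χ' (E ⊗[ℚ_[2]] B) (E ⊗[ℚ_[2]] D) (E ⊗[ℚ_[2]] C),
      (∀ g, Y.gC g = Algebra.TensorProduct.map (AlgHom.id E E) (X.gC g)) ∧
      (∀ g, Y.gD g = Algebra.TensorProduct.map (AlgHom.id E E) (X.gD g)) ∧
      Y.fC = Algebra.TensorProduct.map (AlgHom.id E E) X.fC := by
  let b := Module.finBasis ℚ_[2] E
  have t1 : ∀ {F : Type} [CommRing F] [Algebra ℚ_[2] F] (φ : B →ₐ[ℚ_[2]] F) (x : B),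
      map (AlgHom.id E E) φ (1 ⊗ₜ x) = 1 ⊗ₜ φ x := fun φ x => by simp
  refine ⟨{
    gB :=
      { toFun := fun g => map (AlgHom.id E E) (X.gB g)
        map_one' := AlgHom.ext fun z => co_ext b fun i => by rw [co_map, map_one]; rfl
        map_mul' := fun g h => AlgHom.ext fun z => co_ext b fun i => by
          rw [co_map, map_mul, AlgHom.mul_apply, AlgHom.mul_apply, co_map, co_map] }
    gD := fun g => map (AlgHom.id E E) (X.gD g)
    gC := fun g => map (AlgHom.id E E) (X.gC g)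
    fB := map (AlgHom.id E E) X.fB
    fC := map (AlgHom.id E E) X.fC
    β := map (AlgHom.id E E) X.β
    γ := map (AlgHom.id E E) X.γ
    t := 1 ⊗ₜ X.t
    Λ := Subring.closure (S E X.Λ : Set (E ⊗[ℚ_[2]] B))
    βg := fun g x => co_ext b fun i => by simp only [MonoidHom.coe_mk, OneHom.coe_mk, co_map, X.βg]
    γg := fun g x => co_ext b fun i => by simp only [MonoidHom.coe_mk, OneHom.coe_mk, co_map, X.γg]
    γf := fun x => co_ext b fun i => by simp only [co_map, X.γf]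
    fg := fun g x => co_ext b fun i => by simp only [MonoidHom.coe_mk, OneHom.coe_mk, co_map, X.fg]
    gt := fun g => ?_
    ft := ?_
    nzd := fun y h => co_ext b fun i => ?_
    nu := fun h => X.nu ?_
    ut := ?_
    loc := fun c => ?_
    kr := fun x h => co_ext b fun i => ?_
    k0 := fun x h => ?_
    k1 := fun m x h1 h2 => ?_
    s1 := fun y => ?_
    ab := fun x => ?_
    il := fun a h => mem_S h X.Λ.one_mem
    sep := fun x h => co_ext b fun i => ?_
    ct := fun x N g₀ => ?_ }, fun _ => rfl, fun _ => rfl, rfl⟩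
  · simp only [MonoidHom.coe_mk, OneHom.coe_mk]
    rw [t1, X.gt, hχ, algebraMap_smul, TensorProduct.tmul_smul]
  · rw [t1, X.ft, ← pow_one (2 : E ⊗[ℚ_[2]] B), two_r]
    simp
  · have := congrArg (co b i) h
    rw [t1, co_mul, map_zero] at this
    rw [map_zero]
    exact X.nzd _ this
  · rw [t1] at h
    obtain ⟨i, hi⟩ := Finsupp.ne_iff.1 (b.repr.map_ne_zero_iff.2 (one_ne_zero (α := E)))
    have := (co_dvd b).1 (isUnit_iff_dvd_one.1 h) i
    rw [one_def, co_tmul, ← Algebra.algebraMap_eq_smul_one] at this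
    exact isUnit_of_dvd_unit this ((Ne.isUnit hi).map _)
  · rw [t1]
    exact X.ut.map includeRight
  · choose m x hx using fun i => X.loc (co b i c)
    obtain ⟨z, hz⟩ := co_surj b fun i => X.t ^ (∑ j, m j - m i) * x i
    refine ⟨∑ j, m j, z, co_ext b fun i => ?_⟩
    rw [t1, tmul_pow, one_pow, co_mul, co_map, hz, map_mul, map_pow, ← hx, ← mul_assoc, ← pow_add,
      Nat.sub_add_cancel (Finset.single_le_sum (fun _ _ => Nat.zero_le _) (Finset.mem_univ i))]
  · rw [co_map, map_zero]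
    exact X.kr _ (by rw [← co_map, h, map_zero])
  · choose a ha using fun i => X.k0 (co b i x) (by rw [← co_map, h])
    refine ⟨b.equivFun.symm a, co_ext b fun i => ?_⟩
    rw [Algebra.TensorProduct.algebraMap_apply, co_tmul, ha, Algebra.algebraMap_eq_smul_one]
    exact congrArg (· • (1 : B)) (congrFun (b.equivFun.apply_symm_apply a) i).symm
  · rw [t1, co_dvd b] at h2
    choose y hy1 hy2 using fun i => X.k1 m (co b i x) (by rw [← co_map, h1, co_two])
      (by rw [← co_map]; exact h2 i)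
    obtain ⟨z, hz⟩ := co_surj b y
    exact ⟨z, co_ext b fun i => by rw [co_map, co_two, hz, hy1],
      co_ext b fun i => by rw [co_mul, hz, ← hy2]⟩
  · choose x hx1 hx2 using fun i => X.s1 (co b i y)
    obtain ⟨z, hz⟩ := co_surj b x
    refine ⟨z, co_ext b fun i => ?_, ?_⟩
    · rw [co_map, ← pow_one (2 : E ⊗[ℚ_[2]] B), co_two, pow_one, hz, hx1]
    · rw [t1, co_dvd b]
      intro i
      rw [map_sub, co_map, hz]
      exact hx2 i
  · induction x using TensorProduct.induction_on with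
    | zero => exact ⟨0, by simp⟩
    | tmul a x =>
      obtain ⟨c, hc⟩ := small (K := E) ‖a‖
      obtain ⟨N, hN⟩ := X.ab x
      exact ⟨c + N, by rw [two_tmul]; exact mem_S (hc a le_rfl) hN⟩
    | add z w h1 h2 =>
      obtain ⟨N, h1⟩ := h1
      obtain ⟨M, h2⟩ := h2
      refine ⟨N + M, ?_⟩
      rw [show 2 ^ (N + M) * (z + w) = 2 ^ M * (2 ^ N * z) + 2 ^ N * (2 ^ M * w) by ring]
      exact add_mem (mul_mem (pow_mem (ofNat_mem _ 2) _) h1) (mul_mem (pow_mem (ofNat_mem _ 2) _) h2)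
  · obtain ⟨c, hc⟩ := co_bd b X.il i
    rw [map_zero]
    refine X.sep _ fun N => ?_
    obtain ⟨y, hy, e⟩ := h (N + c)
    exact ⟨_, hc y hy, by rw [e, co_two, pow_add, mul_assoc]⟩
  · simp only [MonoidHom.coe_mk, OneHom.coe_mk]
    induction x using TensorProduct.induction_on with
    | zero => exact Eventually.of_forall fun g => ⟨0, zero_mem _, by simp⟩
    | tmul a x =>
      obtain ⟨c, hc⟩ := small (K := E) ‖a‖
      filter_upwards [X.ct x (N + c) g₀] with g ⟨y, hy, e⟩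
      refine ⟨_, mem_S (hc a le_rfl) hy, ?_⟩
      have e1 := two_tmul (K := ℚ_[2]) c 0 a y
      have e2 := two_tmul (K := ℚ_[2]) 0 (N + c) a y
      rw [pow_zero, one_mul] at e1 e2
      rw [map_tmul, map_tmul, AlgHom.id_apply, ← TensorProduct.tmul_sub, e, ← e2, ← e1]
      ring
    | add z w h1 h2 =>
      filter_upwards [h1, h2] with g ⟨y, hy, e⟩ ⟨y', hy', e'⟩
      exact ⟨y + y', add_mem hy hy', by rw [map_add, map_add, mul_add, ← e, ← e']; ring⟩

end Pool.Agent.HF
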