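import Pool.Agent.Lib.MP_b4b3cb_nt.HF.AcA

/-! The de Rham period ring. -/

namespace Pool.Agent.HF

open NumberField Matrix WittVector Ideal Pool.Agent.SelTwo Module
open scoped TensorProduct Topology Nat Classical

namespace BdA

theorem xi_ne : xi ≠ 0 := fun h => by
  have h1 : (1 + eta : Ti) = 0 := by
    have := congrArg (WittVector.constantCoeff (p := 2) (R := Ti)) h
    rw [xi, map_add, map_one, map_zero] at this
    exact this
  obtain ⟨y, hy⟩ := un_surj 0
  have h2 := eta_nm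
  rw [h1, ← zero_mul y, map_mul, hy] at h2
  norm_num at h2

theorem txi : th xi = 0 := th_ker.2 dvd_rfl

theorem inj : Function.Injective (algebraMap Ai Bi) :=
  IsLocalization.injective Bi (M := Submonoid.powers ((2 : ℕ) : Ai))
    (powers_le_nonZeroDivisors_of_noZeroDivisors (by norm_num))

theorem two : IsUnit (2 : Bi) := by simpa using bi_nat (m := 2) (by norm_num)

theorem surj (z : Bi) : ∃ (k : ℕ) (a : Ai), z * 2 ^ k = algebraMap Ai Bi a := by
  obtain ⟨k, a, h⟩ := IsLocalization.Away.surj ((2 : ℕ) : Ai) z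
  exact ⟨k, a, by rwa [map_natCast] at h⟩

theorem ker {R : Type} [CommRing R] (F : Bi →+* R)
    (h : ∀ a, F (algebraMap Ai Bi a) = 0 ↔ th a = 0) (z : Bi) :
    F z = 0 ↔ algebraMap Ai Bi xi ∣ z := by
  refine ⟨fun h0 => ?_, fun ⟨c, e⟩ => by rw [e, map_mul, (h _).2 txi, zero_mul]⟩
  obtain ⟨k, a, e⟩ := surj z
  have := _root_.map_dvd (algebraMap Ai Bi) (th_ker.1 ((h a).1 (by rw [← e, map_mul, h0, zero_mul])))
  rwa [← e, (two.pow k).dvd_mul_right] at this

/-- the map to `ℂ₂`. -/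
noncomputable def tb : Bi →+* ℂ_[2] :=
  IsLocalization.Away.lift ((2 : ℕ) : Ai) (g := (PadicComplexInt 2).subtype.comp th) (by
    rw [map_natCast]
    exact isUnit_iff_ne_zero.2 (by norm_num))

theorem tb_alg (a : Ai) : tb (algebraMap Ai Bi a) = th a := IsLocalization.Away.lift_eq _ _ a

theorem tb_ker (z : Bi) : tb z = 0 ↔ algebraMap Ai Bi xi ∣ z :=
  ker tb (fun a => by rw [tb_alg, ZeroMemClass.coe_eq_zero]) z

theorem tb_surj (c : ℂ_[2]) : ∃ z, tb z = c := by
  obtain ⟨k, hk⟩ := pow_unbounded_of_one_lt ‖c‖ (one_lt_two (α := ℝ))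
  obtain ⟨a, ha⟩ := th_surj ⟨2 ^ k * c, oc_mem.2 (by
    rw [norm_mul, norm_pow, oc_two, inv_pow, inv_mul_le_iff₀ (by positivity)]
    linarith)⟩
  obtain ⟨v, hv⟩ := (two.pow k).exists_left_inv
  refine ⟨v * algebraMap Ai Bi a, ?_⟩
  have := congrArg tb hv
  rw [map_mul, map_pow, map_ofNat, map_one] at this
  rw [map_mul, tb_alg, ha, ← mul_assoc, this, one_mul]

theorem k2 (m : ℕ) : ∀ (k : ℕ) (a : Ai), xi ^ m ∣ 2 ^ k * a → xi ^ m ∣ a := by
  induction m with
  | zero => simp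
  | succ m ih =>
    intro k a h
    have h1 := th_ker.2 ((dvd_pow_self xi m.succ_ne_zero).trans h)
    rw [map_mul, map_pow, map_ofNat] at h1
    obtain ⟨b, rfl⟩ := th_ker.1 ((mul_eq_zero.1 h1).resolve_left (by norm_num))
    rw [mul_left_comm, pow_succ', mul_dvd_mul_iff_left xi_ne] at h
    rw [pow_succ']
    exact mul_dvd_mul_left _ (ih k b h)

theorem k2' {m : ℕ} {a : Ai} (h : algebraMap Ai Bi xi ^ m ∣ algebraMap Ai Bi a) : xi ^ m ∣ a := by
  obtain ⟨z, e⟩ := h
  obtain ⟨k, b, hb⟩ := surj z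
  refine k2 m k a ⟨b, inj ?_⟩
  rw [map_mul, map_mul, map_pow, map_pow, map_ofNat, e, ← hb]
  ring

theorem k3 (m : ℕ) : ∀ a : Ai, (∀ N, ∃ d, xi ^ m ∣ a - 2 ^ N * d) → xi ^ m ∣ a := by
  induction m with
  | zero => simp
  | succ m ih =>
    intro a h
    have h1 : ∀ N, ∃ d, xi ^ (m + 1) ∣ a - 2 ^ N * d ∧ th a = 2 ^ N * th d := fun N => by
      obtain ⟨d, hd⟩ := h N
      have := th_ker.2 ((dvd_pow_self xi m.succ_ne_zero).trans hd)
      rw [map_sub, map_mul, map_pow, map_ofNat, sub_eq_zero] at this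
      exact ⟨d, hd, this⟩
    have h2 : th a = 0 := oc_cpl.1 _ fun N => (h1 N).elim fun d hd => ⟨_, hd.2⟩
    obtain ⟨b, rfl⟩ := th_ker.1 h2
    rw [pow_succ']
    refine mul_dvd_mul_left _ (ih b fun N => ?_)
    obtain ⟨d, hd, e⟩ := h1 N
    obtain ⟨c, rfl⟩ := th_ker.1 ((mul_eq_zero.1 (e.symm.trans h2)).resolve_left (by norm_num))
    rw [mul_left_comm, ← mul_sub, pow_succ', mul_dvd_mul_iff_left xi_ne] at hd
    exact ⟨c, hd⟩

theorem k1 (m : ℕ) : ∃ c : ℕ, ∀ z : A0, ∃ a : Ai,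
    algebraMap Ai Bi xi ^ m ∣ 2 ^ c * (z : Bi) - algebraMap Ai Bi a := by
  obtain ⟨c, o, ⟨j, rfl⟩, e⟩ := Nat.exists_eq_two_pow_mul_odd m.factorial_ne_zero
  obtain ⟨v, hv⟩ := (ai_cpl.unit j).exists_left_inv
  obtain ⟨d, h1, h2⟩ := exDp
  refine ⟨c, fun z => ?_⟩
  induction h2 z using Submodule.span_induction with
  | mem z hz =>
    obtain ⟨i, rfl⟩ := hz
    have h3 : (i ! : Bi) * d i = algebraMap Ai Bi xi ^ i := by
      simpa using congrArg Subtype.val (h1 i)
    rcases le_total i m with h | h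
    · obtain ⟨q, hq⟩ := Nat.factorial_dvd_factorial h
      refine ⟨v * q * xi ^ i, ?_⟩
      have h4 := congrArg (algebraMap Ai Bi) hv
      have h5 : (i ! : Bi) * q = 2 ^ c * (2 * j + 1) := by exact_mod_cast hq.symm.trans e
      simp only [map_mul, map_add, map_one, map_ofNat, map_natCast, map_pow] at h4 ⊢
      refine Dvd.intro 0 ?_
      linear_combination (2 ^ c * (d i : Bi)) * h4 + (algebraMap Ai Bi v * d i) * h5 -
        (algebraMap Ai Bi v * q) * h3
    · refine ⟨0, ?_⟩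
      rw [map_zero, sub_zero]
      refine Dvd.dvd.mul_left ?_ _
      rw [← (bi_nat i.factorial_ne_zero).dvd_mul_left, h3]
      exact pow_dvd_pow _ h
  | zero => exact ⟨0, by simp⟩
  | add x y _ _ hx hy =>
    obtain ⟨a, ha⟩ := hx
    obtain ⟨b, hb⟩ := hy
    refine ⟨a + b, (dvd_add ha hb).trans (dvd_of_eq ?_)⟩
    rw [map_add, AddMemClass.coe_add]
    ring
  | smul r x _ hx =>
    obtain ⟨a, ha⟩ := hx
    refine ⟨r * a, (ha.mul_left (algebraMap Ai Bi r)).trans (dvd_of_eq ?_)⟩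
    rw [map_mul, SetLike.val_smul, Algebra.smul_def]
    ring

end BdA

open BdA

variable {σ : RingAut ℂ_[2]} {u : Ti →+* Ti}

theorem bd_ker : RingHom.ker (fontaineThetaInvertP OC 2) = span {algebraMap Ai Bi xi} := by
  ext z
  rw [RingHom.mem_ker, mem_span_singleton]
  refine BdA.ker _ (fun a => ?_) z
  have e : fontaineThetaInvertP OC 2 (algebraMap Ai Bi a) = algebraMap OC _ (th a) := by
    unfold fontaineThetaInvertP
    exact IsLocalization.Away.lift_eq _ _ a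
  rw [e]
  exact map_eq_zero_iff _ (IsLocalization.injective _ (M := Submonoid.powers ((2 : ℕ) : OC))
    (powers_le_nonZeroDivisors_of_noZeroDivisors (by norm_num)))

namespace BdA

theorem alg (a : Ai) : algebraMap Ai Bd a = algebraMap Bi Bd (algebraMap Ai Bi a) :=
  IsScalarTower.algebraMap_apply _ _ _ a

theorem cpl : Cpl (algebraMap Ai Bd xi) := alg xi ▸ ac_cpl bd_ker

theorem xi_map (h : Lf σ u) : xi ∣ WittVector.map u xi := th_ker.1 (by
  rw [← ZeroMemClass.coe_eq_zero, h.th, txi, ZeroMemClass.coe_zero, map_zero])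

theorem x_map (h : Lf σ u) {s : Bd →+* Bd} (a : Ov u s) :
    algebraMap Ai Bd xi ∣ s (algebraMap Ai Bd xi) := a xi ▸ _root_.map_dvd _ (xi_map h)

theorem tf (x : Bd) (h : 2 * x = 0) : x = 0 := bd_two.mul_right_eq_zero.1 h

/-- the map from the divided power envelope. -/
noncomputable def io : A0 →+* Bd := (algebraMap Bi Bd).comp A0.val.toRingHom

theorem io_alg (a : Ai) : io (algebraMap Ai A0 a) = algebraMap Ai Bd a := (alg a).symm

theorem k1' (m : ℕ) : ∃ c : ℕ, ∀ z : A0, ∃ a : Ai,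
    algebraMap Ai Bd xi ^ m ∣ 2 ^ c * io z - algebraMap Ai Bd a := by
  obtain ⟨c, hc⟩ := k1 m
  refine ⟨c, fun z => (hc z).imp fun a ha => ?_⟩
  have := _root_.map_dvd (algebraMap Bi Bd) ha
  rwa [map_pow, map_sub, map_mul, map_pow, map_ofNat, ← alg, ← alg] at this

theorem sepm {m : ℕ} {D : Bd} (h : ∀ N, ∃ z, algebraMap Ai Bd xi ^ m ∣ D - 2 ^ N * io z) :
    algebraMap Ai Bd xi ^ m ∣ D := by
  obtain ⟨c, hc⟩ := k1' m
  have h1 : ∀ N, ∃ a, algebraMap Ai Bd xi ^ m ∣ 2 ^ c * D - 2 ^ N * algebraMap Ai Bd a := fun N => by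
    obtain ⟨z, hz⟩ := h N
    obtain ⟨a, ha⟩ := hc z
    exact ⟨a, (dvd_add (hz.mul_left (2 ^ c)) (ha.mul_left (2 ^ N))).trans (dvd_of_eq (by ring))⟩
  obtain ⟨a, ha⟩ := h1 0
  have h2 : xi ^ m ∣ a := k3 m a fun N => (h1 N).imp fun b hb => k2' ((ac_dvd bd_ker).1 (by
    rw [← alg, ← alg, map_sub, map_mul, map_pow, map_ofNat]
    exact (dvd_sub hb ha).trans (dvd_of_eq (by ring))))
  have h3 := _root_.map_dvd (algebraMap Ai Bd) h2
  rw [map_pow] at h3
  exact (bd_two.pow c).dvd_mul_left.1 ((dvd_add ha h3).trans (dvd_of_eq (by ring)))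

theorem exm (m : ℕ) (g : ℕ → Bd) (h : ∀ i, ∃ z, algebraMap Ai Bd xi ^ m ∣ g i - io z) :
    ∃ T, ∀ N, ∃ z, algebraMap Ai Bd xi ^ m ∣
      T - ∑ i ∈ Finset.range N, 2 ^ i * g i - 2 ^ N * io z := by
  obtain ⟨c, hc⟩ := k1' m
  choose z hz using h
  choose a ha using fun i => hc (z i)
  obtain ⟨l, hl⟩ := ai_cpl.sum a
  obtain ⟨v, hv⟩ := (bd_two.pow c).exists_right_inv
  refine ⟨v * algebraMap Ai Bd l, fun N => ?_⟩
  obtain ⟨e, he⟩ := hl (N + c)
  refine ⟨algebraMap Ai A0 e + ∑ j ∈ Finset.range c, 2 ^ j * z (N + j), ?_⟩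
  have h1 := congrArg (algebraMap Ai Bd) he
  simp only [map_sub, map_sum, map_mul, map_pow, map_ofNat] at h1
  have h2 := Finset.dvd_sum (s := Finset.range (N + c)) fun i _ =>
    (dvd_add ((hz i).mul_left (2 ^ c)) (ha i)).mul_left (2 ^ i)
  have h3 := Finset.dvd_sum (s := Finset.range c) fun j _ => (hz (N + j)).mul_left (2 ^ (N + j))
  refine (bd_two.pow c).dvd_mul_left.1 ((dvd_sub (h3.mul_left (2 ^ c)) h2).trans (dvd_of_eq ?_))
  have h4 : ∑ i ∈ Finset.range (N + c), 2 ^ i * (2 ^ c * (g i - io (z i)) +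
      (2 ^ c * io (z i) - algebraMap Ai Bd (a i))) = 2 ^ c * ∑ i ∈ Finset.range (N + c), 2 ^ i * g i -
        ∑ i ∈ Finset.range (N + c), 2 ^ i * algebraMap Ai Bd (a i) := by
    rw [Finset.mul_sum, ← Finset.sum_sub_distrib]
    exact Finset.sum_congr rfl fun i _ => by ring
  have h5 : ∑ j ∈ Finset.range c, 2 ^ (N + j) * (g (N + j) - io (z (N + j))) =
      ∑ j ∈ Finset.range c, 2 ^ (N + j) * g (N + j) -
        2 ^ N * ∑ j ∈ Finset.range c, 2 ^ j * io (z (N + j)) := by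
    rw [Finset.mul_sum, ← Finset.sum_sub_distrib]
    exact Finset.sum_congr rfl fun i _ => by ring
  rw [h4, h5, Finset.sum_range_add (fun i => 2 ^ i * g i)]
  simp only [map_add, map_sum, map_mul, map_pow, map_ofNat, io_alg]
  linear_combination -h1 - algebraMap Ai Bd l * hv

/-- the lattice. -/
noncomputable def La : Subring Bd where
  carrier := {y | ∀ m, ∃ z, algebraMap Ai Bd xi ^ m ∣ y - io z}
  zero_mem' m := ⟨0, by simp⟩
  one_mem' m := ⟨1, by simp⟩
  add_mem' {x y} hx hy m := (hx m).elim fun a ha => (hy m).elim fun b hb =>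
    ⟨a + b, (dvd_add ha hb).trans (dvd_of_eq (by rw [map_add]; ring))⟩
  neg_mem' {x} hx m := (hx m).elim fun a ha =>
    ⟨-a, ha.neg_right.trans (dvd_of_eq (by rw [map_neg]; ring))⟩
  mul_mem' {x y} hx hy m := (hx m).elim fun a ha => (hy m).elim fun b hb =>
    ⟨a * b, (dvd_add (ha.mul_right y) (hb.mul_left (io a))).trans
      (dvd_of_eq (by rw [map_mul]; ring))⟩

theorem la_cpl : Cpl (2 : La) := by
  refine ⟨fun y hy => Subtype.ext (cpl.1 _ fun m => sepm fun N => ?_), fun f hf => ?_⟩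
  · obtain ⟨x, e⟩ := hy N
    obtain ⟨z, hz⟩ := x.2 m
    refine ⟨z, (hz.mul_left (2 ^ N)).trans (dvd_of_eq ?_)⟩
    have : (y : Bd) = 2 ^ N * x := congrArg Subtype.val e
    rw [this]
    ring
  · choose g hg using hf
    have e : ∀ N, f N = f 0 + ∑ i ∈ Finset.range N, 2 ^ i * g i := fun N => by
      induction N with
      | zero => simp
      | succ N ih => rw [Finset.sum_range_succ, ← add_assoc, ← ih, ← hg, add_sub_cancel]
    choose T hT using fun m => exm m (fun i => g i) fun i => (g i).2 m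
    obtain ⟨l, hl⟩ := cpl.2 T fun m => sepm fun N => by
      obtain ⟨z, hz⟩ := hT (m + 1) N
      obtain ⟨z', hz'⟩ := hT m N
      exact ⟨z - z', (dvd_sub ((pow_dvd_pow _ m.le_succ).trans hz) hz').trans
        (dvd_of_eq (by rw [map_sub]; ring))⟩
    have h1 : ∀ N, ∃ x : La, l - ∑ i ∈ Finset.range N, 2 ^ i * (g i : Bd) = 2 ^ N * x := fun N => by
      obtain ⟨v, hv⟩ := (bd_two.pow N).exists_right_inv
      refine ⟨⟨v * (l - ∑ i ∈ Finset.range N, 2 ^ i * (g i : Bd)), fun m => ?_⟩, by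
        rw [← mul_assoc, hv, one_mul]⟩
      obtain ⟨z, hz⟩ := hT m N
      refine ⟨z, (bd_two.pow N).dvd_mul_left.1 ((dvd_add (hl m) hz).trans (dvd_of_eq ?_))⟩
      rw [mul_sub (2 ^ N : Bd), ← mul_assoc, hv]
      ring
    obtain ⟨x, hx⟩ := h1 0
    refine ⟨f 0 + x, fun N => (h1 N).imp fun y hy => Subtype.ext ?_⟩
    rw [e N, add_sub_add_left_eq_sub]
    push_cast
    rw [Finset.sum_range_zero, sub_zero, pow_zero, one_mul] at hx
    rw [← hx]
    exact hy

end BdA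

theorem bd_nzd (y : Bd) (h : algebraMap Ai Bd xi * y = 0) : y = 0 :=
  ac_nzd bd_ker (fun _ ha => (mul_eq_zero.1 ha).resolve_left
    fun c => xi_ne (inj (c.trans (map_zero _).symm))) y (alg xi ▸ h)

theorem exTd : ∃ f : Bd →+* ℂ_[2], (∀ a, f (algebraMap Ai Bd a) = th a) ∧
    (∀ y, f y = 0 ↔ algebraMap Ai Bd xi ∣ y) ∧ ∀ y, f y ≠ 0 → IsUnit y := by
  obtain ⟨f, hf⟩ := ac_lift bd_ker tb (q := 0) ⟨fun x h => by simpa using h 1, fun g h => ⟨g 1, by
    have e : ∀ N, g (N + 1) = g 1 := fun N => by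
      induction N with
      | zero => rfl
      | succ N ih => rw [← ih]; simpa [sub_eq_zero] using h (N + 1)
    rintro (_ | N) <;> simp [e]⟩⟩ (by rw [(tb_ker _).2 dvd_rfl])
  have h1 : ∀ a, f (algebraMap Ai Bd a) = th a := fun a => by rw [alg, hf, tb_alg]
  have h0 : f (algebraMap Ai Bd xi) = 0 := by rw [h1, txi, ZeroMemClass.coe_zero]
  have h2 : ∀ y, f y = 0 ↔ algebraMap Ai Bd xi ∣ y := fun y => by
    refine ⟨fun h => ?_, fun ⟨c, e⟩ => by rw [e, map_mul, h0, zero_mul]⟩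
    obtain ⟨a, z, e⟩ := ac_den bd_ker y 1
    rw [pow_one, ← alg] at e
    have := congrArg f e
    rw [map_sub, map_mul, h, h0, hf, zero_mul, zero_sub, neg_eq_zero, tb_ker] at this
    rw [sub_eq_iff_eq_add.1 e]
    exact dvd_add (dvd_mul_right _ _) (alg xi ▸ _root_.map_dvd _ this)
  refine ⟨f, h1, h2, fun y hy => ?_⟩
  obtain ⟨b, hb⟩ := tb_surj (f y)⁻¹
  obtain ⟨z, e⟩ := (h2 (algebraMap Bi Bd b * y - 1)).1 (by
    rw [map_sub, map_mul, hf, hb, inv_mul_cancel₀ hy, map_one, sub_self])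
  have := cpl.unit z
  rw [← e, add_sub_cancel] at this
  exact isUnit_of_mul_isUnit_right this

theorem exOvD (h : Lf σ u) : ∃ s : Bd →+* Bd, Ov u s := by
  let r : Bi →+* Bd := IsLocalization.Away.lift ((2 : ℕ) : Ai)
    (g := (algebraMap Ai Bd).comp (WittVector.map u)) (by rw [map_natCast]; exact bd_two)
  have hr : ∀ a, r (algebraMap Ai Bi a) = algebraMap Ai Bd (WittVector.map u a) :=
    IsLocalization.Away.lift_eq _ _
  obtain ⟨s, hs⟩ := ac_lift bd_ker r cpl (hr xi ▸ _root_.map_dvd _ (xi_map h))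
  exact ⟨s, fun a => by rw [alg, hs, hr]⟩

theorem ovD_uniq (h : Lf σ u) {s s' : Bd →+* Bd} (a : Ov u s) (b : Ov u s') : s = s' :=
  ac_ext bd_ker s s' (fun _ k => cpl.1 _ fun N =>
    (pow_dvd_pow_of_dvd (alg xi ▸ x_map h a) N).trans (k N)) fun z =>
    DFunLike.congr_fun (IsLocalization.ringHom_ext (Submonoid.powers ((2 : ℕ) : Ai))
      (j := s.comp (algebraMap Bi Bd)) (k := s'.comp (algebraMap Bi Bd))
      (RingHom.ext fun x => ((alg x ▸ a x :) : _ = _).trans (alg x ▸ b x :).symm)) z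

theorem exBe : ∃ β : Ac →+* Bd, (∀ a, β (algebraMap Ai Ac a) = algebraMap Ai Bd a) ∧
    (∀ σ u (r : Ac →+* Ac) (s : Bd →+* Bd), Lf σ u → Ov u r → Ov u s → ∀ x, β (r x) = s (β x)) ∧
    ∀ (f : Bd →+* ℂ_[2]) (f' : Ac →+* OC), (∀ a, f (algebraMap Ai Bd a) = th a) →
      (∀ a, f' (algebraMap Ai Ac a) = th a) → ∀ x, f (β x) = f' x := by
  obtain ⟨F, hF⟩ := ac_lift (I := span {(2 : A0)}) rfl
    (io.codRestrict La fun z m => ⟨z, by simp⟩) la_cpl (by rw [map_ofNat])
  have h1 : ∀ a, (F (algebraMap Ai Ac a) : Bd) = algebraMap Ai Bd a := fun a => by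
    rw [IsScalarTower.algebraMap_apply Ai A0 Ac, hF]
    exact io_alg a
  refine ⟨La.subtype.comp F, h1, fun σ u r s h hr hs x => ?_, fun f f' hf hf' x => ?_⟩
  · obtain ⟨r0, h0⟩ := exOv0 (u := u) (by rw [th_ker.2 (xi_map h)]; exact dvd_zero _)
    have e := a0_ext (s.comp io) (io.comp r0) tf fun a => by
      rw [RingHom.comp_apply, RingHom.comp_apply, h0, io_alg, io_alg, hs]
    let s' : La →+* La := (s.comp La.subtype).codRestrict La fun y m => (y.2 m).elim fun z hz =>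
      ⟨r0 z, by
        have := _root_.map_dvd s hz
        rw [map_pow, map_sub, show s (io z) = io (r0 z) from DFunLike.congr_fun e z] at this
        exact (pow_dvd_pow_of_dvd (x_map h hs) m).trans this⟩
    exact congrArg Subtype.val (DFunLike.congr_fun (ac_uniq (F.comp r) (s'.comp F)
      (fun y k => Subtype.ext (tf _ (congrArg Subtype.val k))) la_cpl.1 fun a => Subtype.ext (by
        change (F (r _) : Bd) = s (F _)
        rw [hr, h1, h1, hs])) x)
  · obtain ⟨f0, h0⟩ := exTh0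
    have e := a0_ext (f.comp io) ((PadicComplexInt 2).subtype.comp f0)
      (fun x k => (mul_eq_zero.1 k).resolve_left (by norm_num)) fun a => by
        rw [RingHom.comp_apply, RingHom.comp_apply, h0, io_alg, hf]
        rfl
    let f1 : La →+* OC := (f.comp La.subtype).codRestrict (PadicComplexInt 2) fun y => by
      obtain ⟨z, w, hz⟩ := y.2 1
      have := congrArg f hz
      rw [map_sub, map_mul, pow_one, hf, txi, ZeroMemClass.coe_zero, zero_mul, sub_eq_zero,
        show f (io z) = f0 z from DFunLike.congr_fun e z] at this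
      change f y ∈ _
      rw [this]
      exact (f0 z).2
    exact congrArg Subtype.val (DFunLike.congr_fun (ac_uniq (f1.comp F) f'
      (fun y k => (mul_eq_zero.1 k).resolve_left (by norm_num)) oc_cpl.1 fun a => Subtype.ext (by
        change f (F _) = _
        rw [h1, hf, hf'])) x)

end Pool.Agent.HF
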