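import Pool.Agent.Lib.MP_b4b3cb_nt.HF.Defs

/-! Period data from an abstract crystalline ring. -/

namespace Pool.Agent.HF

open NumberField Matrix WittVector Ideal Pool.Agent.SelTwo Module
open scoped TensorProduct Topology Nat Classical

/-- A ring homomorphism that is compatible with `ℤ₂` is `ℚ₂`-linear. -/
noncomputable def toA {X Y : Type} [CommRing X] [CommRing Y] [Algebra ℚ_[2] X] [Algebra ℚ_[2] Y]
    (f : X →+* Y)
    (h : ∀ c : ℤ_[2], f (algebraMap ℚ_[2] X c) = algebraMap ℚ_[2] Y c) : X →ₐ[ℚ_[2]] Y :=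
  { f with
    commutes' := fun q => by
      have e : f.comp (algebraMap ℚ_[2] X) = algebraMap ℚ_[2] Y :=
        IsLocalization.ringHom_ext (nonZeroDivisors ℤ_[2]) (RingHom.ext h)
      exact DFunLike.congr_fun e q }

theorem pow_nzd {A : Type} [CommRing A] {w : A} (h : ∀ x, w * x = 0 → x = 0) (N : ℕ) (x : A)
    (e : w ^ N * x = 0) : x = 0 := by
  induction N with
  | zero => simpa using e
  | succ N ih => exact ih (h _ (by rw [← e]; ring))

theorem q_two (Y : Type) [CommRing Y] [Algebra ℚ_[2] Y] : IsUnit (2 : Y) := by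
  have := (IsUnit.mk0 (2 : ℚ_[2]) two_ne_zero).map (algebraMap ℚ_[2] Y)
  rwa [map_ofNat] at this

theorem q_div {Y : Type} [CommRing Y] [Algebra ℚ_[2] Y] (N : ℕ) (z : Y) : ∃ x, 2 ^ N * x = z := by
  obtain ⟨x, e⟩ := ((q_two Y).pow N).dvd (a := z)
  exact ⟨x, e.symm⟩

theorem c_scale (z : ℂ_[2]) : ∃ (N : ℕ) (y : OC), (y : ℂ_[2]) = 2 ^ N * z := by
  obtain ⟨N, hN⟩ := pow_unbounded_of_one_lt ‖z‖ (one_lt_two (α := ℝ))
  refine ⟨N, ⟨2 ^ N * z, oc_mem.2 ?_⟩, rfl⟩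
  rw [norm_mul, norm_pow, oc_two, inv_pow, inv_mul_le_iff₀ (by positivity), mul_one]
  exact hN.le

section gen

variable {A C : Type} [CommRing A] [CommRing C] [Algebra A C] [Algebra ℚ_[2] C] (w : A)
  [IsLocalization.Away w C] {z : ℤ_[2] →+* A}

include w in
theorem aw_ext {Y : Type} [CommRing Y] [Algebra ℚ_[2] Y] {s s' : C →ₐ[ℚ_[2]] Y}
    (h : ∀ x, s (algebraMap A C x) = s' (algebraMap A C x)) : s = s' :=
  AlgHom.coe_ringHom_injective (IsLocalization.ringHom_ext (Submonoid.powers w) (RingHom.ext h))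

theorem aw_lift (qC : ∀ c : ℤ_[2], algebraMap ℚ_[2] C c = algebraMap A C (z c)) {Y : Type}
    [CommRing Y] [Algebra ℚ_[2] Y] (k : A →+* Y) (h2 : IsUnit (k w))
    (h : ∀ c : ℤ_[2], k (z c) = algebraMap ℚ_[2] Y c) :
    ∃ s : C →ₐ[ℚ_[2]] Y, ∀ x, s (algebraMap A C x) = k x := by
  refine ⟨toA (IsLocalization.Away.lift w h2) fun c => ?_, fun x => ?_⟩
  · rw [qC, IsLocalization.Away.lift_eq, h]
  · exact IsLocalization.Away.lift_eq w h2 x

omit [Algebra ℚ_[2] C] in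
theorem aw_t {t : A} {U : Aˣ} (hw : w * U = 2 ^ 2 * t) : IsUnit (algebraMap A C t) := by
  have := (IsLocalization.Away.algebraMap_isUnit (S := C) w).mul (U.isUnit.map (algebraMap A C))
  rw [← map_mul, hw, map_mul] at this
  exact isUnit_of_mul_isUnit_right this

theorem liftC (qC : ∀ c : ℤ_[2], algebraMap ℚ_[2] C c = algebraMap A C (z c)) {r : A →+* A}
    (h : ∀ c, r (z c) = z c) {t c : A} {U : Aˣ} (hw : w * U = 2 ^ 2 * t) (hr : r t = c * t)
    (hc : IsUnit (algebraMap A C c)) :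
    ∃ s : C →ₐ[ℚ_[2]] C, ∀ x, s (algebraMap A C x) = algebraMap A C (r x) := by
  refine aw_lift w qC ((algebraMap A C).comp r) ?_ fun c => by rw [RingHom.comp_apply, h, qC]
  have : IsUnit (((algebraMap A C).comp r) (w * U)) := by
    rw [hw, map_mul, map_pow, map_ofNat, RingHom.comp_apply, hr, map_mul]
    exact ((q_two C).pow 2).mul (hc.mul (aw_t w hw))
  rw [map_mul] at this
  exact isUnit_of_mul_isUnit_left this

variable {B D : Type} [CommRing B] [Algebra A B] [Algebra ℚ_[2] B] [IsLocalization.Away (2 : A) B]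
  [CommRing D] [Algebra ℚ_[2] D]

omit [Algebra ℚ_[2] B] in
theorem bp_sur (x : B) : ∃ (N : ℕ) (y : A), 2 ^ N * x = algebraMap A B y := by
  obtain ⟨N, y, e⟩ := IsLocalization.Away.surj (S := B) (2 : A) x
  exact ⟨N, y, by rw [← e, map_ofNat, mul_comm]⟩

omit [Algebra ℚ_[2] B] in
theorem bp_inj (n2 : ∀ x : A, 2 * x = 0 → x = 0) {x y : A}
    (h : algebraMap A B x = algebraMap A B y) : x = y := by
  obtain ⟨N, e⟩ := IsLocalization.Away.exists_of_eq (S := B) (2 : A) h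
  exact sub_eq_zero.1 (pow_nzd n2 N _ (by rw [mul_sub, e, sub_self]))

theorem mkPD {G : Type} [Group G] [TopologicalSpace G] (χ : G →* ℚ_[2]) (κ : G → ℤ_[2]ˣ)
    (hχ : ∀ g, χ g = (κ g : ℤ_[2]))
    (qB : ∀ c : ℤ_[2], algebraMap ℚ_[2] B c = algebraMap A B (z c))
    (qC : ∀ c : ℤ_[2], algebraMap ℚ_[2] C c = algebraMap A C (z c))
    (n2 : ∀ x : A, 2 * x = 0 → x = 0) (sp : ∀ x : A, (∀ N, 2 ^ N ∣ x) → x = 0)
    (r : G → A →+* A) (ph : A →+* A) (rz : ∀ g c, r g (z c) = z c) (pz : ∀ c, ph (z c) = z c)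
    (r1 : r 1 = RingHom.id A) (rm : ∀ g h, r (g * h) = (r g).comp (r h))
    (pr : ∀ g, ph.comp (r g) = (r g).comp ph) {t : A} {U : Aˣ} (hw : w * U = 2 ^ 2 * t)
    (ht : ∀ g, r g t = z (κ g) * t) (hpt : ph t = 2 * t) (b : A →+* D)
    (qD : ∀ c : ℤ_[2], b (z c) = algebraMap ℚ_[2] D c) (gD : G → D →ₐ[ℚ_[2]] D)
    (hbs : ∀ g x, b (r g x) = gD g (b x)) (f : D →+* ℂ_[2]) (hk : ∀ y, f y = 0 ↔ b t ∣ y)
    (nz : ∀ y, b t * y = 0 → y = 0) (f' : A →+* OC) (hbf : ∀ x, f (b x) = f' x)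
    (k0 : ∀ x, ph x = x → ∃ c, x = z c)
    (k1 : ∀ (m : ℕ) x, ph x = 2 ^ (m + 1) * x → f' x = 0 →
      ∃ (i : ℕ) (y : A), ph y = 2 ^ m * y ∧ 2 ^ i * x = t * y)
    (s1 : ∀ y : OC, ∃ x, ph x = 2 * x ∧ f' x = 4 * y)
    (ct : ∀ x (N : ℕ) g₀, ∀ᶠ g in 𝓝 g₀, 2 ^ N ∣ r g x - r g₀ x) :
    ∃ X : PD G ℚ_[2] χ B D C, X.gD = gD ∧
      (∀ g x, X.gC g (algebraMap A C x) = algebraMap A C (r g x)) ∧
      ∀ x, X.fC (algebraMap A C x) = algebraMap A C (ph x) := by
  have u2 : ∀ {Y : Type} [CommRing Y] [Algebra ℚ_[2] Y] (k : A →+* Y), IsUnit (k 2) :=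
    fun {Y} _ _ k => by rw [map_ofNat]; exact q_two Y
  choose gB hgB using fun g => aw_lift (2 : A) qB ((algebraMap A B).comp (r g)) (u2 _) fun c => by
    rw [RingHom.comp_apply, rz, qB]
  choose gC hgC using fun g => liftC w qC (rz g) hw (ht g) (((κ g).isUnit.map z).map _)
  obtain ⟨fB, hfB⟩ := aw_lift (2 : A) qB ((algebraMap A B).comp ph) (u2 _) fun c => by
    rw [RingHom.comp_apply, pz, qB]
  simp only [RingHom.comp_apply] at hgB hfB
  obtain ⟨fC, hfC⟩ := liftC w qC pz hw hpt (u2 _)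
  obtain ⟨β, hβ⟩ := aw_lift (2 : A) qB b (u2 _) qD
  obtain ⟨γ, hγ⟩ := aw_lift (2 : A) qB (algebraMap A C) (u2 _) fun c => (qC c).symm
  have ft0 : f (b t) = 0 := (hk _).2 dvd_rfl
  have b2 := q_two B
  refine ⟨{
    gB := { toFun := gB
            map_one' := aw_ext (2 : A) fun x => by rw [hgB, r1]; rfl
            map_mul' := fun g h => aw_ext (2 : A) fun x => by
              rw [AlgHom.mul_apply, hgB, hgB, hgB, rm, RingHom.comp_apply] }
    gD := gD
    gC := gC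
    fB := fB
    fC := fC
    β := β
    γ := γ
    t := algebraMap A B t
    Λ := (algebraMap A B).range
    βg := fun g x => DFunLike.congr_fun (aw_ext (2 : A) (s := β.comp (gB g)) (s' := (gD g).comp β)
      fun x => by rw [AlgHom.comp_apply, AlgHom.comp_apply, hgB, hβ, hβ, hbs]) x
    γg := fun g x => DFunLike.congr_fun (aw_ext (2 : A) (s := γ.comp (gB g)) (s' := (gC g).comp γ)
      fun x => by rw [AlgHom.comp_apply, AlgHom.comp_apply, hgB, hγ, hγ, hgC]) x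
    γf := fun x => DFunLike.congr_fun (aw_ext (2 : A) (s := γ.comp fB) (s' := fC.comp γ)
      fun x => by rw [AlgHom.comp_apply, AlgHom.comp_apply, hfB, hγ, hγ, hfC]) x
    fg := fun g x => DFunLike.congr_fun (aw_ext (2 : A) (s := fB.comp (gB g))
      (s' := (gB g).comp fB) fun x => ?_) x
    gt := fun g => ?_
    ft := by rw [hfB, hpt, map_mul, map_ofNat]
    nzd := by rw [hβ]; exact nz
    nu := fun e => ?_
    ut := by rw [hγ]; exact aw_t w hw
    loc := fun c => ?_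
    kr := fun x e => ?_
    k0 := fun x e => ?_
    k1 := fun m x e d => ?_
    s1 := fun y => ?_
    ab := fun x => (bp_sur (A := A) x).imp fun N ⟨y, e⟩ => ⟨y, e.symm⟩
    il := fun c e => ⟨_, (qB ⟨c, e⟩).symm⟩
    sep := fun x e => ?_
    ct := fun x N g₀ => ?_ }, rfl, hgC, hfC⟩
  · rw [AlgHom.comp_apply, AlgHom.comp_apply, hgB, hfB, hfB, hgB]
    exact congrArg _ (DFunLike.congr_fun (pr g) x)
  · change gB g _ = _
    rw [hgB, ht, map_mul, ← qB, Algebra.smul_def, hχ]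
  · rw [hβ] at e
    exact (e.map f).ne_zero ft0
  · obtain ⟨m, y, e⟩ := IsLocalization.Away.surj (S := C) w c
    obtain ⟨x, hx⟩ := q_div (2 * m) (algebraMap A B (y * U ^ m))
    refine ⟨m, x, ((q_two C).pow (2 * m)).mul_left_cancel ?_⟩
    have e2 := congrArg γ hx
    rw [map_mul, map_pow, map_ofNat, hγ] at e2
    rw [e2, hγ, map_mul, ← e, mul_assoc c, ← map_pow (algebraMap A C) w, ← map_mul, ← mul_pow, hw,
      mul_pow, map_mul, map_pow, map_pow, map_pow, map_ofNat, pow_mul]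
    ring
  · obtain ⟨N, y, hy⟩ := bp_sur (A := A) x
    have e2 := congrArg γ hy
    rw [map_mul, e, mul_zero, hγ, ← map_zero (algebraMap A C)] at e2
    obtain ⟨m, e3⟩ := IsLocalization.Away.exists_of_eq (S := C) w e2
    have e4 : 2 ^ (2 * m) * (t ^ m * y) = 0 := by
      rw [pow_mul, ← mul_assoc, ← mul_pow, ← hw, mul_pow, mul_right_comm, ← e3, mul_zero, zero_mul]
    have e5 := congrArg b (pow_nzd n2 _ _ e4)
    rw [map_mul, map_pow, map_zero] at e5
    have e6 := congrArg β hy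
    rw [map_mul, map_pow, map_ofNat, hβ, pow_nzd nz _ _ e5] at e6
    exact ((q_two D).pow N).mul_right_eq_zero.1 e6
  · obtain ⟨N, y, hy⟩ := bp_sur (A := A) x
    have e2 := congrArg fB hy
    rw [map_mul, map_pow, map_ofNat, e, hy, hfB] at e2
    obtain ⟨c, rfl⟩ := k0 y (bp_inj n2 e2).symm
    refine ⟨2⁻¹ ^ N * c, (b2.pow N).mul_left_cancel ?_⟩
    rw [hy, ← qB, ← map_ofNat (algebraMap ℚ_[2] B) 2, ← map_pow, ← map_mul, ← mul_assoc, ← mul_pow,
      mul_inv_cancel₀ two_ne_zero, one_pow, one_mul]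
  · obtain ⟨N, y, hy⟩ := bp_sur (A := A) x
    have e2 := congrArg fB hy
    rw [map_mul, map_pow, map_ofNat, e, mul_left_comm, hy, hfB, ← map_ofNat (algebraMap A B) 2,
      ← map_pow, ← map_mul] at e2
    obtain ⟨v, hv⟩ := d
    have e3 := congrArg (fun y => f (β y)) hy
    simp only [map_mul, hv, hβ, ft0, zero_mul, mul_zero, hbf] at e3
    obtain ⟨i, y', h1, h2⟩ := k1 m y (bp_inj n2 e2).symm (Subtype.ext e3.symm)
    obtain ⟨v', hv'⟩ := q_div (i + N) (algebraMap A B y')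
    refine ⟨v', (b2.pow (i + N)).mul_left_cancel ?_, (b2.pow (i + N)).mul_left_cancel ?_⟩
    · have e4 := congrArg fB hv'
      rw [map_mul, map_pow, map_ofNat, hfB, h1, map_mul, map_pow, map_ofNat] at e4
      rw [e4, mul_left_comm, hv']
    · have e4 := congrArg (algebraMap A B) h2
      rw [map_mul, map_mul, map_pow, map_ofNat] at e4
      rw [mul_left_comm, hv', pow_add, mul_assoc, hy, e4]
  · obtain ⟨N, v, hv⟩ := c_scale (f y)
    obtain ⟨x₀, h1, h2⟩ := s1 v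
    obtain ⟨x, hx⟩ := q_div (N + 2) (algebraMap A B x₀)
    refine ⟨x, (b2.pow (N + 2)).mul_left_cancel ?_, ?_⟩
    · have e4 := congrArg fB hx
      rw [map_mul, map_pow, map_ofNat, hfB, h1, map_mul, map_ofNat] at e4
      rw [e4, mul_left_comm, hx]
    · rw [hβ, ← hk, map_sub, sub_eq_zero]
      have e4 := congrArg (fun y => f (β y)) hx
      simp only [map_mul, map_pow, map_ofNat, hβ, hbf, h2, MulMemClass.coe_mul, hv] at e4
      refine mul_left_cancel₀ (pow_ne_zero (N + 2) (two_ne_zero (α := ℂ_[2]))) (e4.trans ?_)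
      rw [show ((4 : OC) : ℂ_[2]) = 4 from rfl]
      ring
  · obtain ⟨_, ⟨y, rfl⟩, e0⟩ := e 0
    rw [pow_zero, one_mul] at e0
    rw [e0, sp y fun N => ?_, map_zero]
    obtain ⟨_, ⟨v, rfl⟩, e1⟩ := e N
    exact ⟨v, bp_inj (B := B) n2 (by rw [← e0, e1, map_mul, map_pow, map_ofNat])⟩
  · obtain ⟨M, y, hy⟩ := bp_sur (A := A) x
    filter_upwards [ct y (M + N) g₀] with g ⟨v, hv⟩
    refine ⟨_, ⟨v, rfl⟩, (b2.pow M).mul_left_cancel ?_⟩
    have e1 : ∀ g, 2 ^ M * gB g x = algebraMap A B (r g y) := fun g => by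
      rw [← hgB, ← hy, map_mul, map_pow, map_ofNat]
    change 2 ^ M * (gB g x - gB g₀ x) = _
    rw [mul_sub, e1, e1, ← map_sub, hv, map_mul, map_pow, map_ofNat, pow_add, mul_assoc]

end gen

end Pool.Agent.HF
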