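import Pool.Agent.Lib.MP_b4b3cb_nt.HF.AcB
import Pool.Agent.Lib.MP_b4b3cb_nt.HF.Bd
import Pool.Agent.Lib.MP_b4b3cb_nt.HF.PqG

/-! The period data over the dyadic field. -/

namespace Pool.Agent.HF

open NumberField Matrix WittVector Ideal Pool.Agent.SelTwo Module
open scoped TensorProduct Topology Nat Classical

section H6

theorem qp_zp (X : Type) [CommRing X] [Algebra Ai X] (h : IsUnit (2 : X)) (c : ℤ_[2]) :
    qp X h (c : ℚ_[2]) = algebraMap Ai X (zp c) :=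
  IsLocalization.lift_eq (M := nonZeroDivisors ℤ_[2]) (S := ℚ_[2]) _ c

theorem qC (c : ℤ_[2]) :
    algebraMap ℚ_[2] Bc c = algebraMap Ac Bc (((algebraMap Ai Ac).comp zp) c) :=
  (qp_zp Bc bc_two c).trans (IsScalarTower.algebraMap_apply Ai Ac Bc _)

theorem qB (c : ℤ_[2]) :
    algebraMap ℚ_[2] Bp c = algebraMap Ac Bp (((algebraMap Ai Ac).comp zp) c) :=
  (qp_zp Bp (q_two Bp) c).trans (IsScalarTower.algebraMap_apply Ai Ac Bp _)

theorem qD (c : ℤ_[2]) : algebraMap ℚ_[2] Bd c = algebraMap Ai Bd (zp c) := qp_zp Bd bd_two c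

theorem wmap_comp (u u' : Ti →+* Ti) (a : Ai) :
    WittVector.map (u.comp u') a = WittVector.map u (WittVector.map u' a) := by
  ext n
  simp only [map_coeff, RingHom.comp_apply]

theorem wmap_id (a : Ai) : WittVector.map (RingHom.id Ti) a = a := by
  ext n
  simp only [map_coeff, RingHom.id_apply]

theorem pv_eq6 : pv = xi * (xi - 2) := by
  unfold pv xi
  ring

theorem th_xi6 : th xi = 0 := th_ker.2 dvd_rfl

theorem lf_two {σ : RingAut ℂ_[2]} {u : Ti →+* Ti} (h : Lf σ u) :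
    2 ∣ th (WittVector.map u xi) := by
  have e : th (WittVector.map u xi) = 0 := Subtype.ext (by
    rw [h.th, th_xi6, ZeroMemClass.coe_zero, map_zero])
  rw [e]
  exact dvd_zero _

theorem fr_two : 2 ∣ th (WittVector.map fr xi) := by
  have e : WittVector.map fr xi = 2 + xi * (xi - 2) := by
    unfold xi
    rw [map_add, map_one, map_teichmuller, frobenius_def, map_pow]
    ring
  rw [e, map_add, map_mul, th_xi6, zero_mul, add_zero, map_ofNat]

theorem ov_uniq {u : Ti →+* Ti} {r r' : Ac →+* Ac} (a : Ov u r) (b : Ov u r') : r = r' :=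
  ac_uniq r r' ac2_nzd ac2_cpl.1 fun x => (a x).trans (b x).symm

theorem Ov.comp {X : Type} [CommRing X] [Algebra Ai X] {u u' : Ti →+* Ti} {r r' : X →+* X}
    (a : Ov u r) (b : Ov u' r') : Ov (u.comp u') (r.comp r') := fun x => by
  rw [RingHom.comp_apply, b, a, wmap_comp]

theorem Ov.zp {X : Type} [CommRing X] [Algebra Ai X] {u : Ti →+* Ti} {r : X →+* X}
    (a : Ov u r) (c : ℤ_[2]) :
    r (((algebraMap Ai X).comp zp) c) = ((algebraMap Ai X).comp zp) c := by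
  rw [RingHom.comp_apply, a, map_zp]

theorem pv_w {X : Type} [CommRing X] [Algebra Ai X] {t : X} {U : Xˣ}
    (hU : 2 * t = algebraMap Ai X pv * U) :
    algebraMap Ai X (2 * (teichmuller 2 eta ^ 2 - 1)) * U = 2 ^ 2 * t := by
  rw [map_mul, map_ofNat, mul_assoc]
  change 2 * (algebraMap Ai X pv * U) = _
  rw [← hU]
  ring

theorem bd_t {A D : Type} [CommRing A] [Algebra Ai A] [CommRing D] [Algebra Ai D]
    (h2 : IsUnit (2 : D)) {β : A →+* D} (hβ : ∀ a, β (algebraMap Ai A a) = algebraMap Ai D a)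
    {f : D →+* ℂ_[2]} (hf : ∀ a, f (algebraMap Ai D a) = th a) (hu : ∀ y, f y ≠ 0 → IsUnit y)
    {t : A} {U : Aˣ} (hU : 2 * t = algebraMap Ai A pv * U) :
    ∃ V : Dˣ, β t = algebraMap Ai D xi * V := by
  have h1 : IsUnit (algebraMap Ai D (xi - 2)) := hu _ (by
    rw [hf, map_sub, th_xi6, map_ofNat, zero_sub]
    intro e
    have : ‖(2 : ℂ_[2])‖ = 0 := by
      rw [← norm_neg, norm_eq_zero]
      exact e
    rw [oc_two] at this
    norm_num at this)
  obtain ⟨v, hv⟩ := h2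
  obtain ⟨w, hw⟩ := h1.mul (U.isUnit.map β)
  refine ⟨w * v⁻¹, ?_⟩
  have e := congrArg β hU
  rw [map_mul, map_mul, hβ, pv_eq6, map_mul, map_ofNat, mul_assoc] at e
  rw [Units.val_mul, ← mul_assoc, hw, ← e, ← hv, mul_comm (v : D), Units.mul_inv_cancel_right]

variable {σ : RingAut ℂ_[2]} {u u' : Ti →+* Ti}

theorem ex_c (h : Lf σ u) : ∃ s : Bc →ₐ[ℚ_[2]] Bc, Ex Ac u s := by
  refine Classical.byContradiction fun H => ?_
  obtain ⟨r, -, hr, -⟩ := exOvC (lf_two h)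
  obtain ⟨t, ⟨U, hU⟩, -, ht⟩ := exT
  have h1 := ht σ u r h hr
  have h2 := liftC (C := Bc) (algebraMap Ai Ac (2 * (teichmuller 2 eta ^ 2 - 1))) qC hr.zp
    (pv_w hU) h1
  have h3 := (((cyclotomicCharacter ℂ_[2] 2 σ).isUnit.map zp).map (algebraMap Ai Ac)).map
    (algebraMap Ac Bc)
  obtain ⟨s, hs⟩ := h2 h3
  exact H ⟨s, r, hr, hs⟩

theorem exC_uniq {s s' : Bc →ₐ[ℚ_[2]] Bc} (a : Ex Ac u s) (b : Ex Ac u s') : s = s' := by
  obtain ⟨r, h1, h2⟩ := a
  obtain ⟨r', h3, h4⟩ := b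
  obtain rfl : r = r' := ov_uniq h1 h3
  exact aw_ext (algebraMap Ai Ac (2 * (teichmuller 2 eta ^ 2 - 1))) fun x =>
    (h2 x).trans (h4 x).symm

theorem ex_comp {X : Type} [CommRing X] [Algebra Ai X] {Y : Type} [CommRing Y] [Algebra X Y]
    [Algebra ℚ_[2] Y] {s s' : Y →ₐ[ℚ_[2]] Y} (a : Ex X u s) (b : Ex X u' s') :
    Ex X (u.comp u') (s.comp s') := by
  obtain ⟨r, h1, h2⟩ := a
  obtain ⟨r', h3, h4⟩ := b
  exact ⟨r.comp r', Ov.comp h1 h3, fun x => by rw [AlgHom.comp_apply, h4, h2, RingHom.comp_apply]⟩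

theorem exC_comp {s s' : Bc →ₐ[ℚ_[2]] Bc} (a : Ex Ac u s) (b : Ex Ac u' s') :
    Ex Ac (u.comp u') (s.comp s') := ex_comp a b

theorem exD_uniq (h : Lf σ u) {s s' : Bd →ₐ[ℚ_[2]] Bd} (a : Ex Ai u s) (b : Ex Ai u s') :
    s = s' := by
  obtain ⟨r, h1, h2⟩ := a
  obtain ⟨r', h3, h4⟩ := b
  refine AlgHom.coe_ringHom_injective (ovD_uniq h (fun x => ?_) fun x => ?_)
  · exact (h2 x).trans (congrArg _ (h1 x))
  · exact (h4 x).trans (congrArg _ (h3 x))

theorem exPD {G : Type} [Group G] [TopologicalSpace G] (a : G →* RingAut ℂ_[2])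
    (iso : ∀ g x, ‖a g x‖ = ‖x‖) (hc : ∀ y, Continuous fun g => a g y) (χ : G →* ℚ_[2])
    (hχ : ∀ g, χ g = (cyclotomicCharacter ℂ_[2] 2 (a g) : ℤ_[2])) : ∃ X : PD G ℚ_[2] χ Bp Bd Bc,
    (∀ g u, Lf (a g) u → Ex Ac u (X.gC g) ∧ Ex Ai u (X.gD g)) ∧ Ex Ac fr X.fC := by
  refine Classical.byContradiction fun H => ?_
  choose u hu using fun g => exLf (a g) (iso g)
  choose r r₀ hr _ using fun g => exOvC (lf_two (hu g))
  choose s hs using fun g => exOvD (hu g)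
  obtain ⟨ph, -, hph, -⟩ := exOvC fr_two
  obtain ⟨t, ⟨U, hU⟩, hpt, ht⟩ := exT
  have hpt := hpt ph hph
  obtain ⟨b, hb, hbs, hbf⟩ := exBe
  obtain ⟨f, hf, hk, hfu⟩ := exTd
  obtain ⟨f', hf'⟩ := exTc
  obtain ⟨V, hV⟩ := bd_t bd_two hb hf hfu hU
  have r1 : r 1 = RingHom.id Ac := ov_uniq (hr 1) fun x => by
    rw [(hu 1).uniq (by rw [map_one]; exact lf_one), wmap_id, RingHom.id_apply]
  have rm : ∀ g h, r (g * h) = (r g).comp (r h) := fun g h => by
    refine ov_uniq (hr _) ?_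
    rw [(hu (g * h)).uniq (by rw [map_mul]; exact (hu g).comp (hu h))]
    exact (hr g).comp (hr h)
  have pr : ∀ g, ph.comp (r g) = (r g).comp ph := fun g => by
    refine ov_uniq (hph.comp (hr g)) ?_
    rw [show fr.comp (u g) = (u g).comp fr from RingHom.ext fun x => by
      simp only [RingHom.comp_apply, frobenius_def, map_pow]]
    exact (hr g).comp hph
  have e1 : ∀ c : ℤ_[2], b (((algebraMap Ai Ac).comp zp) c) = algebraMap ℚ_[2] Bd c :=
    fun c => (hb _).trans (qD c).symm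
  have e2 : ∀ g (c : ℤ_[2]), s g (algebraMap ℚ_[2] Bd c) = algebraMap ℚ_[2] Bd c := fun g c =>
    (congrArg (s g) (qD c)).trans (((hs g).zp c).trans (qD c).symm)
  have e3 : ∀ g x, b (r g x) = toA (s g) (e2 g) (b x) := fun g =>
    hbs _ _ _ _ (hu g) (hr g) (hs g)
  have e4 : ∀ y, f y = 0 ↔ b t ∣ y := fun y => by
    rw [hV, Units.mul_right_dvd]
    exact hk y
  have e5 : ∀ y, b t * y = 0 → y = 0 := fun y e => by
    rw [hV, mul_assoc] at e
    exact (Units.mul_right_eq_zero V).1 (bd_nzd _ e)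
  have e6 : ∀ g, r g t = ((algebraMap Ai Ac).comp zp) (cyclotomicCharacter ℂ_[2] 2 (a g)) * t :=
    fun g => ht _ _ _ (hu g) (hr g)
  have e7 := mkPD (B := Bp) (C := Bc) (D := Bd)
    (algebraMap Ai Ac (2 * (teichmuller 2 eta ^ 2 - 1))) χ
    (fun g => cyclotomicCharacter ℂ_[2] 2 (a g)) hχ qB qC ac2_nzd ac2_cpl.1 r ph
    (fun g => (hr g).zp) hph.zp r1 rm pr (pv_w hU) e6 hpt b e1 (fun g => toA (s g) (e2 g)) e3 f e4 e5
    f' (hbf f f' hf hf')
  obtain ⟨X, h1, h2, h3⟩ := e7 (fun _ => c_k0 hph) (fun _ _ => c_k1 hph hf' hU hpt) (c_s1 hph hf')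
    (c_ct hu hc hr)
  have e8 : ∀ g x, X.gD g (algebraMap Ai Bd x) = algebraMap Ai Bd (WittVector.map (u g) x) :=
    fun g x => (DFunLike.congr_fun (congrFun h1 g) _).trans (hs g x)
  exact H ⟨X, fun g v hv => hv.uniq (hu g) ▸
    ⟨⟨r g, hr g, h2 g⟩, WittVector.map (u g), fun _ => rfl, e8 g⟩, ph, hph, h3⟩

end H6

end Pool.Agent.HF
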