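import Pool.Agent.Lib.MP_b4b3cb_nt.HF.Emb
import Pool.Agent.Lib.MP_b4b3cb_nt.HF.Pq

/-! The crystalline condition does not depend on the embedding above a given prime. -/

namespace Pool.Agent.HF

open NumberField Matrix Pool.Agent.SelTwo

variable {L : Type} [Field L] [NumberField L] (j j' : AlgebraicClosure L →+* ℂ_[2])
  {E : Type} [NontriviallyNormedField E] [NormedAlgebra ℚ_[2] E] {n : ℕ}
  {ρ : Gal L →* Matrix (Fin n) (Fin n) E} {x : Gal L → Fin n → E}

theorem cris_tr (hx : Coc ρ ⊤ x) (γ : Gal L)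
    (h : pj j = pj (j'.comp (γ : AlgebraicClosure L →+* AlgebraicClosure L))) (c : Cris j ρ x) :
    Cris j' ρ x :=
  cris_of j j' exLf (fun _ _ _ a b => a.uniq b) (fun _ _ a => ex_c a)
    (fun _ _ _ a b => exC_uniq a b) hx γ h c

end Pool.Agent.HF
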