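import Pool.Agent.Lib.MP_b4b3cb_nt.HF.Dim
import Pool.Agent.Lib.MP_b4b3cb_nt.HF.Tr
import Pool.Agent.Lib.MP_b4b3cb_nt.HF.Ten
import Pool.Agent.Lib.MP_b4b3cb_nt.HF.Lin

/-! The parity of the Selmer group of Bloch and Kato. -/

namespace Pool.Agent.HF

open scoped Classical Pointwise TensorProduct
open Module NumberField Pool.Agent.Stark Matrix IsDedekindDomain Finset
open Pool.Agent.SP hiding VD exVD autoR oddK locRam locIn
open SC hiding Hm Rp V T Two Cob Sel Spl cup dq Cz Sz res Dec Ine cyc gs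
open SelTwo hiding Int

section

variable {G : Type} [Group G] [TopologicalSpace G] [IsTopologicalGroup G] {E : Type}
  [NontriviallyNormedField E] [NormedAlgebra ℚ_[2] E] {χ : G →* E} {B D C : Type} [CommRing B]
  [Algebra E B] [CommRing D] [Algebra E D] [CommRing C] [Algebra E C] (X : PD G E χ B D C) {n : ℕ}
  {ρ ρ' : G →* Matrix (Fin n) (Fin n) E} {M : Matrix (Fin n) (Fin n) E} {h : Fin n → ℤ}

/-- The duality of Bloch and Kato. -/
theorem PD.bk (cχ : Continuous χ) (hρ : Continuous ρ) (hρ' : Continuous ρ') (nf : X.Nf ρ)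
    (nf' : X.Nf ρ') (dr : X.Dr ρ h) (hM : IsUnit M) (pr : ∀ g, (ρ g)ᵀ * M * ρ' g = χ g • M)
    (le : ∀ W W' : Submodule E (G → Fin n → E), (∀ x ∈ W, Coc ρ ⊤ x) → (∀ x ∈ W', Coc ρ' ⊤ x) →
      (∀ x, Cob ρ' ⊤ x → x ∈ W') → (∀ x ∈ W, ∀ y ∈ W', Orth χ ρ' M x y) →
      FiniteDimensional E W ∧ FiniteDimensional E W' ∧ finrank E W + finrank E W' ≤ 3 * n) :
    ∃ W : Submodule E (G → Fin n → E), (∀ x, x ∈ W ↔ x ∈ X.Hc ρ) ∧ (∀ x, Cob ρ ⊤ x → x ∈ W) ∧
      FiniteDimensional E W ∧ finrank E W = n + #{i | 0 < h i} ∧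
      ∀ y, Coc ρ' ⊤ y → (y ∈ X.Hc ρ' ↔ ∀ x ∈ W, Orth χ ρ' M x y) := by
  obtain ⟨W, a1, a2, a3, a4⟩ := X.exp cχ hρ nf dr pr
  obtain ⟨W', b1, b2, b3, b4⟩ := X.exp (M := Mᵀ) (ρ' := ρ) cχ hρ' nf' (X.dr_dual hM pr dr)
    fun g => by rw [← transpose_smul, ← pr, transpose_mul, transpose_mul, transpose_transpose,
      Matrix.mul_assoc]
  obtain ⟨H, hH⟩ := X.hc_sub (ρ := ρ)
  have mH : ∀ x, x ∈ H ↔ x ∈ X.Hc ρ := fun x => by rw [← hH]; rfl
  let P : Submodule E (G → Fin n → E) :=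
    { carrier := {y | Coc ρ' ⊤ y ∧ ∀ x ∈ W, Orth χ ρ' M x y}
      zero_mem' := ⟨⟨continuousOn_const, by simp⟩, fun x _ => ⟨0, continuous_zero, by simp⟩⟩
      add_mem' := fun {y y'} p q => ⟨⟨p.1.1.add q.1.1, fun g _ l _ => by
          simp only [Pi.add_apply, p.1.2 g trivial l trivial, q.1.2 g trivial l trivial, mulVec_add]
          abel⟩, fun x hx => by
        obtain ⟨f, f1, f2⟩ := p.2 x hx
        obtain ⟨f', f3, f4⟩ := q.2 x hx
        exact ⟨f + f', f1.add f3, fun g l => by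
          simp only [Pi.add_apply, mulVec_add, dotProduct_add, f2, f4]
          ring⟩⟩
      smul_mem' := fun r y p => ⟨⟨p.1.1.const_smul r, fun g _ l _ => by
          simp only [Pi.smul_apply, p.1.2 g trivial l trivial, mulVec_smul, smul_add]⟩,
        fun x hx => by
        obtain ⟨f, f1, f2⟩ := p.2 x hx
        exact ⟨r • f, f1.const_smul r, fun g l => by
          simp only [Pi.smul_apply, mulVec_smul, dotProduct_smul, f2, smul_eq_mul]
          ring⟩⟩ }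
  have l1 : W' ≤ P := fun y hy => ⟨(b1 y hy).1, fun x hx => a4 x hx y (b1 y hy)⟩
  obtain ⟨f1, f2, c1⟩ := le W P (fun x hx => (a1 x hx).1) (fun y hy => hy.1)
    (fun y hy => l1 (b2 y hy)) fun x hx y hy => hy.2 x hx
  obtain ⟨f3, -, c2⟩ := le H W' (fun x hx => ((mH x).1 hx).1) (fun y hy => (b1 y hy).1) b2
    fun x hx y hy => (b4 y hy x ((mH x).1 hx)).swap pr ((mH x).1 hx).1 (b1 y hy).1
  have c3 := card_filter_add_card_filter_not (s := univ) fun i => 0 < h i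
  rw [card_univ, Fintype.card_fin,
    filter_congr (p := fun i => ¬0 < h i) (q := fun i => 0 < 1 - h i) fun i _ => by omega] at c3
  have e1 := Submodule.eq_of_le_of_finrank_le (show W ≤ H from fun x hx => (mH x).2 (a1 x hx))
    (by omega)
  have e2 := Submodule.eq_of_le_of_finrank_le l1 (by omega)
  exact ⟨W, e1 ▸ mH, a2, f1, a3, fun y hy =>
    ⟨fun p x hx => a4 x hx y p, fun p => b1 y (e2.ge ⟨hy, p⟩)⟩⟩

end

variable {E : Type} [NontriviallyNormedField E] [NormedAlgebra ℚ_[2] E] [FiniteDimensional ℚ_[2] E]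
  {n : ℕ} {L : Type} [Field L] [NumberField L] (j : AlgebraicClosure L →+* ℂ_[2])

omit [FiniteDimensional ℚ_[2] E] in
theorem act_one {Y : Type} [CommRing Y] [Algebra ℚ_[2] Y] (s : Y →ₐ[ℚ_[2]] Y)
    (z : Fin n → E ⊗[ℚ_[2]] Y) :
    act 1 s z = fun i => Algebra.TensorProduct.map (AlgHom.id E E) s (z i) := by
  rw [act, Matrix.map_one _ (map_zero _) (map_one _), one_mulVec]

theorem exG {G U B D C : Type} [Group G] [TopologicalSpace G] (H : Subgroup G) [CommRing B]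
    [Algebra ℚ_[2] B] [CommRing D] [Algebra ℚ_[2] D] [CommRing C] [Algebra ℚ_[2] C]
    {W : G → U → Prop} {p : U → (C →ₐ[ℚ_[2]] C) → Prop} {q : U → (D →ₐ[ℚ_[2]] D) → Prop} {φ : U}
    {χ₀ : H →* ℚ_[2]} (X₀ : PD H ℚ_[2] χ₀ B D C) (c : G → E) (χ : H →* E) (hc : ∀ g, χ g = c g)
    (hχ : ∀ g, χ g = algebraMap _ E (χ₀ g))
    (ex : ∀ g : H, ∃ u, W g u ∧ p u (X₀.gC g) ∧ q u (X₀.gD g))
    (un : ∀ g u s, W g u → p u s → ∃ h : g ∈ H, s = X₀.gC ⟨g, h⟩) (uf : ∀ s, p φ s → s = X₀.fC) :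
    ∃ X : PD H E χ (E ⊗[ℚ_[2]] B) (E ⊗[ℚ_[2]] D) (E ⊗[ℚ_[2]] C),
    ∀ {n : ℕ} (ρ : G →* Matrix (Fin n) (Fin n) E),
      (∀ x, (Coc ρ H x ∧ ∃ z : Fin n → E ⊗[ℚ_[2]] C, ∀ g u s, W g u → p u s →
        act (ρ g) s z - z = fun i => algebraMap E _ (x g i)) ↔
        (fun g : H => x g) ∈ X.Hc (ρ.comp H.subtype)) ∧
      ((∀ z : Fin n → E ⊗[ℚ_[2]] C, (∀ g u s, W g u → p u s → act (ρ g) s z = z) →
        (∀ s, p φ s → act 1 s z = z) → z = 0) → X.Nf (ρ.comp H.subtype)) ∧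
      ∀ h : Fin n → ℤ, (∃ P : Matrix (Fin n) (Fin n) (E ⊗[ℚ_[2]] D), IsUnit P ∧ ∀ g u s, W g u →
        q u s → ∀ i, act (ρ g) s (P.col i) = c g ^ h i • P.col i) →
        X.Dr (ρ.comp H.subtype) h := by
  obtain ⟨X, c1, c2, c3⟩ := X₀.ten E χ hχ
  have tc : ∀ {n : ℕ} (M : Matrix (Fin n) (Fin n) E) g z, ac M (X.gC g) z = act M (X₀.gC g) z :=
    fun M g z => by rw [c1]; rfl
  have td : ∀ {n : ℕ} (M : Matrix (Fin n) (Fin n) E) g z, ac M (X.gD g) z = act M (X₀.gD g) z :=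
    fun M g z => by rw [c2]; rfl
  refine ⟨X, fun ρ => ⟨fun x => and_congr
      ⟨fun p => ⟨(continuousOn_iff_continuous_domRestrict.1 p.1).continuousOn,
        fun g _ l _ => p.2 g g.2 l l.2⟩, fun p => ⟨continuousOn_iff_continuous_domRestrict.2
        (continuousOn_univ.1 p.1), fun g hg l hl => p.2 ⟨g, hg⟩ trivial ⟨l, hl⟩ trivial⟩⟩
      (exists_congr fun z => ⟨fun p g => ?_, fun p g u s q r => ?_⟩), fun p z q r => ?_,
      fun h p => ?_⟩⟩
  · obtain ⟨u, d1, d2, -⟩ := ex g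
    rw [tc]
    exact p g u _ d1 d2
  · obtain ⟨h, rfl⟩ := un _ _ _ q r
    rw [← tc]
    exact p ⟨g, h⟩
  · refine p z (fun g u s d1 d2 => ?_) fun s d => ?_
    · obtain ⟨h, rfl⟩ := un _ _ _ d1 d2
      rw [← tc]
      exact q ⟨g, h⟩
    · rw [c3] at r
      rw [uf s d, act_one]
      exact funext r
  · obtain ⟨P, p, q⟩ := p
    refine ⟨P, p, fun g i => ?_⟩
    obtain ⟨u, d1, -, d2⟩ := ex g
    rw [td, hc]
    exact q g u _ d1 d2 i

variable (E) in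
theorem exX : ∃ (χ : Dec (pj j) →* E) (X : PD (Dec (pj j)) E χ (E ⊗[ℚ_[2]] Bp) (E ⊗[ℚ_[2]] Bd)
    (E ⊗[ℚ_[2]] Bc)), Continuous χ ∧ (∀ g, χ g = cyc E g.1) ∧
    ∀ {n : ℕ} (ρ : Gal L →* Matrix (Fin n) (Fin n) E),
      (∀ x, Coc ρ (Dec (pj j)) x ∧ Cris j ρ x ↔
        (fun g : Dec (pj j) => x g) ∈ X.Hc (ρ.comp (Dec (pj j)).subtype)) ∧
      (NoFix j ρ → X.Nf (ρ.comp (Dec (pj j)).subtype)) ∧
      ∀ h, DeRham j ρ h → X.Dr (ρ.comp (Dec (pj j)).subtype) h :=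
  (exA j).elim fun a ⟨a1, a2, _, a4, a5⟩ => (exPD a a1 a2 ((cycE ℚ_[2] L
    (AlgebraicClosure L)).comp (Dec (pj j)).subtype) fun g => by rw [a4]; rfl).elim fun X₀ b =>
  (exG (Dec (pj j)) (W := Gw j) (p := Ex Ac) (q := Ex Ai) (φ := fr) X₀ (cyc E)
    ((cycE E L (AlgebraicClosure L)).comp (Dec (pj j)).subtype) (fun _ => rfl) (fun _ => rfl)
    (fun g => (exLf _ (a1 g)).imp fun u hu => ⟨(a5 _ _).2 ⟨g.2, hu⟩, b.1 g u hu⟩)
    (fun _ _ _ p q => ((a5 _ _).1 p).imp fun _ hu => exC_uniq q (b.1 _ _ hu).1)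
    fun _ d => exC_uniq d b.2).elim fun X h => ⟨_, X, ((continuous_algebraMap ℚ_[2] E).comp
      (Continuous.comp (g := fun x : ℤ_[2] => (x : ℚ_[2])) continuous_subtype_val
      ((Units.continuous_val (M := ℤ_[2])).comp (cyclotomicCharacter.continuous 2 L _)))).comp
      continuous_subtype_val, fun _ => rfl, h⟩

omit [NumberField L] in
theorem gw_cj {c : AlgebraicClosure L →+* AlgebraicClosure L} (cc : ∀ x, c (c x) = x)
    {g g' : Gal L} (e : ∀ x, g' (c x) = c (g x)) {u : Ti →+* Ti} :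
    Gw (j.comp c) g u ↔ Gw j g' u :=
  exists_congr fun σ => and_congr_right fun _ => and_congr_left fun _ =>
    ⟨fun p x => by rw [← cc x, e]; exact p _, fun p x => (p (c x)).trans (by rw [e]; rfl)⟩

omit [NumberField L] [FiniteDimensional ℚ_[2] E] in
theorem cris_cj {c : AlgebraicClosure L →+* AlgebraicClosure L} (cc : ∀ x, c (c x) = x)
    {κ : Gal L →* Gal L} (e : ∀ g x, κ g (c x) = c (g x)) (ρ : Gal L →* Matrix (Fin n) (Fin n) E) :
    (∀ x, Cris j (ρ.comp κ) (x ∘ κ) ↔ Cris (j.comp c) ρ x) ∧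
      (NoFix (j.comp c) ρ → NoFix j (ρ.comp κ)) := by
  have kk : ∀ g x, g (c x) = c (κ g x) := fun g x => by rw [← cc (g _), ← e, cc]
  have k6 : ∀ g, κ (κ g) = g := fun g => AlgEquiv.ext fun x => by rw [← cc x, e, ← kk]
  have aux : ∀ P : Gal L → (Ti →+* Ti) → Prop, (∀ g u, Gw j g u → P (κ g) u) ↔
      ∀ g u, Gw (j.comp c) g u → P g u := fun P =>
    ⟨fun p g u d => k6 g ▸ p _ u ((gw_cj j cc (e g)).1 d),
      fun p g u d => p _ u ((gw_cj j cc (kk g)).2 d)⟩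
  have sw : ∀ {A : Type} {W W' : Gal L → (Ti →+* Ti) → Prop} {R : (Ti →+* Ti) → A → Prop}
      (P P' : Gal L → A → Prop), ((∀ g u, W g u → ∀ s, R u s → P g s) ↔
        ∀ g u, W' g u → ∀ s, R u s → P' g s) →
      ((∀ g u s, W g u → R u s → P g s) ↔ ∀ g u s, W' g u → R u s → P' g s) := fun P P' h =>
    ⟨fun p g u s d => h.1 (fun g u d s => p g u s d) g u d s,
      fun p g u s d => h.2 (fun g u d s => p g u s d) g u d s⟩
  exact ⟨fun x => exists_congr fun z => sw _ _ (aux fun g u => ∀ s, Ex Ac u s →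
      act (ρ g) s z - z = fun i => algebraMap E _ (x g i)),
    fun h z p => h z ((sw _ _ (aux fun g u => ∀ s, Ex Ac u s → act (ρ g) s z = z)).1 p)⟩

theorem main6 (L : Type) [Field L] [NumberField L] [IsCMField L] (hL : finrank ℚ L = 2) (E : Type)
    [NontriviallyNormedField E] [NormedAlgebra ℚ_[2] E] [FiniteDimensional ℚ_[2] E] (n : ℕ)
    (ρ : Gal L →* Matrix (Fin n) (Fin n) E) (cj : Gal L → Gal L)
    (hcj : IsCj cj) (B : Matrix (Fin n) (Fin n) E) (hB : PolS ρ (cyc E) cj B)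
    (inv : ∀ 𝔓 : Idl L, 𝔓.IsMaximal → fdim (ρ '' Dec 𝔓) = 0)
    (sp : ∀ 𝔓 : Idl L, 𝔓.IsMaximal → 2 ∈ 𝔓 → ¬Nonsplit 𝔓) (nf : ∀ j, NoFix j ρ)
    (j : AlgebraicClosure L →+* ℂ_[2]) (h : Fin n → ℤ) (dr : DeRham j ρ h)
    (Q : HeightOneSpectrum (𝓞 L) → Idl L) (hQ : ∀ w, (Q w).IsMaximal ∧ (Q w).under _ = w.asIdeal)
    (hF : {w | ∃ g ∈ Ine (Q w), ρ g ≠ 1}.Finite) (T : Finset (HeightOneSpectrum (𝓞 L)))
    (hU : ∀ w ∉ T, Nonsplit (Q w) → ∀ g ∈ Ine (Q w), ρ g = 1)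
    (ϖ : HeightOneSpectrum (𝓞 (maximalRealSubfield L)) → L)
    (Ψ : HeightOneSpectrum (𝓞 L) → AddChar (𝓞 L) E) (hT : Ok T ϖ Ψ)
    (e : _ → E) (he : ∀ w ∈ T, Eps ρ (Q w) (ϖ (w.under _)) (Ψ w) (e w)) :
    (Submodule.span E (Hf ρ)).FG ∧
      (-1) ^ (h1 ρ ⊤ (Hf ρ) + #{i | 0 < h i}) = ∏ w ∈ T, e w := by
  obtain ⟨m1, m2⟩ := pj_max j
  obtain ⟨hK, κ, c, k1, k2, cc, k3, k4, k5⟩ := BC.dim3 L hL E n ρ cj hcj B hB _ m1 m2 (sp _ m1 m2)
  obtain ⟨χ, X, x1, x2, x3⟩ := exX E j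
  have hρ := hB.1
  obtain ⟨W, a1, a2, a3, a4, a5⟩ := X.bk (M := B) x1 (hρ.comp continuous_subtype_val)
    ((hρ.comp k1).comp continuous_subtype_val) ((x3 ρ).2.1 (nf j))
    ((x3 (ρ.comp κ)).2.1 ((cris_cj j cc k3 ρ).2 (nf _))) ((x3 ρ).2.2 h dr)
    ((isUnit_iff_isUnit_det _).2 (norm_ne_zero_iff.1 (hB.2.2.2.2.1 ▸ one_ne_zero)).isUnit)
    (fun g => by rw [x2, ← hB.2.2.2.2.2.1, ← k2]; rfl) fun W W' => k5 χ W W' x2
  let Y := W.comap (LinearMap.funLeft E _ (Subtype.val : Dec (pj j) → _))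
  have mY : ∀ x, x ∈ Y ↔ Coc ρ (Dec (pj j)) x ∧ Cris j ρ x := fun x =>
    (a1 _).trans ((x3 ρ).1 x).symm
  have sY : Y.map (LinearMap.funLeft E _ (Subtype.val : Dec (pj j) → _)) = W :=
    Submodule.map_comap_eq_of_surjective
      (LinearMap.funLeft_surjective_of_injective _ _ _ Subtype.val_injective) _
  have cY : Cond ρ (Dec (pj j)) Y := fun x =>
    ⟨fun ⟨u, p⟩ => a2 _ ⟨u, fun g _ => p g g.2⟩, fun p => ((mY x).1 p).1⟩
  have dY : h1 ρ (Dec (pj j)) Y = #{i | 0 < h i} := by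
    have : FiniteDimensional E (Y.map (LinearMap.funLeft E _ Subtype.val)) := sY.symm ▸ a3
    have r := qd _ (cond_le hρ cY).1 rfl (b := {x | SelTwo.Cob ρ (Dec (pj j)) x})
      (Set.ext fun x => cob_iff hρ)
    rw [((rpM ρ hρ).res (Dec (pj j))).rank_B1 fun a ha => (Submodule.finrank_eq_zero.1
      ((fdim_inv hρ).symm.trans (inv _ m1))).le ha, sY, a4, finrank_fin_fun, add_comm] at r
    exact (add_right_cancel r).symm
  have F := facts L (AlgebraicClosure L)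
  obtain ⟨w, hw⟩ := F.pr.under L _ m1
  have w2 : 2 ∈ w.asIdeal := by rw [hw.2, map_ofNat]; exact m2
  have v2 : 2 ∈ (w.under (𝓞 (maximalRealSubfield L))).asIdeal := by
    change algebraMap _ (𝓞 L) 2 ∈ w.asIdeal
    rwa [map_ofNat]
  have : ∀ v : HeightOneSpectrum (𝓞 (maximalRealSubfield L)), ∃ w' : HeightOneSpectrum (𝓞 L),
      w'.under _ = v ∧ (2 ∈ v.asIdeal → w' = w) := fun v => by
    by_cases p : 2 ∈ v.asIdeal
    · exact ⟨w, BC.two_uniq hK v2 p, fun _ => rfl⟩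
    obtain ⟨I, i1, i2⟩ := Ideal.exists_ideal_over_maximal_of_isIntegral (S := 𝓞 L) v.asIdeal
      (((RingHom.injective_iff_ker_eq_bot _).1 (FaithfulSMul.algebraMap_injective _ _)).le.trans
        bot_le)
    exact ⟨⟨I, i1.isPrime, fun q => v.ne_bot (by
      rw [← i2, q]
      exact Ideal.comap_bot_of_injective (algebraMap (𝓞 (maximalRealSubfield L)) (𝓞 L))
        (FaithfulSMul.algebraMap_injective _ _))⟩,
      HeightOneSpectrum.ext i2, fun q => (p q).elim⟩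
  choose s s1 s2 using this
  have q1 : Function.update Q w (pj j) w = pj j := Function.update_self ..
  have q2 : ∀ w' ≠ w, Function.update Q w (pj j) w' = Q w' := fun w' p => Function.update_of_ne p ..
  have hQ' : ∀ w', (Function.update Q w (pj j) w').IsMaximal ∧
      (Function.update Q w (pj j) w').under _ = w'.asIdeal := fun w' => by
    by_cases p : w' = w
    · rw [p, q1]
      exact ⟨m1, Ideal.ext fun x => (hw.2 x).symm⟩
    · rw [q2 _ p]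
      exact hQ _
  have mn := BC.main5 L E n ρ cj hcj B hB inv _ hQ' s s1 {w.under _}
    (fun v => mem_singleton.trans ⟨fun p => p ▸ v2, fun p => BC.two_uniq hK p v2⟩) (fun _ => Y)
    (fun v hv => by
      rw [mem_singleton.1 hv, s2 _ v2, q1]
      exact ⟨sp _ m1 m2, cY⟩)
    ((hF.insert w).subset fun w' p => (em (w' = w)).imp_right fun q => by
      change ∃ g ∈ Ine (Function.update Q w (pj j) w'), _ at p
      rwa [q2 _ q] at p) T (fun w' p q => by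
      by_cases r : w' = w
      · rw [r, q1] at q
        exact (sp _ m1 m2 q).elim
      · rw [q2 _ r] at q ⊢
        exact hU _ p q) ϖ Ψ hT e fun w' p => by
      rw [q2 w' fun r => (hT _ p).1.1 (r ▸ w2)]
      exact he _ p
  rw [sum_singleton, s2 _ v2, q1, dY] at mn
  suffices Sel ρ cj B (fun v => Function.update Q w (pj j) (s v)) (fun _ => Y) = Hf ρ from
    this ▸ mn
  ext x
  refine and_congr_right fun hx => and_congr_right fun _ => ?_
  have c1 : Coc ρ (Dec (pj j)) x := ⟨hx.1.mono (Set.subset_univ _), fun g _ l _ =>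
    hx.2 g trivial l trivial⟩
  have c2 : Coc (ρ.comp κ) (Dec (pj j)) (x ∘ κ) :=
    ⟨((continuousOn_univ.1 hx.1).comp k1).continuousOn, fun g _ l _ => by
      rw [Function.comp, map_mul]
      exact hx.2 _ trivial _ trivial⟩
  have du : Dual ρ (cyc E) cj B (Dec (pj j)) Y x ↔ Cris j ρ x ∧ Cris (j.comp c) ρ x := by
    refine and_congr ((mY x).trans (and_iff_right c1)) (Iff.trans ?_ (Iff.trans (a5 _
      ⟨(continuousOn_iff_continuous_domRestrict.1 c2.1).continuousOn, fun g _ l _ =>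
        c2.2 g g.2 l l.2⟩).symm (((x3 (ρ.comp κ)).1 (x ∘ κ)).symm.trans ((and_iff_right c2).trans
        ((cris_cj j cc k3 ρ).1 x)))))
    rw [← sY]
    refine ⟨?_, fun p y hy => ?_⟩
    · rintro p _ ⟨y, hy, rfl⟩
      obtain ⟨f, f1, f2⟩ := p y hy
      refine ⟨fun g => f g, continuousOn_iff_continuous_domRestrict.1 f1, fun g l => ?_⟩
      have := f2 g g.2 l l.2
      rw [← k2, ← k2, ← x2] at this
      exact this
    · obtain ⟨f, f1, f2⟩ := p _ ⟨y, hy, rfl⟩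
      obtain ⟨f, rfl⟩ := ext1 f
      refine ⟨f, continuousOn_iff_continuous_domRestrict.2 f1, fun g hg l hl => ?_⟩
      rw [← k2, ← k2, ← x2 ⟨g, hg⟩]
      exact f2 ⟨g, hg⟩ ⟨l, hl⟩
  constructor
  · intro p j'
    have := p (w.under _) (by beta_reduce; rw [s2 _ v2, q1]; exact m2)
    beta_reduce at this
    rw [s2 _ v2, q1, du] at this
    obtain ⟨γ, r | r⟩ := k4 _ (pj_max j').1 (pj_max j').2
    · exact cris_tr j j' hx γ (Ideal.ext r) this.1
    · exact cris_tr _ j' hx γ (Ideal.ext fun y => r y (RingOfIntegers.mapRingHom c y) rfl) this.2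
  · intro p v hv
    have : 2 ∈ v.asIdeal := by
      rw [← s1 v]
      change algebraMap _ (𝓞 L) 2 ∈ (s v).asIdeal
      rw [map_ofNat, ← (hQ' _).2]
      rw [Ideal.under, Ideal.mem_comap]
      rwa [map_ofNat]
    beta_reduce
    rw [s2 _ this, q1, du]
    exact ⟨p _, p _⟩

end Pool.Agent.HF
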