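import Pool.Agent.Lib.MP_b4b3cb_nt.HF.Defs

/-! Embeddings of the algebraic numbers in the field of `2`-adic complex numbers. -/

namespace Pool.Agent.HF

open NumberField Matrix Ideal Pool.Agent.SelTwo Module Polynomial
open scoped TensorProduct Topology Classical Pointwise

namespace Emb

variable {L : Type} [Field L] (j j' : AlgebraicClosure L →+* ℂ_[2])

theorem mem {x : 𝓞 (AlgebraicClosure L)} : x ∈ pj j ↔ ‖j x‖ < 1 := Iff.rfl

theorem le1 (c : 𝓞 (AlgebraicClosure L)) : ‖j c‖ ≤ 1 := by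
  have : IsIntegral (PadicComplexInt 2) (j c) := (RingOfIntegers.isIntegral_coe c).map_of_comp_eq
    (Int.castRingHom _) j (RingHom.ext_int _ _)
  exact oc_mem.1 ((IsIntegrallyClosed.isIntegral_iff.1 this).elim fun y e => e ▸ y.2)

theorem two : (2 : 𝓞 (AlgebraicClosure L)) ∈ pj j := by
  rw [mem, RingOfIntegers.coe_eq_algebraMap, map_ofNat, map_ofNat, oc_two]
  norm_num

theorem one : (1 : 𝓞 (AlgebraicClosure L)) ∉ pj j := by
  rw [mem]; simp

theorem prime : (pj j).IsPrime := by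
  refine ⟨(Ideal.ne_top_iff_one _).2 (one j), fun {a b} h => ?_⟩
  rw [mem, RingOfIntegers.coe_eq_algebraMap, map_mul, map_mul, norm_mul] at h
  by_contra! hh
  have h1 : ‖j a‖ = 1 := le_antisymm (le1 j a) (not_lt.1 hh.1)
  have h2 : ‖j b‖ = 1 := le_antisymm (le1 j b) (not_lt.1 hh.2)
  rw [RingOfIntegers.coe_eq_algebraMap] at h1 h2
  rw [h1, h2] at h
  norm_num at h

theorem loc1 {x : AlgebraicClosure L} (hx : ‖j x‖ ≤ 1) (n : ℕ) :
    ∀ f : (𝓞 (AlgebraicClosure L))[X], f.natDegree ≤ n → aeval x f = 0 →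
      (∃ i, f.coeff i ∉ pj j) →
      ∃ a b : 𝓞 (AlgebraicClosure L), b ∉ pj j ∧ (b : AlgebraicClosure L) * x = a := by
  induction n with
  | zero =>
    rintro f hn h ⟨i, hi⟩
    rw [eq_C_of_natDegree_le_zero hn, aeval_C, map_eq_zero_iff _ RingOfIntegers.coe_injective] at h
    rw [eq_C_of_natDegree_le_zero hn, h, map_zero, coeff_zero] at hi
    exact absurd (pj j).zero_mem hi
  | succ n ih =>
    rintro f hn h ⟨i, hi⟩
    rcases hn.lt_or_eq with hn | hn
    · exact ih f (Nat.lt_succ_iff.1 hn) h ⟨i, hi⟩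
    have h1 : IsIntegral ℤ (f.leadingCoeff • x) :=
      isIntegral_trans _ (isIntegral_leadingCoeff_smul f x h)
    let a : 𝓞 (AlgebraicClosure L) := ⟨_, h1⟩
    have ha : (f.leadingCoeff : AlgebraicClosure L) * x = a := (Algebra.smul_def _ _).symm
    by_cases hc : f.leadingCoeff ∈ pj j
    swap
    · exact ⟨a, _, hc, ha⟩
    have haP : a ∈ pj j := by
      rw [mem, ← ha, map_mul, norm_mul]
      exact mul_lt_one_of_nonneg_of_lt_one_left (norm_nonneg _) hc hx
    refine ih (f.eraseLead + monomial n a) ((natDegree_add_le _ _).trans (max_le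
      (f.eraseLead_natDegree_le.trans (by omega)) (natDegree_monomial_le _))) ?_ ⟨i, fun hh => hi ?_⟩
    · rw [← h]
      conv_rhs => rw [← f.eraseLead_add_monomial_natDegree_leadingCoeff]
      rw [map_add, map_add, aeval_monomial, aeval_monomial, hn, pow_succ', ← mul_assoc]
      exact congrArg (fun t => _ + t * _) ha.symm
    · have hne : i ≠ f.natDegree := fun e => hi (e ▸ hc)
      rw [coeff_add, eraseLead_coeff_of_ne _ hne] at hh
      refine ((pj j).add_mem_iff_left ?_).1 hh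
      rw [coeff_monomial]
      split_ifs
      · exact haP
      · exact (pj j).zero_mem

variable [NumberField L]

theorem loc {x : AlgebraicClosure L} (hx : ‖j x‖ ≤ 1) :
    ∃ a b : 𝓞 (AlgebraicClosure L), b ∉ pj j ∧ (b : AlgebraicClosure L) * x = a := by
  have h0 : IsAlgebraic ℚ x :=
    (Algebra.IsAlgebraic.trans ℚ L (AlgebraicClosure L)).isAlgebraic x
  obtain ⟨f, hf, e⟩ := (IsFractionRing.isAlgebraic_iff ℤ ℚ (AlgebraicClosure L)).2 h0
  have e2 := aeval_primPart_eq_zero hf e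
  refine loc1 j hx _ (f.primPart.map (algebraMap ℤ _)) le_rfl (by rwa [aeval_map_algebraMap]) ?_
  by_contra! hh
  have : IsUnit (2 : ℤ) := f.isPrimitive_primPart 2 ((C_dvd_iff_dvd_coeff _ _).2 fun i => by
    by_contra h2
    obtain ⟨k, hk⟩ : Odd (f.primPart.coeff i) := Int.not_even_iff_odd.1 fun h => h2 h.two_dvd
    have := hh i
    rw [coeff_map, hk, map_add, map_mul, map_one, map_ofNat] at this
    exact one j (((pj j).add_mem_iff_right ((pj j).mul_mem_right _ (two j))).1 this))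
  norm_num [Int.isUnit_iff] at this

theorem lt1 (h : pj j = pj j') {x : AlgebraicClosure L} (hx : ‖j x‖ < 1) : ‖j' x‖ < 1 := by
  obtain ⟨a, b, hb, e⟩ := loc j hx.le
  have ha : a ∈ pj j := by
    rw [mem, ← e, map_mul, norm_mul]
    exact mul_lt_one_of_nonneg_of_lt_one_right (le1 j b) (norm_nonneg _) hx
  rw [h, mem] at ha hb
  rwa [← e, map_mul, norm_mul, le_antisymm (le1 j' b) (not_lt.1 hb), one_mul] at ha

theorem nrm (h : pj j = pj j') (x : AlgebraicClosure L) : ‖j x‖ = ‖j' x‖ := by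
  have : (place j).IsEquiv (place j') :=
    AbsoluteValue.isEquiv_iff_lt_one_iff.2 fun x => ⟨lt1 j j' h, lt1 j' j h.symm⟩
  obtain ⟨c, _, e⟩ := AbsoluteValue.isEquiv_iff_exists_rpow_eq.1 this
  have e2 := congrFun e 2
  simp only [place_apply, map_ofNat, oc_two] at e2
  have hc : c = 1 := by
    have := congrArg Real.log e2
    rw [Real.log_rpow (by norm_num)] at this
    have h3 : Real.log (2⁻¹ : ℝ) ≠ 0 := (Real.log_neg (by norm_num) (by norm_num)).ne
    exact mul_right_cancel₀ h3 (by rw [this, one_mul])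
  have e3 := congrFun e x
  simpa only [hc, Real.rpow_one, place_apply] using e3

theorem den : DenseRange j := by
  have h1 : Set.range ((↑) : PadicAlgCl 2 → ℂ_[2]) ⊆ closure (Set.range j) := by
    rintro _ ⟨α, rfl⟩
    refine Metric.mem_closure_iff.2 fun ε hε => ?_
    have hi : IsIntegral ℚ_[2] α := Algebra.IsIntegral.isIntegral α
    have hn := (minpoly.natDegree_pos hi).ne'
    have hM : 0 < max ‖(α : ℂ_[2])‖ 1 := lt_max_of_lt_right one_pos
    set M := max ‖(α : ℂ_[2])‖ 1 with hMd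
    set n := (minpoly ℚ_[2] α).natDegree with hnd
    have hδ : 0 < (ε / M) ^ n / (n + 1) := by positivity
    obtain ⟨g, hg, hd, hc⟩ := exists_monic_and_natDegree_eq_and_norm_map_algebraMap_coeff_sub_lt
      (K := ℚ) (Padic.denseRange_ratCast 2) (minpoly.monic hi) hδ
    obtain ⟨b, hb, e⟩ := exists_aroots_norm_sub_lt_of_norm_coeff_sub_lt (L := ℂ_[2]) hδ
      (a := (α : ℂ_[2])) (f := minpoly ℚ_[2] α) (g := g.map (algebraMap ℚ ℚ_[2]))
      (by rw [PadicComplex.coe_eq, aeval_algebraMap_apply, minpoly.aeval, map_zero])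
      (minpoly.monic hi) (hg.map _) (by rw [hg.natDegree_map, hd]) hc (IsAlgClosed.splits _)
    rw [← hnd, ← hMd, mul_div_cancel₀ _ (by positivity), Real.pow_rpow_inv_natCast (by positivity) hn,
      div_mul_cancel₀ _ hM.ne'] at e
    refine ⟨b, ?_, by rwa [dist_eq_norm]⟩
    have hr := (mem_aroots.1 hb).2
    refine (IsAlgClosed.splits (g.map (algebraMap ℚ (AlgebraicClosure L)))).mem_range_of_isRoot
      (hg.map _).ne_zero (i := j) ?_
    rw [Polynomial.map_map, IsRoot.def, eval_map,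
      Subsingleton.elim (j.comp (algebraMap ℚ _)) (algebraMap ℚ ℂ_[2]), ← aeval_def]
    rwa [aeval_map_algebraMap] at hr
  have h2 := closure_mono h1
  rw [closure_closure, UniformSpace.Completion.denseRange_coe.closure_range] at h2
  exact fun x => h2 trivial

theorem ext1 (h : ∀ x, ‖j x‖ = ‖j' x‖) :
    ∃ σ : ℂ_[2] →+* ℂ_[2], Continuous σ ∧ ∀ x, σ (j x) = j' x := by
  let : MetricSpace (AlgebraicClosure L) := MetricSpace.induced j j.injective inferInstance
  have h1 : Isometry j := fun _ _ => rfl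
  have h2 : Isometry j' := Isometry.of_dist_eq fun a b => by
    rw [← h1.dist_eq, dist_eq_norm, dist_eq_norm, ← map_sub, ← map_sub, h]
  exact ⟨IsDenseInducing.extendRingHom h1.isUniformInducing (den j) h2.uniformContinuous,
    (uniformContinuous_uniformly_extend h1.isUniformInducing (den j)
      h2.uniformContinuous).continuous,
    fun x => (h1.isUniformInducing.isDenseInducing (den j)).extend_eq h2.continuous x⟩

theorem uniq {f g : ℂ_[2] → ℂ_[2]} (hf : Continuous f) (hg : Continuous g)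
    (h : ∀ x, f (j x) = g (j x)) (y : ℂ_[2]) : f y = g y :=
  congrFun ((den j).equalizer hf hg (funext h)) y

omit [NumberField L] in
theorem cont {σ : RingAut ℂ_[2]} (h : ∀ x, ‖σ x‖ = ‖x‖) : Continuous σ :=
  (Isometry.of_dist_eq fun a b => by rw [dist_eq_norm, dist_eq_norm, ← map_sub, h]).continuous

omit [NumberField L] in
theorem dec {g : Gal L} : g ∈ Dec (pj j) ↔
    pj j = pj (j.comp (g : AlgebraicClosure L →+* AlgebraicClosure L)) := by
  rw [Dec, MulAction.mem_stabilizer_iff]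
  constructor
  · intro h
    ext x
    conv_lhs => rw [← Ideal.smul_mem_pointwise_smul_iff (a := g), h]
    exact Iff.rfl
  · intro h
    ext x
    rw [Ideal.mem_pointwise_smul_iff_inv_smul_mem, h]
    conv_rhs => rw [← smul_inv_smul g x, ← h]
    exact Iff.rfl

end Emb

open Emb

variable {L : Type} [Field L] [NumberField L] (j j' : AlgebraicClosure L →+* ℂ_[2])

omit [NumberField L] in
theorem pj_max : (pj j).IsMaximal ∧ 2 ∈ pj j := by
  refine ⟨?_, two j⟩
  have := prime j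
  refine Ideal.isMaximal_of_isIntegral_of_isMaximal_comap (R := ℤ) _ ?_
  refine Ideal.IsPrime.isMaximal inferInstance fun h => ?_
  have h2 : (2 : ℤ) ∈ (pj j).comap (algebraMap ℤ _) := by
    rw [Ideal.mem_comap, map_ofNat]; exact two j
  rw [h] at h2
  exact absurd (Ideal.mem_bot.1 h2) (by norm_num)

theorem pj_ext (h : pj j = pj j') :
    ∃ σ : RingAut ℂ_[2], (∀ x, ‖σ x‖ = ‖x‖) ∧ ∀ x, σ (j x) = j' x := by
  obtain ⟨σ, c, e⟩ := ext1 j j' (nrm j j' h)
  obtain ⟨τ, c', e'⟩ := ext1 j' j (nrm j' j h.symm)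
  refine ⟨RingEquiv.ofRingHom σ τ (RingHom.ext fun y => ?_) (RingHom.ext fun y => ?_),
    fun y => ?_, e⟩
  · exact uniq j' (c.comp c') continuous_id (fun x => by simp [e, e']) y
  · exact uniq j (c'.comp c) continuous_id (fun x => by simp [e, e']) y
  · exact congrFun ((den j).equalizer c.norm continuous_norm
      (funext fun x => by simp [e, nrm j j' h])) y

theorem exA : ∃ a : Dec (pj j) →* RingAut ℂ_[2], (∀ g x, ‖a g x‖ = ‖x‖) ∧
    (∀ y, Continuous fun g => a g y) ∧ (∀ g x, a g (j x) = j (g.1 x)) ∧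
    (∀ g, cyclotomicCharacter ℂ_[2] 2 (a g) =
      cyclotomicCharacter (AlgebraicClosure L) 2 g.1.toRingEquiv) ∧
    ∀ g u, Gw j g u ↔ ∃ h : g ∈ Dec (pj j), Lf (a ⟨g, h⟩) u := by
  choose b hb he using fun g : Dec (pj j) => pj_ext j _ ((dec j).1 g.2)
  have he' : ∀ (g : Dec (pj j)) x, b g (j x) = j (g.1 x) := he
  let a : Dec (pj j) →* RingAut ℂ_[2] := MonoidHom.mk' b fun g g' => RingEquiv.ext fun y =>
    uniq j (cont (hb _)) ((cont (hb g)).comp (cont (hb g'))) (fun x => by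
      simp only [Function.comp_apply, he']; rfl) y
  refine ⟨a, hb, fun y => ?_, he', fun g => ?_, fun g u => ⟨?_, ?_⟩⟩
  · refine Metric.continuous_iff'.2 fun g₀ ε hε => ?_
    obtain ⟨x, hx⟩ := (den j).exists_dist_lt y (half_pos hε)
    have ho := (stabilizer_isOpen_of_isIntegral (K := L) x).preimage
      (f := fun g : Dec (pj j) => g₀.1⁻¹ * g.1) (by fun_prop)
    filter_upwards [ho.mem_nhds (x := g₀) (by simp)] with g hg
    have e : g.1 x = g₀.1 x := by
      have : (g₀.1⁻¹ * g.1) • x = x := hg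
      rw [mul_smul, inv_smul_eq_iff] at this
      exact this
    have d : ∀ g : Dec (pj j), dist (b g y) (j (g.1 x)) < ε / 2 := fun g => by
      rwa [← he', dist_eq_norm, ← map_sub, hb, ← dist_eq_norm]
    have d1 := d g
    have d2 := d g₀
    rw [e] at d1
    have := dist_triangle_right (b g y) (b g₀ y) (j (g₀.1 x))
    change dist (b g y) (b g₀ y) < ε
    linarith
  · refine Units.ext (PadicInt.ext_of_toZModPow.1 fun n => ZMod.val_injective _ ?_)
    obtain ⟨ζ, hζ⟩ := HasEnoughRootsOfUnity.exists_primitiveRoot (AlgebraicClosure L) (2 ^ n)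
    have hj := hζ.map_of_injective j.injective
    refine hj.pow_inj (ZMod.val_lt _) (ZMod.val_lt _) ?_
    rw [← cyclotomicCharacter.spec 2 (a g) _ hj.pow_eq_one, ← map_pow,
      ← cyclotomicCharacter.spec 2 g.1.toRingEquiv _ hζ.pow_eq_one]
    exact he' g ζ
  · rintro ⟨σ, c, e, hu⟩
    have hg : g ∈ Dec (pj j) := by
      refine (dec j).2 ((pj_max j).1.eq_of_le (prime _).ne_top fun x hx => ?_)
      have h1 := (c.tendsto 0).comp (tendsto_pow_atTop_nhds_zero_of_norm_lt_one hx)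
      rw [map_zero] at h1
      have h2 : ‖σ (j x)‖ < 1 := tendsto_pow_atTop_nhds_zero_iff_norm_lt_one.1
        (by simpa only [Function.comp_def, map_pow] using h1)
      rwa [e] at h2
    refine ⟨hg, hb _, fun x => (hu x).trans ?_⟩
    exact uniq j c (cont (hb ⟨g, hg⟩)) (fun x => by rw [e, he']) _
  · rintro ⟨hg, _, hu⟩
    exact ⟨(b ⟨g, hg⟩ : ℂ_[2] →+* ℂ_[2]), cont (hb _), he' ⟨g, hg⟩, hu⟩

variable {E : Type} [NontriviallyNormedField E] [NormedAlgebra ℚ_[2] E] {n : ℕ}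

namespace Emb

variable {Y : Type} [CommRing Y] [Algebra ℚ_[2] Y] (M N : Matrix (Fin n) (Fin n) E)
  (s s' : Y →ₐ[ℚ_[2]] Y) (z z' : Fin n → E ⊗[ℚ_[2]] Y)

theorem act_act : act M s (act N s' z) = act (M * N) (s.comp s') z := by
  have e : (fun i => Algebra.TensorProduct.map (AlgHom.id E E) s (act N s' z i)) =
      N.map (algebraMap E _) *ᵥ fun i =>
        Algebra.TensorProduct.map (AlgHom.id E E) (s.comp s') (z i) := by
    funext i
    simp only [act, mulVec, dotProduct, map_sum, map_mul, map_apply, AlgHom.commutes]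
    refine Finset.sum_congr rfl fun k _ => ?_
    rw [← AlgHom.id_comp (AlgHom.id E E), Algebra.TensorProduct.map_comp]
    rfl
  rw [act, e, mulVec_mulVec, act, Matrix.map_mul]

theorem act_add : act M s (z + z') = act M s z + act M s z' := by
  rw [act, act, act, ← mulVec_add]
  simp only [Pi.add_apply, map_add]
  rfl

theorem act_sub : act M s (z - z') = act M s z - act M s z' := by
  rw [act, act, act, ← mulVec_sub]
  simp only [Pi.sub_apply, map_sub]
  rfl

theorem act_cst (v : Fin n → E) :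
    act M s (fun i => algebraMap E _ (v i)) = fun i => algebraMap E _ ((M *ᵥ v) i) := by
  funext i
  simp only [act, mulVec, dotProduct, map_sum, map_mul, map_apply, AlgHom.commutes]

/-- The transported vector. -/
noncomputable def trz (b : Fin n → E) : Fin n → E ⊗[ℚ_[2]] Y :=
  act N s z - fun i => algebraMap E _ (b i)

theorem act_tr {M' : Matrix (Fin n) (Fin n) E} {s₀ s₁ : Y →ₐ[ℚ_[2]] Y} {a b c : Fin n → E}
    (e : M * N = N * M') (hs : s.comp s₀ = s₀.comp s₁) (h : a + M *ᵥ b = b + N *ᵥ c)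
    (k : act M' s₁ z - z = fun i => algebraMap E _ (c i)) :
    act M s (trz N s₀ z b) - trz N s₀ z b = fun i => algebraMap E _ (a i) := by
  rw [trz, act_sub, act_act, e, hs, ← act_act, eq_add_of_sub_eq k, act_add, act_cst, act_cst]
  funext i
  have c2 := congrArg (algebraMap E (E ⊗[ℚ_[2]] Y)) (congrFun h i)
  simp only [Pi.add_apply, map_add] at c2
  simp only [Pi.add_apply, Pi.sub_apply]
  linear_combination -c2

theorem lc {σ σ' : RingAut ℂ_[2]} {u u' : Ti →+* Ti} (a : Lf σ u) (b : Lf σ' u') :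
    Lf (σ * σ') (u.comp u') :=
  ⟨fun y => (a.1 _).trans (b.1 y), fun y => (a.2 _).trans (congrArg _ (b.2 y))⟩

theorem ec {X : Type} [CommRing X] [Algebra Ai X] [Algebra X Y] {u u' : Ti →+* Ti}
    {s s' : Y →ₐ[ℚ_[2]] Y} (h : Ex X u s) (h' : Ex X u' s') : Ex X (u.comp u') (s.comp s') := by
  obtain ⟨r, a, b⟩ := h
  obtain ⟨r', a', b'⟩ := h'
  refine ⟨r.comp r', fun y => ?_, fun y => ?_⟩
  · rw [RingHom.comp_apply, a', a]
    congr 1
  · rw [AlgHom.comp_apply, b', b, RingHom.comp_apply]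

end Emb

variable {ρ : Gal L →* Matrix (Fin n) (Fin n) E} {x : Gal L → Fin n → E}

/-- Transport of the crystalline condition, from the existence and uniqueness of the lifts. -/
theorem cris_of (h1 : ∀ σ : RingAut ℂ_[2], (∀ x, ‖σ x‖ = ‖x‖) → ∃ u, Lf σ u)
    (h2 : ∀ σ u u', Lf σ u → Lf σ u' → u = u')
    (h3 : ∀ σ u, Lf σ u → ∃ s : Bc →ₐ[ℚ_[2]] Bc, Ex Ac u s)
    (h4 : ∀ u (s s' : Bc →ₐ[ℚ_[2]] Bc), Ex Ac u s → Ex Ac u s' → s = s')
    (hx : Coc ρ ⊤ x) (γ : Gal L)
    (h : pj j = pj (j'.comp (γ : AlgebraicClosure L →+* AlgebraicClosure L))) (c : Cris j ρ x) :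
    Cris j' ρ x := by
  obtain ⟨σ₀, n0, e0⟩ := pj_ext j _ h
  have e0' : ∀ y, σ₀ (j y) = j' (γ y) := e0
  obtain ⟨u₀, l0⟩ := h1 σ₀ n0
  obtain ⟨s₀, x0⟩ := h3 _ _ l0
  obtain ⟨z, hz⟩ := c
  obtain ⟨a, an, -, ae, -, ag⟩ := exA j'
  have e : ∀ g, g * γ = γ * (γ⁻¹ * g * γ) := fun g => by group
  have key : ∀ g u (s : Bc →ₐ[ℚ_[2]] Bc), Gw j' g u → Ex Ac u s → ∃ u₁, ∃ s₁ : Bc →ₐ[ℚ_[2]] Bc,
      Gw j (γ⁻¹ * g * γ) u₁ ∧ Ex Ac u₁ s₁ ∧ s.comp s₀ = s₀.comp s₁ := by
    intro g u s gw ex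
    obtain ⟨hg, l⟩ := (ag g u).1 gw
    have n1 : ∀ y, ‖(σ₀⁻¹ * a ⟨g, hg⟩ * σ₀) y‖ = ‖y‖ := fun y => by
      rw [← n0, ← RingAut.mul_apply, ← mul_assoc, ← mul_assoc, mul_inv_cancel, one_mul,
        RingAut.mul_apply, an, n0]
    obtain ⟨u₁, l1⟩ := h1 _ n1
    obtain ⟨s₁, x1⟩ := h3 _ _ l1
    have a1 := lc l0 l1
    rw [← mul_assoc, ← mul_assoc, mul_inv_cancel, one_mul] at a1
    have a2 := ec x0 x1
    rw [h2 _ _ _ a1 (lc l l0)] at a2
    refine ⟨u₁, s₁, ⟨(σ₀⁻¹ * a ⟨g, hg⟩ * σ₀ : RingAut ℂ_[2]), cont n1, fun y => ?_, l1.2⟩, x1,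
      h4 _ _ _ (ec ex x0) a2⟩
    apply σ₀.injective
    change (σ₀ * (σ₀⁻¹ * a ⟨g, hg⟩ * σ₀)) (j y) = _
    rw [← mul_assoc, ← mul_assoc, mul_inv_cancel, one_mul, RingAut.mul_apply, e0', ae, e0',
      ← AlgEquiv.mul_apply γ, ← e]
    rfl
  have c1 : ∀ g, x g + ρ g *ᵥ x γ = x γ + ρ γ *ᵥ x (γ⁻¹ * g * γ) := fun g => by
    rw [← hx.2 g trivial γ trivial, e g, hx.2 γ trivial _ trivial]
  have c2 : ∀ g, ρ g * ρ γ = ρ γ * ρ (γ⁻¹ * g * γ) := fun g => by rw [← map_mul, e g, map_mul]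
  exact ⟨trz (ρ γ) s₀ z (x γ), fun g u s gw ex => (key g u s gw ex).elim fun u₁ k =>
    k.elim fun s₁ k => act_tr _ _ _ _ (c2 g) k.2.2 (c1 g) (hz _ u₁ s₁ k.1 k.2.1)⟩

end Pool.Agent.HF
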