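import Pool.Agent.Lib.MP_b4b3cb_nt.HF.Stmt5

/-! Auxiliary definitions for the period rings. -/

namespace Pool.Agent.HF

open NumberField Matrix WittVector Ideal Pool.Agent.SelTwo
open scoped TensorProduct Topology

/-- The map `θ`. -/
noncomputable abbrev th : Ai →+* OC := fontaineTheta OC 2

/-- The Frobenius of the tilt. -/
noncomputable abbrev fr : Ti →+* Ti := frobenius Ti 2

/-- A generator of the kernel of `θ`. -/
noncomputable def xi : Ai := 1 + teichmuller 2 eta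

/-- The element `[ε] - 1`. -/
noncomputable def pv : Ai := teichmuller 2 eta ^ 2 - 1

/-- The map `ℤ₂ → A_inf`. -/
noncomputable def zp : ℤ_[2] →+* Ai :=
  (WittVector.map (ZMod.castHom (dvd_refl 2) Ti)).comp (fromPadicInt 2)

/-- `u` is the action on the tilt of the isometry `σ`. -/
def Lf (σ : RingAut ℂ_[2]) (u : Ti →+* Ti) : Prop :=
  (∀ x, ‖σ x‖ = ‖x‖) ∧ ∀ x : Ti, ((u x).untilt : ℂ_[2]) = σ x.untilt

/-- `r` lies over `u`. -/
def Ov {X : Type} [CommRing X] [Algebra Ai X] (u : Ti →+* Ti) (r : X →+* X) : Prop :=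
  ∀ a, r (algebraMap Ai X a) = algebraMap Ai X (WittVector.map u a)

/-- The ring is complete and separated for the powers of `w`. -/
def Cpl {A : Type} [CommRing A] (w : A) : Prop :=
  (∀ x, (∀ N, w ^ N ∣ x) → x = 0) ∧
    ∀ f : ℕ → A, (∀ N, w ^ N ∣ f (N + 1) - f N) → ∃ l, ∀ N, w ^ N ∣ l - f N

/-- `4 l` is the logarithm of `u`. -/
def Lg {A : Type} [CommRing A] (u l : A) : Prop :=
  ∀ N, 2 ^ (2 * N + 3) ∣ u ^ 2 ^ N - 1 - 2 ^ (N + 2) * l

/-- The ring `A_cris[1/2]`. -/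
abbrev Bp : Type := Localization.Away (2 : Ac)

noncomputable instance : Algebra ℚ_[2] Bp := (qp Bp (by
  simpa only [map_ofNat] using IsLocalization.Away.algebraMap_isUnit (S := Bp) (2 : Ac))).toAlgebra

/-- Period rings with the properties that are used. -/
structure PD (G : Type) [Group G] [TopologicalSpace G] (E : Type) [NontriviallyNormedField E]
    (χ : G →* E) (B D C : Type) [CommRing B] [Algebra E B] [CommRing D] [Algebra E D] [CommRing C]
    [Algebra E C] where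
  /-- the action on `B` -/
  gB : G →* (B →ₐ[E] B)
  /-- the action on `D` -/
  gD : G → D →ₐ[E] D
  /-- the action on `C` -/
  gC : G → C →ₐ[E] C
  /-- the Frobenius of `B` -/
  fB : B →ₐ[E] B
  /-- the Frobenius of `C` -/
  fC : C →ₐ[E] C
  /-- the map to the de Rham ring -/
  β : B →ₐ[E] D
  /-- the map to the crystalline ring -/
  γ : B →ₐ[E] C
  /-- the period of the character -/
  t : B
  /-- a lattice -/
  Λ : Subring B
  βg : ∀ g x, β (gB g x) = gD g (β x)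
  γg : ∀ g x, γ (gB g x) = gC g (γ x)
  γf : ∀ x, γ (fB x) = fC (γ x)
  fg : ∀ g x, fB (gB g x) = gB g (fB x)
  gt : ∀ g, gB g t = χ g • t
  ft : fB t = 2 * t
  nzd : ∀ y, β t * y = 0 → y = 0
  nu : ¬IsUnit (β t)
  ut : IsUnit (γ t)
  loc : ∀ c, ∃ (m : ℕ) (x : B), γ t ^ m * c = γ x
  kr : ∀ x, γ x = 0 → β x = 0
  k0 : ∀ x, fB x = x → ∃ a : E, x = algebraMap E B a
  k1 : ∀ (m : ℕ) x, fB x = 2 ^ (m + 1) * x → β t ∣ β x → ∃ y, fB y = 2 ^ m * y ∧ x = t * y
  s1 : ∀ y, ∃ x, fB x = 2 * x ∧ β t ∣ β x - y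
  ab : ∀ x, ∃ N : ℕ, 2 ^ N * x ∈ Λ
  il : ∀ a : E, ‖a‖ ≤ 1 → algebraMap E B a ∈ Λ
  sep : ∀ x, (∀ N : ℕ, ∃ y ∈ Λ, x = 2 ^ N * y) → x = 0
  ct : ∀ x (N : ℕ) g₀, ∀ᶠ g in 𝓝 g₀, ∃ y ∈ Λ, gB g x - gB g₀ x = 2 ^ N * y

variable {G : Type} [Group G] [TopologicalSpace G] {E : Type} [NontriviallyNormedField E]
  {χ : G →* E} {B D C : Type} [CommRing B] [Algebra E B] [CommRing D] [Algebra E D] [CommRing C]
  [Algebra E C] (X : PD G E χ B D C) {n : ℕ} (ρ : G →* Matrix (Fin n) (Fin n) E)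

/-- The action of `M ⊗ s`. -/
def ac {Y : Type} [CommRing Y] [Algebra E Y] (M : Matrix (Fin n) (Fin n) E) (s : Y →ₐ[E] Y)
    (z : Fin n → Y) : Fin n → Y := M.map (algebraMap E Y) *ᵥ fun i => s (z i)

/-- The crystalline cocycles. -/
def PD.Hc : Set (G → Fin n → E) :=
  {x | Coc ρ ⊤ x ∧ ∃ z : Fin n → C, ∀ g, ac (ρ g) (X.gC g) z - z = fun i => algebraMap E C (x g i)}

/-- No invariant vector is fixed by Frobenius. -/
def PD.Nf : Prop :=
  ∀ z : Fin n → C, (∀ g, ac (ρ g) (X.gC g) z = z) → (∀ i, X.fC (z i) = z i) → z = 0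

/-- The representation is de Rham with weights `h`. -/
def PD.Dr (h : Fin n → ℤ) : Prop :=
  ∃ P : Matrix (Fin n) (Fin n) D, IsUnit P ∧
    ∀ g i, ac (ρ g) (X.gD g) (P.col i) = χ g ^ h i • P.col i

variable (χ) in
/-- The cup product of `x` and `y` is a coboundary. -/
def Orth (M : Matrix (Fin n) (Fin n) E) (x y : G → Fin n → E) : Prop :=
  ∃ f : G → E, Continuous f ∧ ∀ g h, x g ⬝ᵥ M *ᵥ ρ g *ᵥ y h = f g + χ g * f h - f (g * h)

/-- The prime defined by an embedding in `ℂ₂`. -/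
noncomputable def pj {L : Type} [Field L] (j : AlgebraicClosure L →+* ℂ_[2]) : Idl L where
  carrier := {x | ‖j x‖ < 1}
  zero_mem' := by simp
  add_mem' := fun {a b} ha hb => by
    change ‖j (a + b : 𝓞 _)‖ < 1
    rw [RingOfIntegers.coe_eq_algebraMap, map_add, map_add]
    exact (IsUltrametricDist.norm_add_le_max _ _).trans_lt (max_lt ha hb)
  smul_mem' := fun c x hx => by
    change ‖j (c * x : 𝓞 _)‖ < 1
    rw [RingOfIntegers.coe_eq_algebraMap, map_mul, map_mul, norm_mul]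
    refine mul_lt_one_of_nonneg_of_lt_one_right ?_ (norm_nonneg _) hx
    have : IsIntegral (PadicComplexInt 2) (j c) := (RingOfIntegers.isIntegral_coe c).map_of_comp_eq
      (Int.castRingHom _) j (RingHom.ext_int _ _)
    exact oc_mem.1 ((IsIntegrallyClosed.isIntegral_iff.1 this).elim fun y e => e ▸ y.2)

end Pool.Agent.HF
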