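import Pool.Agent.Lib.MP_b4b3cb_nt.BC.Main5
import Pool.Agent.Lib.MP_b4b3cb_nt.HF.Defs

/-! The bound for orthogonal local conditions at a split prime above two. -/

set_option linter.unusedSectionVars false

namespace Pool.Agent.BC

open scoped Classical Pointwise
open Module NumberField Pool.Agent.Stark Matrix IsDedekindDomain Finset
open Pool.Agent.SP hiding VD exVD autoR oddK locRam locIn
open SC hiding Hm Rp V T Two Cob Sel Spl cup dq Cz Sz res Dec Ine cyc gs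
open SelTwo hiding Cob Int

theorem VD.le3 {E k : Type} [NontriviallyNormedField E] [Field k] {Γ G : Type} [Group Γ]
    [TopologicalSpace Γ] [Group G] [TopologicalSpace G] {J : IG Γ G} {c : CF E k} {χ : G →* E}
    {V : Type} [NormedAddCommGroup V] [NormedSpace E V] {A : Type} [AddCommGroup A] [Module k A]
    (U : VD J c χ V A) {D : Subgroup G} [Finite k] [IsUltrametricDist E] [CompleteSpace E]
    [FiniteDimensional E V] [CharP k 2] [Algebra (ZMod 2) k] [IsTopologicalGroup G]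
    [CompactSpace D] (H : Two D) (L : LDm k D) (Λ : LD D c fun g => χ g) (hD : D ≤ J.H)
    {D' : Subgroup Γ} (hD' : ∀ γ, γ ∈ D' ↔ J.ι γ ∈ D) {W W' : Submodule E (D' → V)}
    (hZ : W ≤ (U.ρ.res D').Z1) (hB' : (U.ρc.res D').B1 ≤ W') (hZ' : W' ≤ (U.ρc.res D').Z1)
    (o : ∀ t ∈ W, ∀ t' ∈ W', Cob (fun g : D' => χ (J.ι g)) (cupB U.B (U.ρc.res D') t t')) :
    FiniteDimensional E W ∧ FiniteDimensional E W' ∧ finrank E W + finrank E W' ≤
      finrank k (U.X.res D).r.Z1 + finrank k (U.X.res D).r.B1 := by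
  let e : D →* D' := (J.uD _ hD).codRestrict _ fun g => (hD' _).2 (by
    change J.ι (J.u g) ∈ _
    rw [J.u1 _ (hD g.2)]
    exact g.2)
  have ce : Continuous e := (J.cu.comp continuous_subtype_val).subtype_mk _
  have inj : Function.Injective (LinearMap.funLeft E V e) :=
    LinearMap.funLeft_injective_of_surjective _ _ _ fun g =>
      ⟨⟨_, (hD' g).1 g.2⟩, Subtype.ext (J.u_ι g)⟩
  have z1 : W.map (LinearMap.funLeft E V e) ≤ (U.r1 D hD).Z1 := by
    rintro _ ⟨t, ht, rfl⟩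
    exact ⟨(hZ ht).1.comp ce, fun g l => by
      have := (hZ ht).2 (e g) (e l)
      rwa [SP.Rp.d2, ← map_mul] at this⟩
  have z2 : W'.map (LinearMap.funLeft E V e) ≤ (U.r2 D hD).Z1 := by
    rintro _ ⟨t, ht, rfl⟩
    exact ⟨(hZ' ht).1.comp ce, fun g l => by
      have := (hZ' ht).2 (e g) (e l)
      rwa [SP.Rp.d2, ← map_mul] at this⟩
  have f1 := ((U.cp1 hD).fd L z1).1
  have f2 := ((U.cp2 hD).fd L z2).1
  refine ⟨(Submodule.equivMapOfInjective _ inj _).symm.finiteDimensional,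
    (Submodule.equivMapOfInjective _ inj _).symm.finiteDimensional, ?_⟩
  rw [(Submodule.equivMapOfInjective _ inj W).finrank_eq,
    (Submodule.equivMapOfInjective _ inj W').finrank_eq]
  refine U.le12 hD H L Λ z1 (by
    rintro _ ⟨a, rfl⟩
    exact ⟨_, hB' ⟨a, rfl⟩, rfl⟩) z2 ?_
  rintro _ ⟨t, ht, rfl⟩ _ ⟨t', ht', rfl⟩
  exact (o t ht t' ht').comp e ce (fun g => congrArg χ (J.u1 _ (hD g.2)).symm) fun _ _ => rfl

theorem two_uniq {K : Type} [Field K] [NumberField K] (hK : finrank ℚ K = 1)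
    {v v' : HeightOneSpectrum (𝓞 K)} (h : 2 ∈ v.asIdeal) (h' : 2 ∈ v'.asIdeal) : v = v' := by
  have p : (Ideal.span {((2 : ℕ) : 𝓞 K)}).IsPrime := Ideal.isPrime_of_irreducible_absNorm (by
    rw [Ideal.absNorm_span_natCast, RingOfIntegers.rank, hK, pow_one]
    exact Nat.prime_two.prime.irreducible)
  have m := p.isMaximal (by simp)
  exact HeightOneSpectrum.ext ((m.eq_of_le v.isPrime.ne_top (by simpa using h)).symm.trans
    (m.eq_of_le v'.isPrime.ne_top (by simpa using h')))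

theorem dim3 (L : Type) [Field L] [NumberField L] [IsCMField L] (hL : finrank ℚ L = 2) (E : Type)
    [NontriviallyNormedField E] [NormedAlgebra ℚ_[2] E] [FiniteDimensional ℚ_[2] E] (n : ℕ)
    (ρ : Gal L →* Matrix (Fin n) (Fin n) E) (cj : Gal L → Gal L)
    (hcj : IsCj cj) (B : Matrix (Fin n) (Fin n) E) (hB : PolS ρ (cyc E) cj B)
    (𝔓 : Idl L) (h𝔓 : 𝔓.IsMaximal) (h2 : 2 ∈ 𝔓) (sp : ¬Nonsplit 𝔓) :
    finrank ℚ (maximalRealSubfield L) = 1 ∧ ∃ (κ : Gal L →* Gal L)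
      (c : AlgebraicClosure L →+* AlgebraicClosure L), Continuous κ ∧ (∀ g, κ g = cj g) ∧
      (∀ x, c (c x) = x) ∧ (∀ g x, κ g (c x) = c (g x)) ∧
      (∀ 𝔔 : Idl L, 𝔔.IsMaximal → 2 ∈ 𝔔 → ∃ γ : Gal L, (∀ x, x ∈ 𝔓 ↔ γ • x ∈ 𝔔) ∨
        ∀ x y : 𝓞 _, c x = y → (y ∈ 𝔓 ↔ γ • x ∈ 𝔔)) ∧
      ∀ (χ : Dec 𝔓 →* E) (W W' : Submodule E (Dec 𝔓 → Fin n → E)), (∀ g, χ g = cyc E g.1) →
        (∀ x ∈ W, Coc (ρ.comp (Dec 𝔓).subtype) ⊤ x) →
        (∀ x ∈ W', Coc ((ρ.comp κ).comp (Dec 𝔓).subtype) ⊤ x) →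
        (∀ x, SelTwo.Cob ((ρ.comp κ).comp (Dec 𝔓).subtype) ⊤ x → x ∈ W') →
        (∀ x ∈ W, ∀ y ∈ W', HF.Orth χ ((ρ.comp κ).comp (Dec 𝔓).subtype) B x y) →
        FiniteDimensional E W ∧ FiniteDimensional E W' ∧ finrank E W + finrank E W' ≤ 3 * n := by
  obtain ⟨hρ, int, b1, b2, b3, b4, M, m1, m2, m3, m4, m5⟩ := hB
  obtain ⟨d, R, hR⟩ := exists_quad_cm L
  have hK : finrank ℚ (maximalRealSubfield L) = 1 := by
    have := finrank_mul_finrank ℚ (maximalRealSubfield L) L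
    rw [hL, Algebra.IsQuadraticExtension.finrank_eq_two _ L] at this
    omega
  have : Algebra.IsAlgebraic (maximalRealSubfield L) (AlgebraicClosure L) :=
    Algebra.IsAlgebraic.trans _ L _
  have : IsAlgClosure (maximalRealSubfield L) (AlgebraicClosure L) := ⟨inferInstance, this⟩
  have := IsUltrametricDist.of_normedAlgebra ℚ_[2] (L := E)
  have := FiniteDimensional.proper ℚ_[2] E
  have := charZero_of_injective_algebraMap (algebraMap ℚ_[2] E).injective
  obtain ⟨k, _, _, _, ⟨c⟩⟩ := exCF (E := E) (by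
    rw [← map_ofNat (algebraMap ℚ_[2] E), norm_algebraMap']
    exact_mod_cast Padic.norm_p_lt_one (p := 2))
  let := ZMod.algebra k 2
  have F := facts (maximalRealSubfield L) (AlgebraicClosure L)
  have F' := facts L (AlgebraicClosure L)
  obtain ⟨j, c', hc', hcj⟩ := hcj
  let s' : Gal(AlgebraicClosure L/maximalRealSubfield L) := AlgEquiv.ofRingEquiv (f := c') fun x =>
    j.injective ((hc' _).trans (x.2 (j.comp (algebraMap L _))))
  have hre : ∀ j (g : Gal(AlgebraicClosure L/maximalRealSubfield L)), Cj j g →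
      g ∉ Gs (maximalRealSubfield L) (AlgebraicClosure L) L := fun j g hj hg => by
    have a := IsCMField.complexEmbedding_complexConj L (j.comp (algebraMap L _)) R.rt
    have b := hj (algebraMap L _ R.rt)
    rw [hg R.rt] at b
    rw [← hR, R.tau_rt, map_neg, RingHom.comp_apply, ← b] at a
    exact GlAux.ne R ((map_eq_zero j).1 (by linear_combination (-1 / 2 : ℂ) * a))
  obtain ⟨J, hι, hJ, hH, hc⟩ := exIG R (F.cj.sq (g := s') hc').1 (hre j _ hc') cj hcj
  obtain ⟨π, v, hv⟩ := exPlc' (K := maximalRealSubfield L) h𝔓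
  have ec : ∀ g, cycE E _ _ (J.ι g) = cyc E g := fun g => by
    rw [show J.ι g = g.restrictScalars _ from AlgEquiv.ext (hι g)]
    rfl
  obtain ⟨U, hU', uB, -⟩ := exVD (c := c) J (cycE E _ _) (akK π c).rd_chi (by
      rw [hJ, cycE_apply, F.fr.cyc_cj (g := s') hc']
      simp) ρ hρ int B b1 b2 b3 (fun g => by rw [hc, ec, b4]) M m1 m2
      (fun g => by rw [hc]; exact m3 g) m4 m5
  have ss : ∀ x, c' (c' x) = x := fun x => AlgEquiv.congr_fun (F.cj.sq (g := s') hc').1 x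
  have ov : Over 𝔓 v := hv ▸ π.hov v
  have t2 : ∀ {𝔔 : Idl L} {q : Pr (maximalRealSubfield L)}, Over 𝔔 q → (2 ∈ 𝔔 ↔ 2 ∈ q.asIdeal) :=
    fun h => by rw [h.2, map_ofNat]
  refine ⟨hK, J.cj, c', J.ccj, hc, ss, fun g x => by rw [hc, hcj]; exact congrArg (c' <| g ·) (ss x),
    fun 𝔔 h h' => ?_, fun χ W W' hχ a1 a2 a3 a4 => ?_⟩
  · obtain ⟨q, hq⟩ := F.pr.under (maximalRealSubfield L) 𝔔 h
    obtain rfl := two_uniq hK ((t2 hq).1 h') ((t2 ov).1 h2)
    obtain ⟨g, -, rfl⟩ := F.pr.trans ov hq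
    refine ⟨J.u g, (em (g ∈ J.H)).imp (fun p x => ?_) fun p x y e => ?_⟩
    · rw [← i_smul hι, J.u1 g p, F.pr.mem_smul]
    · rw [← i_smul hι, J.u2 g p, mul_smul, F.pr.mem_smul, hJ,
        show s' • x = y from RingOfIntegers.ext e]
  obtain ⟨w, hw⟩ := F'.pr.under L 𝔓 h𝔓
  have sg : R.sg = (IsCMField.ringOfIntegersComplexConj L).toRingEquiv := by
    ext x
    exact congrArg (fun f => f (x : L)) hR
  have le : π.D (.inl v) ≤ J.H := by
    change SC.Dec _ (π.pr v) ≤ _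
    rw [hv]
    refine (dec_le R hH hw).2 fun e => sp ?_
    have : 𝔓.under (𝓞 L) = w.asIdeal := Ideal.ext fun x => (hw.2 x).symm
    rw [Nonsplit, this]
    refine Eq.trans ?_ (congrArg HeightOneSpectrum.asIdeal e)
    rw [(st_Qd st_Cn).act_ideal, sg]
    rfl
  have ua : ∀ g x, U.ρ.ac g x = ρ g *ᵥ x := fun g x => by rw [hU']; rfl
  have : CompactSpace (π.D (.inl v)) := cptD _
  obtain ⟨f1, f2, f3⟩ := U.le3 (two_D π (.inl v)) (ldmK k π _) (ldK π c _) le (D' := Dec 𝔓)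
    (fun γ => by rw [← hv]; exact dec_iff hι γ) (W := W) (W' := W')
    (fun x hx => ⟨continuousOn_univ.1 (a1 x hx).1, fun g l => by
      rw [SP.Rp.d2, (a1 x hx).2 g trivial l trivial]
      exact sub_eq_zero.2 (congrArg _ (ua _ _))⟩)
    (by
      rintro _ ⟨u, rfl⟩
      exact a3 _ ⟨u, fun g _ => congrArg (· - u) (ua _ _)⟩)
    (fun x hx => ⟨continuousOn_univ.1 (a2 x hx).1, fun g l => by
      rw [SP.Rp.d2, (a2 x hx).2 g trivial l trivial]
      exact sub_eq_zero.2 (congrArg _ (ua _ _))⟩) fun x hx y hy => by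
      obtain ⟨f, g1, g2⟩ := a4 x hx y hy
      refine ⟨f, g1, fun g l => ?_⟩
      rw [cupB, dq, uB, toBilin'_apply', ec, ← hχ, ← g2]
      exact congrArg (fun z => x g ⬝ᵥ B *ᵥ z) (ua _ _)
  refine ⟨f1, f2, f3.trans_eq ?_⟩
  have fA := U.fdA
  have ta := Eu.tateK π _ U.X.pf {v} fun q => by
    rw [mem_singleton, Ne, ← (F.pr.two (π.hov q)).not, not_not, t2 (π.hov q)]
    exact ⟨fun e => e ▸ (t2 ov).1 h2, fun e => two_uniq hK e ((t2 ov).1 h2)⟩
  have b := (U.X.res (π.D (.inl v))).r.rank_B1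
  rw [sum_singleton, sum_singleton, hK, U.dimA, finrank_fin_fun] at ta
  rw [U.dimA, finrank_fin_fun] at b
  change finrank k (U.X.res (π.D (.inl v))).r.Z1 =
    n + finrank k (U.X.res (π.D (.inl v))).r.H0 + _ at ta
  omega

end Pool.Agent.BC
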