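import Pool.Agent.Lib.MP_b4b3cb_nt.HF.Stmt6
import Pool.Agent.Lib.MP_b4b3cb_nt.HF.Main6

/-! The bundled period rings are the period rings of the proof. -/

namespace Pool.Agent.BKf

open Pool.Agent.SelTwo (Gal)

variable {E : Type} [NontriviallyNormedField E] [NormedAlgebra ℚ_[2] E] {n : ℕ} {L : Type} [Field L]
  (j : AlgebraicClosure L →+* ℂ_[2]) (ρ : Gal L →* Matrix (Fin n) (Fin n) E)

theorem cris_eq : Cris (Gw (PadicComplexInt 2) j) (Ec (PadicComplexInt 2)) ρ =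
    SelTwo.Cris j ρ := rfl

theorem nofix_eq : NoFix (Gw (PadicComplexInt 2) j) (Ec (PadicComplexInt 2)) ρ (frobenius _ 2) =
    SelTwo.NoFix j ρ := rfl

theorem deRham_eq : DeRham (Gw (PadicComplexInt 2) j) (Ed (PadicComplexInt 2)) ρ =
    SelTwo.DeRham j ρ := rfl

theorem hf_eq [NumberField L] : Hf (PadicComplexInt 2) ρ = SelTwo.Hf ρ := by
  simp only [Hf, SelTwo.Hf, cris_eq]

end Pool.Agent.BKf
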