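import Pool.Agent.Lib.MP_b4b3cb_nt.HF.Ti

/-! The divided power envelope. -/

namespace Pool.Agent.HF

open NumberField Matrix WittVector Ideal Pool.Agent.SelTwo Module Polynomial
open scoped TensorProduct Topology Nat Classical

variable {u : Ti →+* Ti}

theorem bi_inj : Function.Injective (algebraMap Ai Bi) :=
  IsLocalization.injective Bi (powers_le_nonZeroDivisors_of_noZeroDivisors
    (show ((2 : ℕ) : Ai) ≠ 0 from Nat.cast_ne_zero.2 two_ne_zero))

instance : IsDomain Bi :=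
  IsLocalization.isDomain_localization (powers_le_nonZeroDivisors_of_noZeroDivisors
    (show ((2 : ℕ) : Ai) ≠ 0 from Nat.cast_ne_zero.2 two_ne_zero))

instance : CharZero Bi := charZero_of_injective_algebraMap bi_inj

theorem a0_inj : Function.Injective (algebraMap Ai A0) := fun _ _ h =>
  bi_inj (congrArg Subtype.val h)

theorem ai_odd {m : ℕ} (h : Odd m) : IsUnit (m : Ai) := by
  obtain ⟨k, rfl⟩ := h
  push_cast
  rw [add_comm]
  exact ai_cpl.unit (k : Ai)

theorem bi_nat {m : ℕ} (h : m ≠ 0) : IsUnit (m : Bi) := by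
  obtain ⟨v, o, ho, rfl⟩ := Nat.exists_eq_two_pow_mul_odd h
  have a := IsLocalization.Away.algebraMap_isUnit (S := Bi) ((2 : ℕ) : Ai)
  have b := (ai_odd ho).map (algebraMap Ai Bi)
  rw [map_natCast] at a b
  rw [Nat.cast_mul, Nat.cast_pow]
  exact (a.pow v).mul b

theorem two_fact (k : ℕ) : ∃ c : Ai, (k ! : Ai) * c = 2 ^ k := by
  obtain ⟨v, o, ho, e⟩ := Nat.exists_eq_two_pow_mul_odd k.factorial_ne_zero
  have h1 : v ≤ padicValNat 2 k ! :=
    (padicValNat_dvd_iff_le k.factorial_ne_zero).1 ⟨o, e⟩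
  have h2 := sub_one_mul_padicValNat_factorial (p := 2) k
  obtain ⟨j, rfl⟩ := Nat.exists_eq_add_of_le (show v ≤ k by omega)
  obtain ⟨w, hw⟩ := (ai_odd ho).exists_right_inv
  refine ⟨w * 2 ^ j, ?_⟩
  rw [e]
  push_cast
  linear_combination 2 ^ v * 2 ^ j * hw

/-- divided powers in `Bi` -/
noncomputable def dpw (m : ℕ) (x : Bi) : Bi := Ring.inverse (m ! : Bi) * x ^ m

theorem dpw_spec (m : ℕ) (x : Bi) : (m ! : Bi) * dpw m x = x ^ m :=
  Ring.mul_inverse_cancel_left _ _ (bi_nat m.factorial_ne_zero)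

theorem dpw_eq {m : ℕ} {x y : Bi} (h : (m ! : Bi) * y = x ^ m) : y = dpw m x :=
  mul_left_cancel₀ (Nat.cast_ne_zero.2 m.factorial_ne_zero) (h.trans (dpw_spec m x).symm)

theorem dpw_add (m : ℕ) (x y : Bi) :
    dpw m (x + y) = ∑ i ∈ Finset.range (m + 1), dpw i x * dpw (m - i) y := by
  refine (dpw_eq ?_).symm
  rw [add_pow, Finset.mul_sum]
  refine Finset.sum_congr rfl fun i hi => ?_
  rw [← Nat.choose_mul_factorial_mul_factorial (Nat.lt_succ_iff.1 (Finset.mem_range.1 hi)),
    ← dpw_spec, ← dpw_spec]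
  push_cast
  ring

theorem dpw_ker {a : Ai} (h : th a = 0) (m : ℕ) : dpw m (algebraMap Ai Bi a) ∈ A0 :=
  Algebra.subset_adjoin ⟨a, m, h, dpw_spec _ _⟩

theorem th_xi : th xi = 0 := th_ker.2 dvd_rfl

theorem dec_two {a : Ai} (h : 2 ∣ th a) : ∃ c e, a = xi * c + 2 * e := by
  obtain ⟨y, hy⟩ := h
  obtain ⟨e, rfl⟩ := th_surj y
  obtain ⟨c, hc⟩ := th_ker.1 (show th (a - 2 * e) = 0 by
    rw [map_sub, map_mul, map_ofNat, hy, sub_self])
  exact ⟨c, e, by rw [← hc]; ring⟩

theorem dpw_mem {a : Ai} (h : 2 ∣ th a) (m : ℕ) : dpw m (algebraMap Ai Bi a) ∈ A0 := by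
  obtain ⟨c, e, rfl⟩ := dec_two h
  rw [map_add, dpw_add]
  refine sum_mem fun i _ => mul_mem (dpw_ker (th_ker.2 (dvd_mul_right _ _)) i) ?_
  obtain ⟨w, hw⟩ := two_fact (m - i)
  rw [← dpw_eq (y := algebraMap Ai Bi (w * e ^ (m - i))) (by
    rw [← map_natCast (algebraMap Ai Bi), ← map_mul, ← mul_assoc, hw, ← mul_pow, map_pow])]
  exact A0.algebraMap_mem _

/-- the divided powers of `xi` -/
noncomputable def dx (m : ℕ) : A0 := ⟨dpw m (algebraMap Ai Bi xi), dpw_ker th_xi m⟩

theorem dx_spec (m : ℕ) : (m ! : A0) * dx m = algebraMap Ai A0 xi ^ m :=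
  Subtype.ext (dpw_spec m _)

theorem a0_fac {m : ℕ} {x y : A0} (h : (m ! : A0) * x = m ! * y) : x = y :=
  mul_left_cancel₀ (Nat.cast_ne_zero.2 m.factorial_ne_zero) h

theorem dx_zero : dx 0 = 1 := by simpa using dx_spec 0

theorem dx_mul (i j : ℕ) : dx i * dx j = (i + j).choose i * dx (i + j) := by
  refine a0_fac (m := i) (a0_fac (m := j) ?_)
  have e : (((i + j)! : ℕ) : A0) = (i + j).choose i * i ! * j ! := by
    rw [add_comm i j, ← Nat.add_choose_mul_factorial_mul_factorial j i]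
    push_cast
    ring
  have := dx_spec (i + j)
  rw [e, pow_add, ← dx_spec, ← dx_spec] at this
  linear_combination -this

theorem dx_span (y : A0) : y ∈ Submodule.span Ai (Set.range dx) := by
  obtain ⟨y, hy⟩ := y
  induction hy using Algebra.adjoin_induction with
  | mem x hx =>
    obtain ⟨a, m, ha, e⟩ := hx
    obtain ⟨b, rfl⟩ := th_ker.1 ha
    refine (congrArg (· ∈ _) (a0_fac (m := m) (y := b ^ m • dx m) (Subtype.ext ?_))).mpr
      (Submodule.smul_mem _ _ (Submodule.subset_span ⟨m, rfl⟩))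
    refine e.trans ?_
    rw [mul_smul_comm, dx_spec, map_mul, mul_pow, mul_comm, ← map_pow, ← Algebra.smul_def]
    rfl
  | algebraMap a =>
    have : (⟨algebraMap Ai Bi a, A0.algebraMap_mem a⟩ : A0) = a • dx 0 := by
      rw [dx_zero, ← Algebra.algebraMap_eq_smul_one]; rfl
    exact this ▸ Submodule.smul_mem _ _ (Submodule.subset_span ⟨0, rfl⟩)
  | add x y hx hy a b => exact Submodule.add_mem _ a b
  | mul x y hx hy a b =>
    change (⟨x, hx⟩ * ⟨y, hy⟩ : A0) ∈ _
    generalize (⟨x, hx⟩ : A0) = x at a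
    generalize (⟨y, hy⟩ : A0) = y at b
    induction a using Submodule.span_induction with
    | zero => simp
    | add _ _ _ _ p q => rw [add_mul]; exact Submodule.add_mem _ p q
    | smul c _ _ p => rw [smul_mul_assoc]; exact Submodule.smul_mem _ _ p
    | mem _ h =>
      obtain ⟨i, rfl⟩ := h
      induction b using Submodule.span_induction with
      | zero => simp
      | add _ _ _ _ p q => rw [mul_add]; exact Submodule.add_mem _ p q
      | smul c _ _ p => rw [mul_smul_comm]; exact Submodule.smul_mem _ _ p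
      | mem _ h =>
        obtain ⟨j, rfl⟩ := h
        rw [dx_mul, ← nsmul_eq_mul]
        exact nsmul_mem (Submodule.subset_span (Set.mem_range_self _)) _

theorem exDp : ∃ d : ℕ → A0, (∀ m, (m ! : A0) * d m = algebraMap Ai A0 xi ^ m) ∧
    ∀ y : A0, y ∈ Submodule.span Ai (Set.range d) := ⟨dx, dx_spec, dx_span⟩

/-- a map into a ring sends everything to a subring that contains the generators -/
theorem a0_sub {X : Type} [CommRing X] (f : A0 →+* X) (S : Subring X)
    (h1 : ∀ a, f (algebraMap Ai A0 a) ∈ S) (h2 : ∀ m, f (dx m) ∈ S) (y : A0) : f y ∈ S := by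
  induction dx_span y using Submodule.span_induction with
  | zero => simp
  | add _ _ _ _ p q => rw [map_add]; exact S.add_mem p q
  | smul c _ _ p => rw [Algebra.smul_def, map_mul]; exact S.mul_mem (h1 c) p
  | mem _ h => obtain ⟨i, rfl⟩ := h; exact h2 i

theorem dx_two : 2 * dx 2 = algebraMap Ai A0 xi ^ 2 := by simpa using dx_spec 2

theorem pv_eq : pv = xi ^ 2 - 2 * xi := by unfold pv xi; ring

theorem exTa : ∃ τ : A0, 2 * τ = algebraMap Ai A0 pv ∧ 2 ∣ τ ^ 2 := by
  refine ⟨dx 2 - algebraMap Ai A0 xi, ?_, 3 * dx 4 - dx 2 * algebraMap Ai A0 xi + dx 2, ?_⟩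
  · rw [pv_eq, map_sub, map_mul, map_pow, map_ofNat, ← dx_two]; ring
  · have : dx 2 * dx 2 = 6 * dx 4 := by simpa [Nat.choose] using dx_mul 2 2
    linear_combination this - dx_two

theorem a0_sq {a : Ai} (h : 2 ∣ th a) : 2 ∣ algebraMap Ai A0 a ^ 2 :=
  ⟨⟨_, dpw_mem h 2⟩, Subtype.ext (dpw_spec 2 (algebraMap Ai Bi a)).symm⟩

theorem a0_four {a : Ai} (h : 2 ∣ th a - 1) : 4 ∣ algebraMap Ai A0 a ^ 4 - 1 := by
  obtain ⟨w, hw⟩ := a0_sq (a := a - 1) (by rwa [map_sub, map_one])
  rw [map_sub, map_one] at hw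
  generalize algebraMap Ai A0 a = x at hw
  exact ⟨(x - 1) + 3 * w + (x - 1) ^ 3 + w ^ 2, by
    linear_combination (6 + (x - 1) ^ 2 + 2 * w) * hw⟩

theorem exOv0 (h : 2 ∣ th (WittVector.map u xi)) : ∃ r : A0 →+* A0, Ov u r := by
  have t : IsUnit (((algebraMap Ai Bi).comp (WittVector.map u)) ((2 : ℕ) : Ai)) := by
    rw [map_natCast]; exact bi_nat two_ne_zero
  let R : Bi →+* Bi := IsLocalization.Away.lift ((2 : ℕ) : Ai) t
  have hR : ∀ a, R (algebraMap Ai Bi a) = algebraMap Ai Bi (WittVector.map u a) :=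
    IsLocalization.Away.lift_eq _ t
  refine ⟨(R.comp A0.val.toRingHom).codRestrict A0.toSubring (a0_sub _ _ (fun a => ?_) fun m => ?_),
    fun a => Subtype.ext (hR a)⟩
  · exact (hR a).symm ▸ A0.algebraMap_mem _
  · change R (dpw m (algebraMap Ai Bi xi)) ∈ A0
    rw [dpw_eq (y := R _) (m := m) (x := algebraMap Ai Bi (WittVector.map u xi))
      (by rw [← hR, ← map_pow, ← dpw_spec, map_mul, map_natCast])]
    exact dpw_mem h m

theorem a0_den (y : A0) : ∃ (N : ℕ) (a : Ai), 2 ^ N * y = algebraMap Ai A0 a := by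
  obtain ⟨N, a, e⟩ := IsLocalization.Away.surj ((2 : ℕ) : Ai) y.1
  rw [map_natCast, mul_comm] at e
  exact ⟨N, a, Subtype.ext e⟩

theorem a0_ext {X : Type} [CommRing X] (f f' : A0 →+* X) (h2 : ∀ x : X, 2 * x = 0 → x = 0)
    (h : ∀ a, f (algebraMap Ai A0 a) = f' (algebraMap Ai A0 a)) : f = f' := by
  have c : ∀ (N : ℕ) (x : X), 2 ^ N * x = 0 → x = 0 := by
    intro N
    induction N with
    | zero => simp
    | succ N ih => exact fun x hx => ih x (h2 _ (by rw [← hx]; ring))
  ext y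
  obtain ⟨N, a, e⟩ := a0_den y
  have := h a
  rw [← e, map_mul, map_mul, map_pow, map_pow, map_ofNat, map_ofNat] at this
  exact sub_eq_zero.1 (c N _ (by rw [mul_sub, this, sub_self]))

theorem fr_eta : WittVector.map fr (teichmuller 2 SelTwo.eta) = teichmuller 2 SelTwo.eta ^ 2 := by
  rw [WittVector.map_teichmuller, frobenius_def, map_pow]

theorem fr_xi : WittVector.map fr xi = 2 + pv := by
  rw [xi, map_add, map_one, fr_eta, pv]; ring

theorem fr_pv : WittVector.map fr pv = pv * (2 + pv) := by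
  rw [pv, map_sub, map_one, map_pow, fr_eta]; ring

theorem fr_poly {r : A0 →+* A0} (h : Ov fr r) {τ : A0} (hτ : 2 * τ = algebraMap Ai A0 pv) (y : A0) :
    ∃ f : Ai[X], aeval τ f = r y := by
  refine a0_sub r (aeval τ : Ai[X] →ₐ[Ai] A0).range.toSubring (fun a => ?_) (fun m => ?_) y
  · exact ⟨C (WittVector.map fr a), (aeval_C _ _).trans (h a).symm⟩
  · obtain ⟨c, hc⟩ := two_fact m
    refine ⟨C c * (1 + X) ^ m, a0_fac (m := m) ?_⟩
    have := congrArg r (dx_spec m)
    rw [map_mul, map_natCast, map_pow, h, fr_xi, map_add, map_ofNat, ← hτ] at this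
    have e := congrArg (algebraMap Ai A0) hc
    rw [map_mul, map_natCast, map_pow, map_ofNat] at e
    simp only [AlgHom.toRingHom_eq_coe, RingHom.coe_coe, map_mul, aeval_C, map_pow, map_add,
      map_one, aeval_X]
    rw [this, ← mul_assoc, e, ← mul_pow]
    ring

theorem fr_dec {r : A0 →+* A0} (h : Ov fr r) {τ : A0} (hτ : 2 * τ = algebraMap Ai A0 pv) (y : A0) :
    ∃ a b, r y = algebraMap Ai A0 a + τ * b := by
  obtain ⟨f, hf⟩ := fr_poly h hτ y
  refine ⟨f.coeff 0, aeval τ f.divX, ?_⟩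
  conv_lhs => rw [← hf, ← X_mul_divX_add f]
  rw [map_add, map_mul, aeval_X, aeval_C, add_comm]

theorem two_pv {a : Ai} {d : ℕ} (h : 2 ∣ a * pv ^ d) : 2 ∣ a := by
  have h0 : 1 + SelTwo.eta ≠ 0 := fun e => by
    have := eta_nm
    have e2 : 1 + SelTwo.eta = (1 + SelTwo.eta) * (1 + SelTwo.eta) := by rw [e, mul_zero]
    rw [e2, map_mul, MulMemClass.coe_mul, norm_mul, eta_nm] at this
    norm_num at this
  have h1 : WittVector.constantCoeff pv = (1 + SelTwo.eta) ^ 2 := by
    rw [pv, map_sub, map_pow, map_one, WittVector.constantCoeff_apply, teichmuller_coeff_zero,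
      add_pow_char, one_pow, CharTwo.sub_eq_add, add_comm]
  rw [ai_two, ← WittVector.constantCoeff_apply, map_mul, map_pow, h1] at h
  exact ai_two.2 ((mul_eq_zero.1 h).resolve_right (pow_ne_zero _ (pow_ne_zero _ h0)))

theorem ker_tau {τ : A0} (hτ : 2 * τ = algebraMap Ai A0 pv) (d : ℕ) :
    ∀ F : Ai[X], F.natDegree ≤ d → aeval τ F = 0 →
      F.map (Ideal.Quotient.mk (span {2, pv})) = 0 := by
  have m2 : Ideal.Quotient.mk (span {2, pv}) (2 : Ai) = 0 :=
    Ideal.Quotient.eq_zero_iff_mem.2 (subset_span (by simp))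
  have mp : Ideal.Quotient.mk (span {2, pv}) pv = 0 :=
    Ideal.Quotient.eq_zero_iff_mem.2 (subset_span (by simp))
  induction d with
  | zero =>
    intro F hF h
    rw [eq_C_of_natDegree_le_zero hF, aeval_C, map_eq_zero_iff _ a0_inj] at h
    rw [eq_C_of_natDegree_le_zero hF, h, C_0, Polynomial.map_zero]
  | succ d ih =>
    intro F hF h
    have e : ∑ i ∈ Finset.range (d + 2), F.coeff i * pv ^ i * 2 ^ (d + 1 - i) = 0 := by
      refine (map_eq_zero_iff _ a0_inj).1 ?_
      rw [aeval_eq_sum_range' (Nat.lt_succ_of_le hF)] at h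
      rw [← mul_zero (2 ^ (d + 1) : A0), ← h, map_sum, Finset.mul_sum]
      refine Finset.sum_congr rfl fun i hi => ?_
      obtain ⟨j, hj⟩ := Nat.exists_eq_add_of_le (Nat.lt_succ_iff.1 (Finset.mem_range.1 hi))
      rw [map_mul, map_mul, map_pow, map_pow, ← hτ, map_ofNat, Algebra.smul_def, hj,
        Nat.add_sub_cancel_left]
      ring
    rw [Finset.sum_range_succ, Nat.sub_self, pow_zero, mul_one, add_comm,
      add_eq_zero_iff_eq_neg] at e
    obtain ⟨c, hc⟩ := two_pv (e ▸ (dvd_neg.2 (Finset.dvd_sum fun i hi => Dvd.dvd.mul_left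
      (dvd_pow_self 2 (by rw [Finset.mem_range] at hi; omega)) _)))
    have := ih (F - C c * (C 2 * X ^ (d + 1) - C pv * X ^ d)) (natDegree_le_iff_coeff_eq_zero.2
      fun i hi => by
        rw [coeff_sub, coeff_C_mul, coeff_sub, coeff_C_mul_X_pow, coeff_C_mul_X_pow,
          if_neg hi.ne']
        split_ifs with h1
        · rw [h1, hc]; ring
        · rw [coeff_eq_zero_of_natDegree_lt (by omega)]; ring) (by
        simp only [map_sub, map_mul, aeval_C, map_pow, aeval_X, h, ← hτ, map_ofNat]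
        ring)
    simpa only [Polynomial.map_sub, Polynomial.map_mul, Polynomial.map_C, m2, mp, C_0, zero_mul,
      sub_zero, mul_zero] using this

theorem tau_div {τ : A0} (hτ : 2 * τ = algebraMap Ai A0 pv) {f g : Ai[X]}
    (h : τ * (1 + τ) * aeval τ f = 2 * aeval τ g) : ∃ f' : Ai[X], aeval τ f = 2 * aeval τ f' := by
  have m2 : Ideal.Quotient.mk (span {2, pv}) (2 : Ai) = 0 :=
    Ideal.Quotient.eq_zero_iff_mem.2 (subset_span (by simp))
  have := ker_tau hτ _ (X * (X + C 1) * f - C 2 * g) le_rfl (by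
    simp only [map_sub, map_mul, map_add, aeval_X, map_ofNat, map_one]
    linear_combination h)
  simp only [Polynomial.map_sub, Polynomial.map_mul, Polynomial.map_C, Polynomial.map_add,
    Polynomial.map_X, m2, C_0, zero_mul, sub_zero] at this
  rw [(monic_X.mul (monic_X_add_C _)).mul_right_eq_zero_iff] at this
  have c : ∀ i, ∃ a b, a * 2 + b * pv = f.coeff i := fun i => mem_span_pair.1 (by
    rw [← Ideal.Quotient.eq_zero_iff_mem, ← coeff_map, this, coeff_zero])
  choose a b hab using c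
  refine ⟨∑ i ∈ Finset.range (f.natDegree + 1), (C (a i) + C (b i) * X) * X ^ i, ?_⟩
  rw [aeval_eq_sum_range, map_sum, Finset.mul_sum]
  refine Finset.sum_congr rfl fun i _ => ?_
  simp only [← hab, Algebra.smul_def, map_add, map_mul, aeval_C, aeval_X, map_pow, map_ofNat, ← hτ]
  ring

theorem fr_nzd {r : A0 →+* A0} (h : Ov fr r) (y : A0) (N : ℕ)
    (hy : 2 ^ (N + 2) ∣ algebraMap Ai A0 pv * y) : 2 ^ N ∣ r y := by
  obtain ⟨τ, hτ, -⟩ := exTa
  obtain ⟨z, hz⟩ := hy
  obtain ⟨f, hf⟩ := fr_poly h hτ y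
  obtain ⟨g, hg⟩ := fr_poly h hτ z
  have e := congrArg r hz
  rw [map_mul, map_mul, map_pow, map_ofNat, h, fr_pv, map_mul, map_add, map_ofNat, ← hτ, ← hf,
    ← hg] at e
  replace e : τ * (1 + τ) * aeval τ f = 2 ^ N * aeval τ g :=
    mul_left_cancel₀ (show (4 : A0) ≠ 0 by norm_num) (by linear_combination e)
  rw [← hf]
  clear hf hz
  induction N generalizing f with
  | zero => simp
  | succ N ih =>
    obtain ⟨f', hf'⟩ := tau_div hτ (f := f) (g := 2 ^ N * g) (by
      rw [e, map_mul, map_pow, map_ofNat]; ring)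
    rw [hf', pow_succ']
    exact mul_dvd_mul_left _ (ih f' (mul_left_cancel₀ (show (2 : A0) ≠ 0 by norm_num)
      (by rw [hf'] at e; linear_combination e)))

theorem exTh0 : ∃ f : A0 →+* OC, ∀ a, f (algebraMap Ai A0 a) = th a := by
  have t : IsUnit (((PadicComplexInt 2).subtype.comp th) ((2 : ℕ) : Ai)) := by
    rw [map_natCast]; exact (Nat.cast_ne_zero.2 two_ne_zero).isUnit
  let R : Bi →+* ℂ_[2] := IsLocalization.Away.lift ((2 : ℕ) : Ai) t
  have hR : ∀ a, R (algebraMap Ai Bi a) = th a := IsLocalization.Away.lift_eq _ t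
  refine ⟨(R.comp A0.val.toRingHom).codRestrict (PadicComplexInt 2).toSubring
    (a0_sub _ _ (fun a => ?_) fun m => ?_), fun a => Subtype.ext (hR a)⟩
  · exact (hR a).symm ▸ (th a).2
  · rcases m with _ | m
    · rw [dx_zero, map_one]; exact one_mem _
    · have := congrArg R (dpw_spec (m + 1) (algebraMap Ai Bi xi))
      rw [map_mul, map_natCast, map_pow, hR, th_xi, ZeroMemClass.coe_zero, zero_pow m.succ_ne_zero,
        mul_eq_zero_iff_left (Nat.cast_ne_zero.2 (Nat.factorial_ne_zero _))] at this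
      exact this.symm ▸ zero_mem _

end Pool.Agent.HF
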