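import Pool.Agent.Lib.MP_b4b3cb_nt.HF.A0

/-! The ring `A_cris`, the period `t`, surjectivity. -/

namespace Pool.Agent.HF

open NumberField Matrix WittVector Ideal Pool.Agent.SelTwo Module
open scoped TensorProduct Topology Nat Classical

variable {σ : RingAut ℂ_[2]} {u : Ti →+* Ti}

theorem ai_ac (a : Ai) : algebraMap Ai Ac a = algebraMap A0 Ac (algebraMap Ai A0 a) :=
  IsScalarTower.algebraMap_apply Ai A0 Ac a

theorem ac2_cpl : Cpl (2 : Ac) := by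
  simpa only [map_ofNat] using ac_cpl (I := span {(2 : A0)}) rfl

theorem ac2_nzd (x : Ac) (h : 2 * x = 0) : x = 0 :=
  ac_nzd (I := span {(2 : A0)}) rfl (fun _ e => (mul_eq_zero.1 e).resolve_left two_ne_zero) x
    (by rwa [map_ofNat])

/-- with the compatibility with an endomorphism of `A0` -/
theorem exOvC (h : 2 ∣ th (WittVector.map u xi)) : ∃ (r : Ac →+* Ac) (r₀ : A0 →+* A0),
    Ov u r ∧ Ov u r₀ ∧ ∀ y, r (algebraMap A0 Ac y) = algebraMap A0 Ac (r₀ y) := by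
  obtain ⟨r₀, h0⟩ := exOv0 h
  obtain ⟨r, hr⟩ := ac_lift (I := span {(2 : A0)}) rfl ((algebraMap A0 Ac).comp r₀) ac2_cpl
    (by rw [map_ofNat])
  exact ⟨r, r₀, fun a => by rw [ai_ac, hr, RingHom.comp_apply, h0, ai_ac], h0, hr⟩

theorem ac_uniq {X : Type} [CommRing X] (f f' : Ac →+* X) (h2 : ∀ x : X, 2 * x = 0 → x = 0)
    (sep : ∀ x : X, (∀ N, 2 ^ N ∣ x) → x = 0)
    (h : ∀ a, f (algebraMap Ai Ac a) = f' (algebraMap Ai Ac a)) : f = f' :=
  ac_ext (I := span {(2 : A0)}) rfl f f' (by simpa only [map_ofNat] using sep)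
    (RingHom.congr_fun (a0_ext (f.comp (algebraMap A0 Ac)) (f'.comp (algebraMap A0 Ac)) h2 h))

theorem exTc : ∃ f : Ac →+* OC, ∀ a, f (algebraMap Ai Ac a) = th a := by
  obtain ⟨f, hf⟩ := exTh0
  obtain ⟨F, hF⟩ := ac_lift (I := span {(2 : A0)}) rfl f oc_cpl (by rw [map_ofNat])
  exact ⟨F, fun a => by rw [ai_ac, hF, hf]⟩

/-- `4 l` is the logarithm of the fourth power of `[z]`. -/
def Lz (z : Ti) (l : Ac) : Prop := Lg (algebraMap Ai Ac (teichmuller 2 z) ^ 4) l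

namespace Lz

variable {z z' : Ti} {l l' : Ac}

theorem ex (h : 2 ∣ z.untilt - 1) : ∃ l, Lz z l := by
  obtain ⟨x, hx⟩ := map_dvd (algebraMap A0 Ac) (a0_four (a := teichmuller 2 z)
    (by rwa [fontaineTheta_teichmuller]))
  rw [map_sub, map_pow, map_one, map_ofNat, ← ai_ac, sub_eq_iff_eq_add'] at hx
  obtain ⟨y, hy⟩ := lg_ex ac2_cpl x
  exact ⟨_, by rw [Lz, hx]; exact hy⟩

theorem uniq (a : Lz z l) (b : Lz z l') : l = l' := Lg.uniq ac2_cpl ac2_nzd a b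

theorem mul (a : Lz z l) (b : Lz z' l') : Lz (z * z') (l + l') := by
  rw [Lz, map_mul, map_mul, mul_pow]
  exact Lg.mul a b

theorem pow (a : Lz z l) (k : ℕ) : Lz (z ^ k) (k * l) := by
  rw [Lz, map_pow, map_pow, pow_right_comm]
  exact Lg.pow a k

theorem map (a : Lz z l) {r : Ac →+* Ac} (h : Ov u r) : Lz (u z) (r l) := by
  have := Lg.map a r
  rwa [map_pow, h, map_teichmuller] at this

theorem fr (a : Lz z l) {ph : Ac →+* Ac} (h : Ov fr ph) : ph l = 2 * l :=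
  (a.map h).uniq (a.pow 2)

theorem chi {t : Ac} (ht : Lz eta t) (hσ : Lf σ u) {r : Ac →+* Ac} (hr : Ov u r) :
    r t = algebraMap Ai Ac (zp (cyclotomicCharacter ℂ_[2] 2 σ)) * t := by
  refine sub_eq_zero.1 (ac2_cpl.1 _ fun N => ?_)
  obtain ⟨ε, hε⟩ : ∃ ε : Ti, ε ^ 2 ^ N = eta :=
    ⟨(frobeniusEquiv Ti 2).symm^[N] eta, by simp⟩
  obtain ⟨a, ha⟩ : ∃ a, a = ((cyclotomicCharacter ℂ_[2] 2 σ).val.toZModPow (N + 1)).val :=
    ⟨_, rfl⟩
  obtain ⟨m, hm⟩ : ∃ m, 2 ^ (N + 1) = m + 1 :=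
    Nat.exists_eq_succ_of_ne_zero (pow_ne_zero _ two_ne_zero)
  have z1 : ε.untilt ^ 2 ^ (N + 1) = 1 := by
    rw [pow_succ, pow_mul, ← map_pow, hε, eta_un, neg_one_sq]
  have z2 : (u ε).untilt = ε.untilt ^ a := Subtype.ext (by
    rw [hσ.2, ha, cyclotomicCharacter.spec 2 σ _ (by exact_mod_cast congrArg Subtype.val z1)]
    rfl)
  obtain ⟨d, hd⟩ := Lz.ex (z := u ε * (ε ^ a) ^ m) (by
    rw [map_mul, z2, map_pow, map_pow, ← pow_succ', ← hm, pow_right_comm, z1, one_pow, sub_self]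
    exact dvd_zero _)
  have e3 := hd.pow (2 ^ N)
  rw [mul_pow, ← map_pow, pow_right_comm _ m, pow_right_comm _ a, hε] at e3
  have e4 := e3.uniq ((ht.map hr).mul ((ht.pow a).pow m))
  obtain ⟨b, hb⟩ : (2 : ℤ_[2]) ^ (N + 1) ∣ (cyclotomicCharacter ℂ_[2] 2 σ).val - a := by
    have : (cyclotomicCharacter ℂ_[2] 2 σ).val - a ∈ RingHom.ker (PadicInt.toZModPow (N + 1)) := by
      rw [RingHom.mem_ker, map_sub, map_natCast, ha, ZMod.natCast_zmod_val, sub_self]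
    rwa [PadicInt.ker_toZModPow, mem_span_singleton] at this
  have e5 := congrArg (fun x => algebraMap Ai Ac (zp x)) hb
  simp only [map_sub, map_mul, map_pow, map_natCast, map_ofNat] at e5
  have e6 : (2 : Ac) ^ (N + 1) = m + 1 := by exact_mod_cast congrArg (Nat.cast : ℕ → Ac) hm
  rw [Nat.cast_pow, show ((2 : ℕ) : Ac) = 2 from rfl] at e4
  exact ⟨d - 2 * a * t - 2 * algebraMap Ai Ac (zp b) * t, by
    linear_combination -e4 - t * e5 + a * t * e6⟩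

end Lz

theorem exT : ∃ t : Ac, (∃ U : Acˣ, 2 * t = algebraMap Ai Ac pv * U) ∧
    (∀ ph : Ac →+* Ac, Ov fr ph → ph t = 2 * t) ∧ ∀ σ u (r : Ac →+* Ac), Lf σ u → Ov u r →
      r t = algebraMap Ai Ac (zp (cyclotomicCharacter ℂ_[2] 2 σ)) * t := by
  obtain ⟨τ₀, h1, c, h2⟩ := exTa
  obtain ⟨τ, hτ⟩ : ∃ τ, τ = algebraMap A0 Ac τ₀ := ⟨_, rfl⟩
  have e1 : 2 * τ = algebraMap Ai Ac pv := by rw [ai_ac, ← h1, map_mul, map_ofNat, hτ]
  have e2 : τ ^ 2 = 2 * algebraMap A0 Ac c := by rw [hτ, ← map_pow, h2, map_mul, map_ofNat]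
  obtain ⟨y, hy⟩ := lg_ex ac2_cpl (τ * (1 + τ))
  have ht : Lz eta (τ * (1 + τ) * (1 + 2 * y)) := by
    have := e1
    rw [pv, map_sub, map_pow, map_one] at this
    rw [Lz, show algebraMap Ai Ac (teichmuller 2 eta) ^ 4 = 1 + 4 * (τ * (1 + τ)) by
      linear_combination (-(algebraMap Ai Ac (teichmuller 2 eta) ^ 2 + 1 + 2 * τ)) * this]
    exact hy
  have u1 : IsUnit (1 + τ) := isUnit_of_mul_isUnit_left (y := 1 - τ) (by
    rw [show (1 + τ) * (1 - τ) = 1 + 2 * -algebraMap A0 Ac c by linear_combination -e2]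
    exact ac2_cpl.unit _)
  exact ⟨_, ⟨(u1.mul (ac2_cpl.unit y)).unit, by rw [IsUnit.unit_spec, ← e1]; ring⟩,
    fun ph h => ht.fr h, fun σ u r hσ hr => ht.chi hσ hr⟩

theorem c_s1 {ph : Ac →+* Ac} (hph : Ov fr ph) {f : Ac →+* OC}
    (hf : ∀ a, f (algebraMap Ai Ac a) = th a) (y : OC) : ∃ x, ph x = 2 * x ∧ f x = 4 * y := by
  obtain ⟨c, hc⟩ := iter (q := (2 : OC))
    (fun p : {p : Ac × OC // ph p.1 = 2 * p.1 ∧ f p.1 = 4 * p.2} => p.1.2) Set.univ (fun y _ => by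
      obtain ⟨z, hz⟩ := un_surj (1 + 4 * y)
      obtain ⟨l, hl⟩ := Lz.ex (z := z) ⟨2 * y, by rw [hz]; ring⟩
      obtain ⟨y', hy⟩ := lg_ex oc_cpl y
      have := Lg.map hl f
      rw [map_pow, hf, fontaineTheta_teichmuller, hz] at this
      exact ⟨⟨(l, y * (1 + 2 * y')), hl.fr hph, Lg.uniq oc_cpl
        (fun _ e => (mul_eq_zero.1 e).resolve_left two_ne_zero) this (hy.pow 4)⟩, -(y * y'),
        trivial, by ring⟩) (Set.mem_univ y)
  obtain ⟨x, hx⟩ := ac2_cpl.sum fun i => (c i).1.1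
  refine ⟨x, sub_eq_zero.1 (ac2_cpl.1 _ fun N => ?_), sub_eq_zero.1 (oc_cpl.1 _ fun N => ?_)⟩
  · have := (map_dvd ph (hx N))
    rw [map_pow, map_ofNat, map_sub, map_sum] at this
    simp only [map_mul, map_pow, map_ofNat, fun i => (c i).2.1, mul_left_comm _ (2 : Ac),
      ← Finset.mul_sum] at this
    simpa only [mul_sub, sub_sub_sub_cancel_right] using this.sub ((hx N).mul_left 2)
  · have := (map_dvd f (hx N))
    rw [map_pow, map_ofNat, map_sub, map_sum] at this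
    simp only [map_mul, map_pow, map_ofNat, fun i => (c i).2.2, mul_left_comm _ (4 : OC),
      ← Finset.mul_sum] at this
    simpa only [mul_sub, sub_sub_sub_cancel_right] using this.sub ((hc N).mul_left 4)

end Pool.Agent.HF
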