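import Pool.Agent.Lib.MP_b4b3cb_nt.HF.AcA

/-! The kernel statements for the Frobenius of `A_cris`, and continuity of the action. -/

namespace Pool.Agent.HF

open NumberField Matrix WittVector Ideal Pool.Agent.SelTwo Module
open scoped TensorProduct Topology Nat Classical

namespace AcB

theorem ik (a : Ai) : algebraMap Ai Ac a = algebraMap A0 Ac (algebraMap Ai A0 a) := rfl

theorem th_tei (x : Ti) : th (teichmuller 2 x) = x.untilt := fontaineTheta_teichmuller x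

theorem th_eta : th (teichmuller 2 eta) = -1 := by rw [th_tei, eta_un]

theorem map_fr_tei (x : Ti) : WittVector.map fr (teichmuller 2 x) = teichmuller 2 x ^ 2 := by
  rw [map_teichmuller, frobenius_def, map_pow]

theorem th_pv : th pv = 0 := by
  rw [pv, map_sub, map_pow, th_eta, map_one]
  ring

theorem th_fr_xi : 2 ∣ th (WittVector.map fr xi) := by
  rw [xi, map_add, map_one, map_fr_tei, map_add, map_one, map_pow, th_eta]
  exact ⟨1, by ring⟩

theorem map_fr_pv : WittVector.map fr pv = pv * (pv + 2) := by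
  rw [pv, map_sub, map_pow, map_fr_tei, map_one]
  ring

theorem ai_tei (a : Ai) : ∃ b, a = teichmuller 2 (a.coeff 0) + 2 * b := by
  obtain ⟨b, hb⟩ : 2 ∣ a - teichmuller 2 (a.coeff 0) := by
    rw [ai_two, ← constantCoeff_apply, map_sub, constantCoeff_apply, constantCoeff_apply,
      teichmuller_coeff_zero, sub_self]
  exact ⟨b, by rw [← hb]; ring⟩

theorem fr_sq (a : Ai) : 2 ∣ WittVector.map fr a - a ^ 2 := by
  rw [ai_two, ← constantCoeff_apply, map_sub, map_pow, constantCoeff_apply, constantCoeff_apply,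
    map_coeff, frobenius_def, sub_self]

theorem ac2_den (x : Ac) (N : ℕ) : ∃ y z, x = algebraMap A0 Ac y + 2 ^ N * z := by
  obtain ⟨y, z, hz⟩ := ac_den (I := span {(2 : A0)}) rfl x N
  rw [map_ofNat] at hz
  exact ⟨y, z, by rw [← hz]; ring⟩

theorem ac2_pow (N : ℕ) (x : Ac) (h : 2 ^ N * x = 0) : x = 0 := by
  induction N with
  | zero => simpa using h
  | succ N ih => exact ih (ac2_nzd _ (by rw [← h]; ring))

theorem ac_sq {a : Ai} (h : 2 ∣ th a) : 2 ∣ algebraMap Ai Ac a ^ 2 := by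
  have := map_dvd (algebraMap A0 Ac) (a0_sq h)
  rwa [map_ofNat, map_pow] at this

theorem sum_map {A B : Type} [CommRing A] [CommRing B] (h : Cpl (2 : A)) (f : A →+* B)
    (c : ℕ → A) : ∃ l, ∀ N, 2 ^ N ∣ f l - ∑ i ∈ Finset.range N, 2 ^ i * f (c i) := by
  obtain ⟨l, hl⟩ := h.sum c
  refine ⟨l, fun N => ?_⟩
  have := map_dvd f (hl N)
  simpa only [map_sub, map_sum, map_mul, map_pow, map_ofNat] using this

theorem sum_two {C : Type} [CommRing C] {x T a b w : C} {p q c : ℕ → C} {s : Finset ℕ}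
    (h1 : w ∣ x - ∑ i ∈ s, c i * (p i + T * q i)) (h2 : w ∣ a - ∑ i ∈ s, c i * p i)
    (h3 : w ∣ b - ∑ i ∈ s, c i * q i) : w ∣ x - (a + T * b) := by
  have := dvd_sub (dvd_sub h1 h2) (h3.mul_left T)
  simp only [mul_add, Finset.sum_add_distrib, mul_left_comm _ T, ← Finset.mul_sum] at this
  exact this.trans (dvd_of_eq (by ring))

theorem k_smul (b : Ai) (x : A0) :
    algebraMap A0 Ac (b • x) = algebraMap Ai Ac b * algebraMap A0 Ac x := by
  rw [ik, ← map_mul]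
  exact congrArg _ (Algebra.smul_def b x)

theorem zp_cpl : Cpl (2 : ℤ_[2]) := by
  rw [cpl_iff]
  have : IsAdicComplete (IsLocalRing.maximalIdeal ℤ_[2]) ℤ_[2] := inferInstance
  rwa [PadicInt.maximalIdeal_eq_span_p] at this

section H4b
variable {ph : Ac →+* Ac} (hph : Ov fr ph)
include hph

theorem ph_k : ∃ r₀ : A0 →+* A0, Ov fr r₀ ∧
    ∀ y, ph (algebraMap A0 Ac y) = algebraMap A0 Ac (r₀ y) := by
  obtain ⟨r, r₀, h1, h2, h3⟩ := exOvC th_fr_xi
  obtain rfl : ph = r := ac_uniq ph r ac2_nzd ac2_cpl.1 fun a => (hph a).trans (h1 a).symm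
  exact ⟨r₀, h2, h3⟩

theorem ph_step : ∃ T : Ac, 2 * T = algebraMap Ai Ac pv ∧
    ∀ x, ∃ a b z, ph x = algebraMap Ai Ac a + T * b + 2 * ph z := by
  obtain ⟨τ, hτ, -⟩ := exTa
  obtain ⟨r₀, h0, h1⟩ := ph_k hph
  refine ⟨algebraMap A0 Ac τ, ?_, fun x => ?_⟩
  · have := congrArg (algebraMap A0 Ac) hτ
    rwa [map_mul, map_ofNat, ← ik] at this
  obtain ⟨y, z, e1⟩ := ac2_den x 1
  obtain ⟨a, b, e⟩ := fr_dec h0 hτ y
  have e2 := congrArg (algebraMap A0 Ac) e
  rw [map_add, map_mul, ← ik, ← h1] at e2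
  have e3 := congrArg ph e1
  rw [map_add, pow_one, map_mul, map_ofNat, e2] at e3
  exact ⟨a, _, z, e3⟩

theorem ph_dec : ∃ T : Ac, 2 * T = algebraMap Ai Ac pv ∧ ph T = T * (2 * (T + 1)) ∧
    ∀ x, ∃ a b, ph x = algebraMap Ai Ac a + T * b := by
  obtain ⟨T, e, st⟩ := ph_step hph
  refine ⟨T, e, ?_, fun x => ?_⟩
  · have e2 := hph pv
    rw [map_fr_pv, map_mul, map_add, map_ofNat, ← e, map_mul, map_ofNat] at e2
    exact sub_eq_zero.1 (ac2_nzd _ (by linear_combination e2))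
  obtain ⟨c, hc⟩ := iter (q := (2 : Ac)) (fun c : Ai × Ac => algebraMap Ai Ac c.1 + T * c.2)
    (Set.range ph) (by
      rintro _ ⟨x, rfl⟩
      obtain ⟨a, b, z, e⟩ := st x
      exact ⟨(a, b), ph z, ⟨z, rfl⟩, e⟩) ⟨x, rfl⟩
  obtain ⟨a, ha⟩ := sum_map ai_cpl (algebraMap Ai Ac) fun i => (c i).1
  obtain ⟨b, hb⟩ := ac2_cpl.sum fun i => (c i).2
  exact ⟨a, b, sub_eq_zero.1 (ac2_cpl.1 _ fun N => sum_two (hc N) (ha N) (hb N))⟩

theorem c_k0a {x : Ac} (h : ph x = x) : ∃ c : ℤ_[2], ∃ y, ph y = y ∧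
    x = algebraMap Ai Ac (zp c) + 2 * y := by
  obtain ⟨T, -, hT, dec⟩ := ph_dec hph
  obtain ⟨f, hf⟩ := exTc
  obtain ⟨a₀, b, e⟩ := dec x
  obtain ⟨a, h1⟩ : ∃ a, 2 ∣ x - algebraMap Ai Ac a := by
    have e2 := congrArg ph e
    rw [h, h, map_add, map_mul, hph, hT] at e2
    exact ⟨_, T * (T + 1) * ph b, by linear_combination e2⟩
  have h2 : 2 ∣ x - algebraMap Ai Ac a ^ 2 := by
    have e1 := map_dvd ph h1
    have e2 := map_dvd (algebraMap Ai Ac) (fr_sq a)
    rw [map_ofNat, map_sub, h, hph] at e1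
    rw [map_ofNat, map_sub, map_pow] at e2
    exact (dvd_add e1 e2).trans (dvd_of_eq (by ring))
  have h3 : 2 ∣ th a * (1 - th a) := by
    have e1 := map_dvd f (dvd_sub h2 h1)
    simp only [map_ofNat, map_sub, map_pow, hf] at e1
    exact e1.trans (dvd_of_eq (by ring))
  have key : ∀ c : ℤ_[2], 2 ∣ x - algebraMap Ai Ac (zp c) → ∃ c : ℤ_[2], ∃ y, ph y = y ∧
      x = algebraMap Ai Ac (zp c) + 2 * y := fun c ⟨y, hy⟩ => by
    refine ⟨c, y, sub_eq_zero.1 (ac2_nzd _ ?_), by rw [← hy]; ring⟩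
    have e1 := congrArg ph hy
    rw [map_sub, h, hph, map_zp, map_mul, map_ofNat] at e1
    linear_combination hy - e1
  rcases IsLocalRing.isUnit_or_isUnit_one_sub_self (th a) with u | u
  · refine key 1 ?_
    have e1 := ac_sq (a := 1 - a) (by rw [map_sub, map_one]; exact u.dvd_mul_left.1 h3)
    rw [map_sub, map_one] at e1
    rw [map_one, map_one]
    exact (dvd_add (dvd_add h2 e1) (Dvd.intro (algebraMap Ai Ac a - 1) rfl)).trans
      (dvd_of_eq (by ring))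
  · refine key 0 ?_
    rw [map_zero, map_zero]
    exact (dvd_add h2 (ac_sq (u.dvd_mul_right.1 h3))).trans (dvd_of_eq (by ring))

theorem _root_.Pool.Agent.HF.c_k0 {x : Ac} (h : ph x = x) : ∃ c : ℤ_[2], x = algebraMap Ai Ac (zp c) := by
  obtain ⟨c, hc⟩ := iter (q := (2 : Ac)) (fun c : ℤ_[2] => algebraMap Ai Ac (zp c))
    {x | ph x = x} (fun y hy => c_k0a hph hy) (y := x) h
  obtain ⟨l, hl⟩ := sum_map zp_cpl ((algebraMap Ai Ac).comp zp) c
  refine ⟨l, sub_eq_zero.1 (ac2_cpl.1 _ fun N => ?_)⟩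
  exact (dvd_sub (hc N) (hl N)).trans (dvd_of_eq (sub_sub_sub_cancel_right _ _ _))

theorem _root_.Pool.Agent.HF.c_nzd {y : Ac} (h : algebraMap Ai Ac pv * y = 0) : ph y = 0 := by
  obtain ⟨r₀, h0, h1⟩ := ph_k hph
  refine ac2_cpl.1 _ fun N => ?_
  obtain ⟨a, z, rfl⟩ := ac2_den y (N + 2)
  have e1 : algebraMap A0 Ac 2 ^ (N + 2) ∣ algebraMap A0 Ac (algebraMap Ai A0 pv * a) := by
    rw [map_ofNat, map_mul, ← ik]
    exact ⟨-(algebraMap Ai Ac pv * z), by linear_combination h⟩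
  have e2 := map_dvd (algebraMap A0 Ac)
    (fr_nzd h0 a N ((ac_dvd (I := span {(2 : A0)}) rfl).1 e1))
  rw [map_pow, map_ofNat, ← h1] at e2
  rw [map_add, map_mul, map_pow, map_ofNat]
  exact dvd_add e2 ((pow_dvd_pow 2 (by omega)).mul_right _)

theorem _root_.Pool.Agent.HF.c_k1 {f : Ac →+* OC} (hf : ∀ a, f (algebraMap Ai Ac a) = th a) {t : Ac} {U : Acˣ}
    (hU : 2 * t = algebraMap Ai Ac pv * U) (ht : ph t = 2 * t) {m : ℕ} {x : Ac}
    (h : ph x = 2 ^ (m + 1) * x) (h0 : f x = 0) :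
    ∃ (i : ℕ) (y : Ac), ph y = 2 ^ m * y ∧ 2 ^ i * x = t * y := by
  obtain ⟨T, h2, hT, dec⟩ := ph_dec hph
  have fT : f T = 0 := by
    have := congrArg f h2
    rw [map_mul, map_ofNat, hf, th_pv] at this
    exact (mul_eq_zero.1 this).resolve_left two_ne_zero
  obtain ⟨a, b, e⟩ := dec x
  have k : ∀ k, ∃ b c, c * x = algebraMap Ai Ac ((WittVector.map fr)^[k] a) + T * b := fun k => by
    induction k with
    | zero => exact ⟨b, _, h.symm.trans e⟩
    | succ k ih =>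
      obtain ⟨b, c, e⟩ := ih
      have := congrArg ph e
      rw [map_mul, h, map_add, hph, map_mul, hT] at this
      rw [Function.iterate_succ_apply']
      exact ⟨2 * (T + 1) * ph b, ph c * 2 ^ (m + 1), by linear_combination this⟩
  obtain ⟨a', rfl⟩ := th_font (a := a) fun i => by
    obtain ⟨b, c, e⟩ := k i
    have := congrArg f e
    rwa [map_mul, h0, mul_zero, map_add, map_mul, fT, zero_mul, add_zero, hf, eq_comm] at this
  have tU : t = T * U := sub_eq_zero.1 (ac2_nzd _ (by linear_combination hU - h2 * (U : Ac)))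
  obtain ⟨b', e1⟩ : ∃ b', 2 ^ (m + 1) * x = t * b' :=
    ⟨(U⁻¹ : Acˣ) * (2 * algebraMap Ai Ac a' + b), by
      rw [← h, e, map_mul, ← h2, tU, mul_assoc T, Units.mul_inv_cancel_left]
      ring⟩
  have e2 := congrArg ph e1
  rw [map_mul, map_pow, map_ofNat, h, map_mul, ht] at e2
  have e3 : algebraMap Ai Ac pv * (2 ^ m * b' - ph b') = 0 := by
    refine U.mul_right_eq_zero.1 ?_
    linear_combination e2 - 2 ^ (m + 1) * e1 - (2 ^ m * b' - ph b') * hU
  have e4 := c_nzd hph e3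
  rw [map_sub, map_mul, map_pow, map_ofNat] at e4
  exact ⟨2 * m + 1, ph b', by linear_combination -e4,
    sub_eq_zero.1 (ac2_nzd _ (by linear_combination e2))⟩

omit hph

theorem _root_.Pool.Agent.HF.c_ct {G : Type} [TopologicalSpace G] {a : G → RingAut ℂ_[2]} {u : G → Ti →+* Ti}
    (h : ∀ g, Lf (a g) (u g)) (hc : ∀ y, Continuous fun g => a g y) {r : G → Ac →+* Ac}
    (hr : ∀ g, Ov (u g) (r g)) (x : Ac) (N : ℕ) (g₀ : G) :
    ∀ᶠ g in 𝓝 g₀, 2 ^ N ∣ r g x - r g₀ x := by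
  have add : ∀ {N : ℕ} {x y : Ac}, (∀ᶠ g in 𝓝 g₀, 2 ^ N ∣ r g x - r g₀ x) →
      (∀ᶠ g in 𝓝 g₀, 2 ^ N ∣ r g y - r g₀ y) → ∀ᶠ g in 𝓝 g₀, 2 ^ N ∣ r g (x + y) - r g₀ (x + y) :=
    fun h1 h2 => by
      filter_upwards [h1, h2] with g a1 a2
      rw [map_add, map_add]
      exact (dvd_add a1 a2).trans (dvd_of_eq (by ring))
  have mul : ∀ {N : ℕ} {x y : Ac}, (∀ᶠ g in 𝓝 g₀, 2 ^ N ∣ r g x - r g₀ x) →
      (∀ᶠ g in 𝓝 g₀, 2 ^ N ∣ r g y - r g₀ y) → ∀ᶠ g in 𝓝 g₀, 2 ^ N ∣ r g (x * y) - r g₀ (x * y) :=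
    fun {N x y} h1 h2 => by
      filter_upwards [h1, h2] with g a1 a2
      rw [map_mul, map_mul]
      exact (dvd_add (a1.mul_right (r g y)) (a2.mul_left (r g₀ x))).trans (dvd_of_eq (by ring))
  have tei : ∀ (N : ℕ) (x : Ti), ∀ᶠ g in 𝓝 g₀, 2 ^ (N + 1) ∣
      r g (algebraMap Ai Ac (teichmuller 2 x)) - r g₀ (algebraMap Ai Ac (teichmuller 2 x)) := by
    intro N x
    obtain ⟨x, rfl⟩ := (bijective_iterateFrobenius Ti 2 (N + 1)).2 x
    filter_upwards [ti_near h hc x g₀] with g ⟨e, he⟩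
    have e1 : 2 ∣ teichmuller 2 (u g x) - teichmuller 2 (u g₀ x) - xi * teichmuller 2 e := by
      rw [ai_two, ← constantCoeff_apply, xi]
      simp only [map_sub, map_mul, map_add, map_one, constantCoeff_apply, teichmuller_coeff_zero,
        he, sub_self]
    have e2 := map_dvd th e1
    rw [map_ofNat, map_sub, map_mul, th_ker.2 dvd_rfl, zero_mul, sub_zero] at e2
    have e3 := ac_sq e2
    rw [map_sub] at e3
    set A := algebraMap Ai Ac (teichmuller 2 (u g x))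
    set B := algebraMap Ai Ac (teichmuller 2 (u g₀ x))
    have e4 : ((2 : ℕ) : Ac) ∣ A ^ 2 - B ^ 2 :=
      (dvd_add e3 (Dvd.intro (B * (A - B)) rfl)).trans (dvd_of_eq (by ring))
    have e5 := dvd_sub_pow_of_dvd_sub e4 N
    rw [← pow_mul, ← pow_mul, ← pow_succ'] at e5
    rw [hr, hr, map_teichmuller, map_teichmuller, iterateFrobenius_def]
    simpa only [map_pow, Nat.cast_ofNat] using e5
  have ai : ∀ (N : ℕ) (b : Ai), ∀ᶠ g in 𝓝 g₀, 2 ^ N ∣
      r g (algebraMap Ai Ac b) - r g₀ (algebraMap Ai Ac b) := by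
    intro N
    induction N with
    | zero => exact fun b => .of_forall fun g => by simp
    | succ N ih =>
      intro b
      obtain ⟨b', e⟩ := ai_tei b
      rw [e, map_add]
      refine add (tei N _) ?_
      filter_upwards [ih b'] with g hg
      simp only [map_mul, map_ofNat, ← mul_sub, pow_succ']
      exact mul_dvd_mul_left 2 hg
  obtain ⟨d, hd, sp⟩ := exDp
  have dp : ∀ m, ∀ᶠ g in 𝓝 g₀, 2 ^ N ∣
      r g (algebraMap A0 Ac (d m)) - r g₀ (algebraMap A0 Ac (d m)) := by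
    intro m
    obtain ⟨k, o, ⟨o, rfl⟩, e⟩ := Nat.exists_eq_two_pow_mul_odd m.factorial_ne_zero
    have e1 := congrArg (algebraMap A0 Ac) (hd m)
    rw [map_mul, map_natCast, ← map_pow, ← ik, e] at e1
    filter_upwards [ai (N + k) (xi ^ m)] with g ⟨z, hz⟩
    rw [← e1] at hz
    simp only [map_mul, map_natCast] at hz
    push_cast at hz
    refine (ac2_cpl.unit o).dvd_mul_left.1 ⟨z, sub_eq_zero.1 (ac2_pow k _ ?_)⟩
    linear_combination hz
  obtain ⟨y, z, rfl⟩ := ac2_den x N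
  refine add ?_ (.of_forall fun g => ?_)
  · induction sp y using Submodule.span_induction with
    | mem _ h => obtain ⟨m, rfl⟩ := h; exact dp m
    | zero => exact .of_forall fun g => by simp
    | add x y _ _ h1 h2 => rw [map_add]; exact add h1 h2
    | smul b x _ h1 => rw [k_smul]; exact mul (ai N b) h1
  · simp only [map_mul, map_pow, map_ofNat, ← mul_sub]
    exact Dvd.intro _ rfl

end H4b

end AcB

end Pool.Agent.HF
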