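import Pool.Agent.Lib.MP_b4b3cb_nt.HF.Defs

/-! Adic completions and the logarithm. -/

namespace Pool.Agent.HF

open NumberField Matrix WittVector Ideal Pool.Agent.SelTwo Module
open scoped TensorProduct Topology Nat Classical

variable {A B : Type} [CommRing A] [CommRing B] {w p v : A}

theorem smod_iff {N : ℕ} {x y : A} :
    x ≡ y [SMOD (span {w} ^ N • ⊤ : Submodule A A)] ↔ w ^ N ∣ x - y := by
  rw [SModEq.sub_mem, smul_eq_mul, mul_top, span_singleton_pow, mem_span_singleton]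

theorem cpl_iff : Cpl w ↔ IsAdicComplete (span {w}) A := by
  rw [isAdicComplete_iff, isHausdorff_iff, isPrecomplete_iff]
  simp only [smod_iff, sub_zero]
  refine and_congr Iff.rfl ⟨fun h f hf => ?_, fun h f hf => ?_⟩
  · obtain ⟨l, hl⟩ := h f fun N => dvd_sub_comm.1 (hf N.le_succ)
    exact ⟨l, fun N => dvd_sub_comm.1 (hl N)⟩
  · obtain ⟨l, hl⟩ := h f fun {m n} e => by
      induction n, e using Nat.le_induction with
      | base => simp
      | succ n e ih =>
        rw [← sub_add_sub_cancel _ (f n)]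
        exact ih.add ((pow_dvd_pow w e).trans (dvd_sub_comm.1 (hf n)))
    exact ⟨l, fun N => dvd_sub_comm.1 (hl N)⟩

theorem Cpl.unit (h : Cpl w) (x : A) : IsUnit (1 + w * x) := by
  have := cpl_iff.1 h
  rw [add_comm]
  exact mem_jacobson_bot.1 (IsAdicComplete.le_jacobson_bot _ (mem_span_singleton_self w)) x

theorem Cpl.sum (h : Cpl w) (c : ℕ → A) :
    ∃ l, ∀ N, w ^ N ∣ l - ∑ i ∈ Finset.range N, w ^ i * c i :=
  h.2 _ fun N => by simp [Finset.sum_range_succ]

theorem iter {K : Type} {q : B} (f : K → B) (S : Set B)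
    (step : ∀ y ∈ S, ∃ c, ∃ y' ∈ S, y = f c + q * y') {y : B} (hy : y ∈ S) :
    ∃ c : ℕ → K, ∀ N, q ^ N ∣ y - ∑ i ∈ Finset.range N, q ^ i * f (c i) := by
  choose c y' hy' e using step
  let z : ℕ → S := fun n => Nat.rec ⟨y, hy⟩ (fun _ z => ⟨y' z.1 z.2, hy' z.1 z.2⟩) n
  refine ⟨fun i => c (z i).1 (z i).2, fun N => ⟨(z N).1, ?_⟩⟩
  induction N with
  | zero => simp [z]
  | succ N ih =>
    rw [Finset.sum_range_succ, ← sub_sub, ih]
    have : (z N).1 = f (c (z N).1 (z N).2) + q * (z (N + 1)).1 := e (z N).1 (z N).2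
    linear_combination q ^ N * this

theorem Cpl.div (h : Cpl p) (J : Ideal A) (h1 : ∀ a, p * a ∈ J → a ∈ J) (hv : v ∈ J)
    (h2 : ∀ a ∈ J, ∃ c d, a = v * c + p * d) {a : A} (ha : a ∈ J) : v ∣ a := by
  obtain ⟨c, hc⟩ := iter (q := p) (v * ·) J (fun y hy => by
    obtain ⟨c, d, e⟩ := h2 y hy
    exact ⟨c, d, h1 d (by simpa [e] using J.sub_mem hy (J.mul_mem_right c hv)), e⟩) ha
  obtain ⟨l, hl⟩ := h.sum c
  refine ⟨l, sub_eq_zero.1 (h.1 _ fun N => ?_)⟩
  have := (hc N).sub ((hl N).mul_left v)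
  rwa [mul_sub, Finset.mul_sum, Finset.sum_congr rfl fun i _ => mul_left_comm v _ (c i),
    sub_sub_sub_cancel_right] at this

variable {I : Ideal A} (hI : I = span {w})
include hI

theorem ac_ker {N : ℕ} {x : AdicCompletion I A} :
    algebraMap A (AdicCompletion I A) w ^ N ∣ x ↔ AdicCompletion.evalₐ I N x = 0 := by
  have fg : I.FG := hI ▸ Submodule.fg_span_singleton w
  have e : (I ^ N • ⊤ : Ideal A) = I ^ N := by simp
  have h : AdicCompletion.evalₐ I N x = 0 ↔ AdicCompletion.eval I A N x = 0 :=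
    map_eq_zero_iff (quotientEquivAlgOfEq A e) (quotientEquivAlgOfEq A e).injective
  rw [h, ← LinearMap.mem_ker, ← AdicCompletion.pow_smul_top_eq_ker_eval fg, smul_top_eq_map,
    Submodule.restrictScalars_mem, show I ^ N = span {w ^ N} by rw [hI, span_singleton_pow],
    map_span, Set.image_singleton, mem_span_singleton, map_pow]

theorem ac_cpl : Cpl (algebraMap A (AdicCompletion I A) w) := by
  have := AdicCompletion.isAdicComplete_self (I := I) (hI ▸ Submodule.fg_span_singleton w)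
  rw [cpl_iff, ← Set.image_singleton, ← map_span, ← hI]
  exact this

theorem ac_den (x : AdicCompletion I A) (N : ℕ) :
    ∃ a, algebraMap A (AdicCompletion I A) w ^ N ∣ x - algebraMap A _ a := by
  obtain ⟨a, ha⟩ := Quotient.mk_surjective (AdicCompletion.evalₐ I N x)
  exact ⟨a, (ac_ker hI).2 (by rw [map_sub, AlgHom.commutes, ← ha]; exact sub_self _)⟩

theorem ac_dvd {N : ℕ} {a : A} :
    algebraMap A (AdicCompletion I A) w ^ N ∣ algebraMap A _ a ↔ w ^ N ∣ a := by
  rw [ac_ker hI, AlgHom.commutes, Quotient.algebraMap_eq, Quotient.eq_zero_iff_mem, hI,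
    span_singleton_pow, mem_span_singleton]

theorem ac_nzd (h : ∀ a, w * a = 0 → a = 0) (x : AdicCompletion I A)
    (hx : algebraMap A _ w * x = 0) : x = 0 := by
  refine (ac_cpl hI).1 x fun N => ?_
  obtain ⟨a, z, e⟩ := ac_den hI x N
  obtain ⟨b, hb⟩ := (ac_dvd hI (N := N + 1) (a := w * a)).1
    ⟨-z, by rw [map_mul]; linear_combination hx - algebraMap A _ w * e⟩
  have := h (a - w ^ N * b) (by linear_combination hb)
  exact ⟨z + algebraMap A _ b, by
    rw [mul_add, ← e, ← map_pow, ← map_mul, ← sub_eq_zero.1 this, sub_add_cancel]⟩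

theorem ac_lift (f : A →+* B) {q : B} (h : Cpl q) (hq : q ∣ f w) :
    ∃ F : AdicCompletion I A →+* B, ∀ a, F (algebraMap A _ a) = f a := by
  have := cpl_iff.1 h
  have le : ∀ n, I ^ n ≤ (span {q} ^ n).comap f := fun n => by
    rw [hI, span_singleton_pow, span_singleton_pow, span_singleton_le_iff_mem, mem_comap, map_pow,
      mem_span_singleton]
    exact pow_dvd_pow_of_dvd hq n
  let g := fun n => (quotientMap _ f (le n)).comp (AdicCompletion.evalₐ I n).toRingHom
  have e : ∀ n a, g n (algebraMap A _ a) = Ideal.Quotient.mk _ (f a) := fun n a =>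
    congrArg (quotientMap _ f (le n)) ((AdicCompletion.evalₐ I n).commutes a)
  have e' : ∀ {m n} x, m ≤ n → algebraMap A _ w ^ n ∣ x → g m x = 0 := fun {m n} x l hx =>
    (congrArg (quotientMap _ f (le m)) ((ac_ker hI).1 ((pow_dvd_pow _ l).trans hx))).trans
      (map_zero _)
  refine ⟨IsAdicComplete.liftRingHom (span {q}) g fun {m n} l => RingHom.ext fun x => ?_,
    fun a => sub_eq_zero.1 (h.1 _ fun N => ?_)⟩
  · obtain ⟨a, ha⟩ := ac_den hI x n
    have e1 := e' _ l ha
    have e2 := e' _ le_rfl ha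
    rw [map_sub, sub_eq_zero, e] at e1 e2
    rw [RingHom.comp_apply, e1, e2]
    rfl
  · rw [← mem_span_singleton, ← span_singleton_pow, ← Ideal.Quotient.eq,
      IsAdicComplete.mk_liftRingHom, e]

theorem ac_ext (F F' : AdicCompletion I A →+* B)
    (sep : ∀ b, (∀ N, F (algebraMap A _ w) ^ N ∣ b) → b = 0)
    (h : ∀ a, F (algebraMap A _ a) = F' (algebraMap A _ a)) : F = F' :=
  RingHom.ext fun x => sub_eq_zero.1 (sep _ fun N => by
    obtain ⟨a, ha⟩ := ac_den hI x N
    have e1 := map_dvd F ha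
    have e2 := map_dvd F' ha
    rw [map_pow, map_sub] at e1 e2
    rw [← h, ← h] at e2
    simpa using e1.sub e2)

omit hI
variable {u u' l l' : A}

theorem lg_ex (h : Cpl (2 : A)) (x : A) : ∃ y, Lg (1 + 4 * x) (x * (1 + 2 * y)) := by
  let y : ℕ → A := fun n => Nat.rec 0 (fun n y => y + 2 ^ n * (x * (1 + 2 * y) ^ 2)) n
  have e : ∀ n, y (n + 1) = y n + 2 ^ n * (x * (1 + 2 * y n) ^ 2) := fun _ => rfl
  have a : ∀ n, (1 + 4 * x) ^ 2 ^ n = 1 + 2 ^ (n + 2) * (x * (1 + 2 * y n)) := fun n => by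
    induction n with
    | zero => simp [y]; norm_num
    | succ n ih => rw [pow_succ, pow_mul, ih, e]; ring
  obtain ⟨l, hl⟩ := h.2 y fun N => ⟨_, by rw [e, add_sub_cancel_left]⟩
  refine ⟨l, fun N => ?_⟩
  obtain ⟨c, hc⟩ := hl N
  exact ⟨-(x * c), by rw [a]; linear_combination (-2 ^ (N + 3) * x) * hc⟩

theorem Lg.uniq (h : Cpl (2 : A)) (h2 : ∀ a : A, 2 * a = 0 → a = 0) (a : Lg u l) (b : Lg u l') :
    l = l' := by
  have h3 : ∀ (n : ℕ) (a : A), 2 ^ n * a = 0 → a = 0 := fun n => by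
    induction n with
    | zero => simp
    | succ n ih => exact fun a e => ih a (h2 _ (by linear_combination e))
  refine sub_eq_zero.1 (h.1 _ fun N => ?_)
  obtain ⟨c, hc⟩ := (b N).sub (a N)
  exact ⟨2 * c, sub_eq_zero.1 (h3 (N + 2) _ (by linear_combination hc))⟩

theorem Lg.mul (a : Lg u l) (b : Lg u' l') : Lg (u * u') (l + l') := fun N => by
  obtain ⟨c, hc⟩ := a N
  obtain ⟨d, hd⟩ := b N
  refine ⟨c * u' ^ 2 ^ N + (1 + 2 ^ (N + 2) * l) * d + 2 * l * l', ?_⟩
  rw [mul_pow]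
  linear_combination u' ^ 2 ^ N * hc + (1 + 2 ^ (N + 2) * l) * hd

theorem Lg.pow (a : Lg u l) (k : ℕ) : Lg (u ^ k) (k * l) := by
  induction k with
  | zero => exact fun N => by simp
  | succ k ih =>
    rw [pow_succ, Nat.cast_succ, add_mul, one_mul]
    exact ih.mul a

theorem Lg.map (a : Lg u l) (f : A →+* B) : Lg (f u) (f l) := fun N => by
  simpa [map_ofNat] using map_dvd f (a N)

end Pool.Agent.HF
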