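import Pool.Agent.Lib.MP_b4b3cb_nt.HF.Defs

/-! Linear algebra over the period rings. -/

namespace Pool.Agent.HF

open NumberField Matrix WittVector Ideal Pool.Agent.SelTwo Module
open scoped TensorProduct Topology Classical

section Al
variable {E : Type} [NontriviallyNormedField E] {n : ℕ} {Y Z : Type} [CommRing Y] [Algebra E Y]
  [CommRing Z] [Algebra E Z] {M M' N : Matrix (Fin n) (Fin n) E}

variable (Y) in
/-- The image of a vector. -/
def al (v : Fin n → E) : Fin n → Y := fun i => algebraMap E Y (v i)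

/-- The pairing with matrix `M`. -/
def pa (M : Matrix (Fin n) (Fin n) E) (u v : Fin n → Y) : Y := u ⬝ᵥ M.map (algebraMap E Y) *ᵥ v

theorem al_add (u v : Fin n → E) : al Y (u + v) = al Y u + al Y v := by ext; simp [al]

theorem al_sub (u v : Fin n → E) : al Y (u - v) = al Y u - al Y v := by ext; simp [al]

theorem al_smul (c : E) (v : Fin n → E) : al Y (c • v) = c • al Y v := by
  ext; simp [al, Algebra.smul_def]

theorem al_zero : al Y (0 : Fin n → E) = 0 := by ext; simp [al]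

theorem al_map (f : Y →ₐ[E] Z) (v : Fin n → E) : f ∘ al Y v = al Z v := by ext; simp [al]

theorem ac_add (s : Y →ₐ[E] Y) (u v : Fin n → Y) : ac M s (u + v) = ac M s u + ac M s v := by
  ext; simp [ac, mulVec, dotProduct, mul_add, Finset.sum_add_distrib]

theorem ac_sm (s : Y →ₐ[E] Y) (y : Y) (v : Fin n → Y) : ac M s (y • v) = s y • ac M s v := by
  ext; simp [ac, mulVec, dotProduct, Finset.mul_sum, mul_left_comm]

theorem ac_smul (s : Y →ₐ[E] Y) (c : E) (v : Fin n → Y) : ac M s (c • v) = c • ac M s v := by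
  rw [← algebraMap_smul Y c v, ac_sm, s.commutes, algebraMap_smul]

theorem ac_zero (s : Y →ₐ[E] Y) : ac M s 0 = 0 := by ext; simp [ac, mulVec, dotProduct]

theorem ac_al (s : Y →ₐ[E] Y) (v : Fin n → E) : ac M s (al Y v) = al Y (M *ᵥ v) := by
  ext; simp [ac, al, mulVec, dotProduct]

theorem ac_map {s : Y →ₐ[E] Y} {s' : Z →ₐ[E] Z} (f : Y →ₐ[E] Z) (hf : ∀ x, f (s x) = s' (f x))
    (v : Fin n → Y) : f ∘ ac M s v = ac M s' (f ∘ v) := by
  ext; simp [ac, mulVec, dotProduct, hf]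

theorem ac_mul (s s' : Y →ₐ[E] Y) (v : Fin n → Y) :
    ac (M * M') (s * s') v = ac M s (ac M' s' v) := by
  have : (fun i => s (ac M' s' v i)) = M'.map (algebraMap E Y) *ᵥ fun i => s (s' (v i)) := by
    ext; simp [ac, mulVec, dotProduct]
  rw [ac, ac, this, mulVec_mulVec, Matrix.map_mul]
  rfl

theorem pa_add (u v w : Fin n → Y) : pa M u (v + w) = pa M u v + pa M u w := by
  simp [pa, mulVec_add]

theorem add_pa (u v w : Fin n → Y) : pa M (u + v) w = pa M u w + pa M v w := by simp [pa]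

theorem pa_sm (y : Y) (u v : Fin n → Y) : pa M u (y • v) = y * pa M u v := by
  simp [pa, mulVec_smul]

theorem sm_pa (y : Y) (u v : Fin n → Y) : pa M (y • u) v = y * pa M u v := by simp [pa]

theorem pa_smul (c : E) (u v : Fin n → Y) : pa M u (c • v) = c • pa M u v := by
  simp [pa, mulVec_smul]

theorem smul_pa (c : E) (u v : Fin n → Y) : pa M (c • u) v = c • pa M u v := by simp [pa]

theorem pa_map (f : Y →ₐ[E] Z) (u v : Fin n → Y) : f (pa M u v) = pa M (f ∘ u) (f ∘ v) := by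
  simp [pa, mulVec, dotProduct]

theorem pa_al (u v : Fin n → E) : pa M (al Y u) (al Y v) = algebraMap E Y (u ⬝ᵥ M *ᵥ v) := by
  simp [pa, al, mulVec, dotProduct]

theorem pa_ac {c : E} (pr : Nᵀ * M * M' = c • M) (s : Y →ₐ[E] Y) (u v : Fin n → Y) :
    pa M (ac N s u) (ac M' s v) = c • s (pa M u v) := by
  rw [pa_map, ← smul_pa, pa, pa, ac, ac, mulVec_mulVec, ← vecMul_transpose, ← dotProduct_mulVec,
    mulVec_mulVec, ← transpose_map, ← Matrix.map_mul, ← Matrix.map_mul, ← Matrix.mul_assoc, pr,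
    smul_dotProduct, ← dotProduct_smul, ← smul_mulVec]
  have : (c • M).map (algebraMap E Y) = c • M.map (algebraMap E Y) := by
    ext; rw [map_apply, Matrix.smul_apply, Matrix.smul_apply, map_apply, smul_eq_mul, map_mul, Algebra.smul_def]
  rw [this]
  rfl

end Al

variable {G : Type} [Group G] [TopologicalSpace G] {E : Type}
  [NontriviallyNormedField E] {χ : G →* E} {B D C : Type} [CommRing B]
  [Algebra E B] [CommRing D] [Algebra E D] [CommRing C] [Algebra E C] (X : PD G E χ B D C) {n : ℕ}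
  {ρ ρ' : G →* Matrix (Fin n) (Fin n) E} {M : Matrix (Fin n) (Fin n) E} {h : Fin n → ℤ}

omit [TopologicalSpace G] in
theorem ch_ne (χ : G →* E) (g : G) : χ g ≠ 0 := ((Group.isUnit g).map χ).ne_zero

theorem PD.dr_dual' (hM : IsUnit M) (pr : ∀ g, (ρ g)ᵀ * M * ρ' g = χ g • M) (dr : X.Dr ρ h) :
    X.Dr ρ' fun i => 1 - h i := by
  obtain ⟨P, hP, H⟩ := dr
  have hU : IsUnit (Pᵀ * M.map (algebraMap E D)) :=
    ((isUnit_transpose P).2 hP).mul (hM.map (algebraMap E D).mapMatrix)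
  obtain ⟨Q, hQ⟩ := hU.exists_right_inv
  have e : ∀ u i, ((Pᵀ * M.map (algebraMap E D)) *ᵥ u) i = pa M (P.col i) u := fun u i => by
    rw [← mulVec_mulVec]; rfl
  have e1 : ∀ i j, pa M (P.col i) (Q.col j) = if i = j then 1 else 0 := fun i j => by
    rw [← e, ← one_apply, ← hQ]; rfl
  refine ⟨Q, IsUnit.of_mul_eq_one_right _ hQ, fun g j => mulVec_injective_of_isUnit hU ?_⟩
  ext i
  have h1 := pa_ac (pr g) (X.gD g) (P.col i) (Q.col j)
  rw [H, smul_pa, e1] at h1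
  rw [e, e, pa_smul, e1, ← one_smul E (pa _ _ _), ← inv_mul_cancel₀ (zpow_ne_zero (h i) (ch_ne χ g)),
    mul_smul, h1]
  split_ifs with hij
  · rw [map_one, smul_smul, hij, zpow_sub₀ (ch_ne χ g), zpow_one, div_eq_inv_mul]
  · simp

theorem Orth.swap' (pr : ∀ g, (ρ g)ᵀ * M * ρ' g = χ g • M) {x y : G → Fin n → E} (hx : Coc ρ ⊤ x)
    (hy : Coc ρ' ⊤ y) (o : Orth χ ρ Mᵀ y x) : Orth χ ρ' M x y := by
  obtain ⟨f, hf, H⟩ := o
  have cx : Continuous x := by simpa using hx.1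
  have cy : Continuous y := by simpa using hy.1
  refine ⟨fun g => -(x g ⬝ᵥ M *ᵥ y g) - f g, by fun_prop, fun g k => ?_⟩
  have h1 : (ρ g *ᵥ x k) ⬝ᵥ M *ᵥ ρ' g *ᵥ y k = χ g * (x k ⬝ᵥ M *ᵥ y k) := by
    rw [mulVec_mulVec, ← vecMul_transpose, ← dotProduct_mulVec, mulVec_mulVec, ← Matrix.mul_assoc,
      pr, smul_mulVec, dotProduct_smul, smul_eq_mul]
  have h2 : y g ⬝ᵥ Mᵀ *ᵥ ρ g *ᵥ x k = (ρ g *ᵥ x k) ⬝ᵥ M *ᵥ y g := by
    rw [mulVec_transpose, dotProduct_comm, ← dotProduct_mulVec]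
  have h3 := H g k
  beta_reduce
  rw [hx.2 g trivial k trivial, hy.2 g trivial k trivial, mulVec_add, add_dotProduct,
    dotProduct_add, dotProduct_add, h1, ← h2]
  linear_combination -h3

theorem PD.hc_sub' : ∃ W : Submodule E (G → Fin n → E), (W : Set _) = X.Hc ρ := by
  refine ⟨⟨⟨⟨X.Hc ρ, ?_⟩, ?_⟩, ?_⟩, rfl⟩
  · rintro x y ⟨hx, z, H⟩ ⟨hy, w, K⟩
    refine ⟨⟨hx.1.add hy.1, fun g a k b => ?_⟩, z + w, fun g => ?_⟩
    · simp only [Pi.add_apply, hx.2 g a k b, hy.2 g a k b, mulVec_add]; abel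
    · rw [ac_add, add_sub_add_comm, H, K]; exact (al_add _ _).symm
  · exact ⟨⟨continuousOn_const, fun g _ k _ => by simp⟩, 0, fun g => by
      rw [ac_zero, sub_zero]; exact al_zero.symm⟩
  · rintro c x ⟨hx, z, H⟩
    refine ⟨⟨hx.1.const_smul c, fun g a k b => ?_⟩, c • z, fun g => ?_⟩
    · simp only [Pi.smul_apply, hx.2 g a k b, mulVec_smul, smul_add]
    · rw [ac_smul, ← smul_sub, H]; exact (al_smul _ _).symm

theorem PD.nz (m : ℕ) (y : D) (e : X.β X.t ^ m * y = 0) : y = 0 := by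
  induction m with
  | zero => simpa using e
  | succ m ih => exact ih (X.nzd _ (by rw [← e]; ring))

theorem PD.inj (m : ℕ) {a : E} (e : X.β X.t ^ (m + 1) ∣ X.β X.t ^ m * algebraMap E D a) :
    a = 0 := by
  by_contra ha
  obtain ⟨c, e⟩ := e
  have := X.nz m (algebraMap E D a - X.β X.t * c) (by linear_combination e)
  exact X.nu (isUnit_of_dvd_unit ⟨c, sub_eq_zero.1 this⟩ ((IsUnit.mk0 a ha).map _))

theorem PD.uq (m : ℕ) {a b : E} (e : a • X.t ^ m = b • X.t ^ m) : a = b := by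
  refine sub_eq_zero.1 (X.inj m ?_)
  have := congrArg X.β e
  simp only [Algebra.smul_def, map_mul, map_pow, AlgHom.commutes] at this
  rw [map_sub, mul_sub, mul_comm, this, mul_comm, sub_self]
  exact dvd_zero _

theorem PD.ker (m : ℕ) (x : B) (e : X.fB x = 2 ^ m * x) (d : X.β X.t ^ m ∣ X.β x) :
    ∃ a : E, x = a • X.t ^ m := by
  induction m generalizing x with
  | zero => simpa [Algebra.smul_def] using X.k0 x (by simpa using e)
  | succ m ih =>
    obtain ⟨y, hy, rfl⟩ := X.k1 m x e ((dvd_pow_self _ m.succ_ne_zero).trans d)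
    obtain ⟨c, d⟩ := d
    obtain ⟨a, rfl⟩ := ih y hy ⟨c, sub_eq_zero.1 (X.nzd _ (by
      rw [map_mul] at d; linear_combination d))⟩
    exact ⟨a, by rw [mul_smul_comm, pow_succ']⟩

theorem PD.sur (m : ℕ) (y : D) : ∃ x, X.fB x = 2 ^ m * x ∧ X.β X.t ^ m ∣ X.β x - y := by
  induction m generalizing y with
  | zero => exact ⟨0, by simp, by simp⟩
  | succ m ih =>
    obtain ⟨x0, e0, d0⟩ := X.s1 1
    obtain ⟨x1, e1, d1⟩ := X.s1 y
    obtain ⟨c, hc⟩ : X.β X.t ∣ X.β x1 * X.β x0 ^ m - y := by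
      have := (d0.trans (sub_one_dvd_pow_sub_one _ m)).mul_left (X.β x1) |>.add d1
      rwa [mul_sub, mul_one, sub_add_sub_cancel] at this
    obtain ⟨x, e, d, hd⟩ := ih (-c)
    refine ⟨x1 * x0 ^ m + X.t * x, ?_, d, ?_⟩
    · simp only [map_add, map_mul, map_pow, e0, e1, e, X.ft]; ring
    · simp only [map_add, map_mul, map_pow]; linear_combination hc + X.β X.t * hd

/-- Continuity for the topology of the lattice. -/
def PD.LC (F : G → B) : Prop :=
  ∀ (N : ℕ) g₀, ∀ᶠ g in 𝓝 g₀, ∃ y ∈ X.Λ, F g - F g₀ = 2 ^ N * y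

variable {X}

theorem PD.LC.add {F H : G → B} (a : X.LC F) (b : X.LC H) : X.LC fun g => F g + H g :=
  fun N g₀ => ((a N g₀).and (b N g₀)).mono fun g ⟨⟨y, hy, e⟩, z, hz, e'⟩ =>
    ⟨y + z, X.Λ.add_mem hy hz, by linear_combination e + e'⟩

theorem PD.LC.const (b : B) : X.LC fun _ => b :=
  fun _ _ => .of_forall fun _ => ⟨0, X.Λ.zero_mem, by simp⟩

theorem PD.LC.mul {F H : G → B} (a : X.LC F) (b : X.LC H) : X.LC fun g => F g * H g := by
  intro N g₀
  obtain ⟨i, hi⟩ := X.ab (F g₀)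
  obtain ⟨j, hj⟩ := X.ab (H g₀)
  have h2 : (2 : B) ∈ X.Λ := ofNat_mem _ 2
  filter_upwards [a (N + j) g₀, b (N + i) g₀] with g ⟨y, hy, e⟩ ⟨z, hz, e'⟩
  exact ⟨y * (2 ^ j * H g₀) + 2 ^ i * F g₀ * z + 2 ^ (N + i + j) * y * z, X.Λ.add_mem (X.Λ.add_mem
    (X.Λ.mul_mem hy hj) (X.Λ.mul_mem hi hz)) (X.Λ.mul_mem (X.Λ.mul_mem (X.Λ.pow_mem h2 _) hy) hz),
    by rw [sub_eq_iff_eq_add] at e e'; rw [e, e']; ring⟩

theorem PD.LC.sub {F H : G → B} (a : X.LC F) (b : X.LC H) : X.LC fun g => F g - H g := by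
  simpa [sub_eq_add_neg] using a.add ((PD.LC.const (-1)).mul b)

theorem PD.LC.sum {ι : Type} (s : Finset ι) {F : ι → G → B} (a : ∀ i, X.LC (F i)) :
    X.LC fun g => ∑ i ∈ s, F i g := by
  induction s using Finset.induction_on with
  | empty => simpa using PD.LC.const 0
  | insert i s hi ih => simpa [Finset.sum_insert hi] using (a i).add ih

variable [NormedAlgebra ℚ_[2] E]

variable (E) in
theorem nm_two : ‖(2 : E)‖ = 2⁻¹ := by
  rw [← map_ofNat (algebraMap ℚ_[2] E), norm_algebraMap']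
  simpa using Padic.norm_p (p := 2)

variable (E) in
theorem two_ne : (2 : E) ≠ 0 := norm_ne_zero_iff.1 (by rw [nm_two]; norm_num)

theorem PD.LC.alg {c : G → E} (hc : Continuous c) : X.LC fun g => algebraMap E B (c g) := by
  intro N g₀
  have h2 := pow_ne_zero N (two_ne E)
  filter_upwards [Metric.tendsto_nhds.1 (hc.tendsto g₀) _ (norm_pos_iff.2 h2)] with g hg
  refine ⟨_, X.il ((c g - c g₀) / 2 ^ N) ?_, ?_⟩
  · rw [norm_div, div_le_one (norm_pos_iff.2 h2), ← dist_eq_norm]; exact hg.le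
  · rw [← map_ofNat (algebraMap E B), ← map_pow, ← map_mul, mul_div_cancel₀ _ h2, map_sub]

theorem PD.LC.smul {c : G → E} (hc : Continuous c) {F : G → B} (a : X.LC F) :
    X.LC fun g => c g • F g := by
  simpa only [Algebra.smul_def] using (PD.LC.alg hc).mul a

theorem PD.LC.cont {m : ℕ} {f : G → E} (a : X.LC fun g => f g • X.t ^ m) : Continuous f := by
  obtain ⟨K, hK⟩ : ∃ K : ℕ, ∀ c : E, c • X.t ^ m ∈ X.Λ → ‖c‖ < 2 ^ K := by
    by_contra! H
    have := X.sep (X.t ^ m) fun K => by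
      obtain ⟨c, hc, hK⟩ := H K
      have c0 : c ≠ 0 := norm_pos_iff.1 (lt_of_lt_of_le (by positivity) hK)
      refine ⟨_, X.Λ.mul_mem (X.il (c * 2 ^ K)⁻¹ ?_) hc, ?_⟩
      · rw [norm_inv, norm_mul, norm_pow, nm_two, inv_pow]
        exact inv_le_one_of_one_le₀ ((le_mul_inv_iff₀ (by positivity)).2 (by simpa using hK))
      · have h2 := pow_ne_zero K (two_ne E)
        rw [← map_ofNat (algebraMap E B), ← map_pow, ← Algebra.smul_def, ← Algebra.smul_def,
          smul_smul, smul_smul, show 2 ^ K * (c * 2 ^ K)⁻¹ * c = 1 by field_simp, one_smul]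
    exact one_ne_zero (X.uq m (a := 1) (b := 0) (by simp [this]))
  refine continuous_iff_continuousAt.2 fun g₀ => Metric.tendsto_nhds.2 fun ε hε => ?_
  obtain ⟨N, hN⟩ := pow_unbounded_of_one_lt (2 ^ K / ε) (one_lt_two (α := ℝ))
  filter_upwards [a N g₀] with g ⟨y, hy, e⟩
  have h2 := pow_ne_zero N (two_ne E)
  have := hK ((2 ^ N)⁻¹ * (f g - f g₀)) (by
    rw [mul_smul, sub_smul, e, ← map_ofNat (algebraMap E B), ← map_pow, ← Algebra.smul_def,
      inv_smul_smul₀ h2]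
    exact hy)
  rw [norm_mul, norm_inv, norm_pow, nm_two, inv_pow, inv_inv] at this
  rw [div_lt_iff₀ hε] at hN
  rw [dist_eq_norm]
  exact lt_of_mul_lt_mul_left (this.trans hN) (by positivity)

end Pool.Agent.HF
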