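import Pool.Agent.Lib.MP_b4b3cb_nt.BC.Stmt4

/-! The period rings of Fontaine for `p = 2` and the Selmer group of Bloch and Kato. -/

namespace Pool.Agent.SelTwo

open NumberField Matrix WittVector Ideal
open scoped TensorProduct Nat

/-- The ring of integers of `ℂ₂`. -/
abbrev OC : Type := PadicComplexInt 2

theorem oc_mem {x : ℂ_[2]} : x ∈ PadicComplexInt 2 ↔ ‖x‖ ≤ 1 := by
  rw [PadicComplex.norm_eq_norm]
  exact (Valued.toNormedField.norm_le_one_iff (L := ℂ_[2]) (Γ₀ := NNReal)).symm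

theorem oc_two : ‖(2 : ℂ_[2])‖ = 2⁻¹ := by
  rw [← map_ofNat (algebraMap ℚ_[2] ℂ_[2]), norm_algebraMap']
  exact_mod_cast Padic.norm_p (p := 2)

theorem oc_dvd {a b : OC} : a ∣ b ↔ ‖(b : ℂ_[2])‖ ≤ ‖(a : ℂ_[2])‖ := by
  refine ⟨fun ⟨c, e⟩ => ?_, fun h => ?_⟩
  · rw [e, MulMemClass.coe_mul, norm_mul]
    exact mul_le_of_le_one_right (norm_nonneg _) (oc_mem.1 c.2)
  · by_cases a0 : (a : ℂ_[2]) = 0
    · rw [a0, norm_zero, norm_le_zero_iff, ZeroMemClass.coe_eq_zero] at h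
      exact h ▸ dvd_zero _
    · exact ⟨⟨b / a, oc_mem.2 (by rw [norm_div]; exact div_le_one_of_le₀ h (norm_nonneg _))⟩,
        Subtype.ext (mul_div_cancel₀ _ a0).symm⟩

theorem oc_pow {n : ℕ} {b : OC} :
    b ∈ (span {((2 : ℕ) : OC)} ^ n • ⊤ : Ideal OC) ↔ ‖(b : ℂ_[2])‖ ≤ 2⁻¹ ^ n := by
  rw [smul_eq_mul, mul_top, span_singleton_pow, mem_span_singleton, oc_dvd, ← oc_two, ← norm_pow]
  rfl

instance : Fact ¬IsUnit ((2 : ℕ) : OC) := ⟨fun h => by
  have := (oc_dvd (b := 1)).1 h.dvd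
  rw [show (((2 : ℕ) : OC) : ℂ_[2]) = 2 from rfl, oc_two, OneMemClass.coe_one, norm_one] at this
  norm_num at this⟩

instance : IsAdicComplete (span {((2 : ℕ) : OC)}) OC where
  haus' x h := by
    have := ge_of_tendsto' (tendsto_pow_atTop_nhds_zero_of_lt_one (r := (2⁻¹ : ℝ)) (by norm_num)
      (by norm_num)) fun n => oc_pow.1 (SModEq.zero.1 (h n))
    simpa using this
  prec' f h := by
    have b : ∀ m n, m ≤ n → ‖(f m : ℂ_[2]) - f n‖ ≤ 2⁻¹ ^ m := fun m n e =>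
      oc_pow.1 (SModEq.sub_mem.1 (h e))
    obtain ⟨l, hl⟩ := cauchySeq_tendsto_of_complete (cauchySeq_of_le_geometric (2⁻¹ : ℝ) 1
      (by norm_num) (f := fun n => (f n : ℂ_[2])) fun n => by
        rw [dist_eq_norm, one_mul]; exact b _ _ n.le_succ)
    have c : ∀ m, ‖(f m : ℂ_[2]) - l‖ ≤ 2⁻¹ ^ m := fun m => le_of_tendsto
      (hl.const_sub _).norm (Filter.eventually_atTop.2 ⟨m, b m⟩)
    refine ⟨⟨l, oc_mem.2 (le_of_tendsto' hl.norm fun n => oc_mem.1 (f n).2)⟩, fun n => ?_⟩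
    exact SModEq.sub_mem.2 (oc_pow.2 (c n))

/-- The tilt of the ring of integers of `ℂ₂`. -/
abbrev Ti : Type := PreTilt OC 2

/-- The ring `A_inf`. -/
abbrev Ai : Type := WittVector 2 Ti

/-- The ring `A_inf[1/2]`. -/
abbrev Bi : Type := Localization.Away ((2 : ℕ) : Ai)

/-- The divided power envelope of `A_inf` along the kernel of `θ`. -/
noncomputable def A0 : Subalgebra Ai Bi := Algebra.adjoin Ai
  {y | ∃ (a : Ai) (m : ℕ), fontaineTheta OC 2 a = 0 ∧ (m ! : Bi) * y = algebraMap _ _ a ^ m}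

/-- The ring `A_cris`. -/
abbrev Ac : Type := AdicCompletion (span {(2 : A0)}) A0

/-- An element of the tilt whose untilt is `-1`; its square is `(1, -1, i, ...)`. -/
noncomputable def eta : Ti := Classical.epsilon fun η => η.untilt = -1

/-- The ring `B_cris = A_cris[1/2, 1/μ]`, `μ = [ε] - 1`. -/
abbrev Bc : Type := Localization.Away (algebraMap Ai Ac (2 * (teichmuller 2 eta ^ 2 - 1)))

/-- The ring `B_dR⁺`. -/
abbrev Bd : Type := AdicCompletion (RingHom.ker (fontaineThetaInvertP OC 2)) Bi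

/-- The map `ℚ₂ → X` that extends `ℤ₂ = W(𝔽₂) → A_inf → X`. -/
noncomputable def qp (X : Type) [CommRing X] [Algebra Ai X] (h : IsUnit (2 : X)) : ℚ_[2] →+* X :=
  IsLocalization.lift (M := nonZeroDivisors ℤ_[2]) (g := (algebraMap Ai X).comp
    ((WittVector.map (ZMod.castHom (dvd_refl 2) Ti)).comp (fromPadicInt 2))) fun y => by
    rw [PadicInt.unitCoeff_spec (nonZeroDivisors.ne_zero y.2), map_mul, map_pow, map_natCast]
    exact ((Units.isUnit _).map _).mul (h.pow _)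

theorem bc_two : IsUnit (2 : Bc) := by
  have := IsLocalization.Away.algebraMap_isUnit (S := Bc)
    (algebraMap Ai Ac (2 * (teichmuller 2 eta ^ 2 - 1)))
  simp only [map_mul, map_ofNat] at this
  exact isUnit_of_mul_isUnit_left this

theorem bd_two : IsUnit (2 : Bd) := by
  have := (IsLocalization.Away.algebraMap_isUnit (S := Bi) ((2 : ℕ) : Ai)).map (algebraMap Bi Bd)
  rwa [map_natCast, map_natCast] at this

noncomputable instance : Algebra ℚ_[2] Bc := (qp Bc bc_two).toAlgebra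

noncomputable instance : Algebra ℚ_[2] Bd := (qp Bd bd_two).toAlgebra

/-- `s` is induced by the endomorphism `u` of the tilt, through an endomorphism of `X`. -/
def Ex (X : Type) [CommRing X] [Algebra Ai X] {Y : Type} [CommRing Y] [Algebra X Y]
    [Algebra ℚ_[2] Y] (u : Ti →+* Ti) (s : Y →ₐ[ℚ_[2]] Y) : Prop :=
  ∃ r : X →+* X, (∀ a, r (algebraMap Ai X a) = algebraMap Ai X (WittVector.map u a)) ∧
    ∀ x, s (algebraMap X Y x) = algebraMap X Y (r x)

variable {E : Type} [NontriviallyNormedField E] [NormedAlgebra ℚ_[2] E] {n : ℕ} {L : Type} [Field L]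
  (j : AlgebraicClosure L →+* ℂ_[2])

/-- `g` lies in the decomposition group of `j`, and `u` is its action on the tilt. -/
def Gw (g : Gal L) (u : Ti →+* Ti) : Prop :=
  ∃ σ : ℂ_[2] →+* ℂ_[2], Continuous σ ∧ (∀ x, σ (j x) = j (g x)) ∧
    ∀ x : Ti, ((u x).untilt : ℂ_[2]) = σ x.untilt

/-- The action of `M ⊗ s` on `V ⊗ Y`. -/
noncomputable def act {Y : Type} [CommRing Y] [Algebra ℚ_[2] Y] (M : Matrix (Fin n) (Fin n) E)
    (s : Y →ₐ[ℚ_[2]] Y) (z : Fin n → E ⊗[ℚ_[2]] Y) : Fin n → E ⊗[ℚ_[2]] Y :=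
  M.map (algebraMap E _) *ᵥ fun i => Algebra.TensorProduct.map (AlgHom.id E E) s (z i)

variable (ρ : Gal L →* Matrix (Fin n) (Fin n) E)

/-- `x` is a coboundary in `V ⊗ B_cris` on the decomposition group of `j`. -/
def Cris (x : Gal L → Fin n → E) : Prop :=
  ∃ z : Fin n → E ⊗[ℚ_[2]] Bc, ∀ g u s, Gw j g u → Ex Ac u s →
    act (ρ g) s z - z = fun i => algebraMap E _ (x g i)

/-- The Frobenius fixes no nonzero element of `D_cris(V)`. -/
def NoFix : Prop :=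
  ∀ z : Fin n → E ⊗[ℚ_[2]] Bc, (∀ g u s, Gw j g u → Ex Ac u s → act (ρ g) s z = z) →
    (∀ s, Ex Ac (frobenius Ti 2) s → act 1 s z = z) → z = 0

/-- `V ⊗ B_dR⁺` is the direct sum of the twists `(E ⊗ B_dR⁺)(h i)`. -/
def DeRham (h : Fin n → ℤ) : Prop :=
  ∃ P : Matrix (Fin n) (Fin n) (E ⊗[ℚ_[2]] Bd), IsUnit P ∧ ∀ g u s, Gw j g u → Ex Ai u s →
    ∀ i, act (ρ g) s (P.col i) = cyc E g ^ h i • P.col i

variable [NumberField L]

/-- The cocycles of the Selmer group of Bloch and Kato. -/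
def Hf : Set (Gal L → Fin n → E) :=
  {x | Coc ρ ⊤ x ∧ (∀ 𝔓 : Idl L, 𝔓.IsMaximal → 2 ∉ 𝔓 → Cob ρ (Ine 𝔓) x) ∧ ∀ j, Cris j ρ x}

end Pool.Agent.SelTwo
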