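import Pool.Agent.Lib.MP_b4b3cb_nt.HF.Stmt5

/-! The period rings of Fontaine for `p = 2` and the Selmer group of Bloch and Kato. They are
written for a valuation ring `O` of a field `K`, and used for the ring of integers of `ℂ₂`. -/

namespace Pool.Agent.BKf

open NumberField Matrix WittVector Ideal
open Pool.Agent.SelTwo (Gal Idl Coc Cob Ine cyc)
open scoped TensorProduct Nat

instance fO : Fact ¬IsUnit ((2 : ℕ) : PadicComplexInt 2) :=
  (inferInstance : Fact ¬IsUnit ((2 : ℕ) : SelTwo.OC))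

instance cO : IsAdicComplete (span {((2 : ℕ) : PadicComplexInt 2)}) (PadicComplexInt 2) :=
  (inferInstance : IsAdicComplete (span {((2 : ℕ) : SelTwo.OC)}) SelTwo.OC)

section

variable {A R : Type} [CommRing A] [CommRing R]

/-- The divided power envelope of `A` along the kernel of `θ`, inside `A[1/2]`. -/
noncomputable def A0 (θ : A →+* R) : Subalgebra A (Localization.Away ((2 : ℕ) : A)) :=
  Algebra.adjoin A {y | ∃ (a : A) (m : ℕ), θ a = 0 ∧
    (m ! : Localization.Away ((2 : ℕ) : A)) * y = algebraMap _ _ a ^ m}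

/-- The `2`-adic completion. -/
noncomputable def cp (A R : Type) [CommRing A] [CommRing R] [Algebra A R] : CommAlgCat A :=
  .of A (AdicCompletion (span {(2 : R)}) R)

/-- `R` as an algebra over `ℚ₂`, by the map that extends `ℤ₂ = W(𝔽₂) → W(A) → R`. -/
noncomputable def qp [CharP A 2] (f : WittVector 2 A →+* R) (h : IsUnit (2 : R)) :
    CommAlgCat ℚ_[2] :=
  @CommAlgCat.of ℚ_[2] _ R _ (IsLocalization.lift (M := nonZeroDivisors ℤ_[2]) (g := f.comp
    ((WittVector.map (ZMod.castHom (dvd_refl 2) A)).comp (fromPadicInt 2))) fun y => by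
    rw [PadicInt.unitCoeff_spec (nonZeroDivisors.ne_zero y.2), map_mul, map_pow, map_natCast]
    exact ((Units.isUnit _).map _).mul (h.pow _)).toAlgebra

/-- `s` is induced by the endomorphism `W(u)` of `W(A)`, through an endomorphism of `R`. -/
def Ex {Y : CommAlgCat.{0} ℚ_[2]} (a : WittVector 2 A →+* R) (b : R →+* Y) (u : A →+* A)
    (s : Y →ₐ[ℚ_[2]] Y) : Prop :=
  ∃ r : R →+* R, (∀ x, r (a x) = a (WittVector.map u x)) ∧ ∀ x, s (b x) = b (r x)

end

section

variable (O : Type) [CommRing O] [Fact ¬IsUnit ((2 : ℕ) : O)]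
  [IsAdicComplete (span {((2 : ℕ) : O)}) O]

/-- The ring `A_cris`, an algebra over `A_inf`. -/
noncomputable def Ac : CommAlgCat (WittVector 2 (PreTilt O 2)) := cp _ (A0 (fontaineTheta O 2))

/-- An element of the tilt whose untilt is `-1`; its square is `ε = (1, -1, i, ...)`. -/
noncomputable def eta : PreTilt O 2 := Classical.epsilon fun η => η.untilt = -1

/-- The element `2 μ` of `A_cris`, `μ = [ε] - 1`. -/
noncomputable def mu : Ac O :=
  algebraMap (WittVector 2 (PreTilt O 2)) _ (2 * (teichmuller 2 (eta O) ^ 2 - 1))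

theorem bc_two : IsUnit (2 : Localization.Away (mu O)) := by
  have := IsLocalization.Away.algebraMap_isUnit (S := Localization.Away (mu O)) (mu O)
  have e : mu O = 2 * algebraMap (WittVector 2 (PreTilt O 2)) _ (teichmuller 2 (eta O) ^ 2 - 1) := by
    rw [mu, map_mul, map_ofNat]
  rw [congrArg (algebraMap (Ac O) (Localization.Away (mu O))) e, map_mul, map_ofNat] at this
  exact isUnit_of_mul_isUnit_left this

/-- The ring `B_cris = A_cris[1/2, 1/μ]`. -/
noncomputable def Bc : CommAlgCat ℚ_[2] := qp (A := PreTilt O 2) (algebraMap _ _) (bc_two O)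

theorem bd_two : IsUnit (2 : AdicCompletion (RingHom.ker (fontaineThetaInvertP O 2))
    (Localization.Away ((2 : ℕ) : WittVector 2 (PreTilt O 2)))) := by
  have := (IsLocalization.Away.algebraMap_isUnit
    (S := Localization.Away ((2 : ℕ) : WittVector 2 (PreTilt O 2)))
    ((2 : ℕ) : WittVector 2 (PreTilt O 2))).map
    (algebraMap _ (AdicCompletion (RingHom.ker (fontaineThetaInvertP O 2))
      (Localization.Away ((2 : ℕ) : WittVector 2 (PreTilt O 2)))))
  rwa [map_natCast, map_natCast] at this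

/-- The ring `B_dR⁺`. -/
noncomputable def Bd : CommAlgCat ℚ_[2] := qp (A := PreTilt O 2) (algebraMap _ _) (bd_two O)

/-- `s` is the endomorphism of `B_cris` induced by the endomorphism `u` of the tilt. -/
def Ec (u : PreTilt O 2 →+* PreTilt O 2) (s : Bc O →ₐ[ℚ_[2]] Bc O) : Prop :=
  Ex (algebraMap _ _) (algebraMap (Ac O) (Localization.Away (mu O))) u s

/-- `s` is the endomorphism of `B_dR⁺` induced by the endomorphism `u` of the tilt. -/
def Ed (u : PreTilt O 2 →+* PreTilt O 2) (s : Bd O →ₐ[ℚ_[2]] Bd O) : Prop :=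
  Ex (RingHom.id _) (algebraMap _ (AdicCompletion (RingHom.ker (fontaineThetaInvertP O 2))
    (Localization.Away ((2 : ℕ) : WittVector 2 (PreTilt O 2))))) u s

end

variable {E : Type} [NontriviallyNormedField E] [NormedAlgebra ℚ_[2] E] {n : ℕ} {L : Type} [Field L]

section

variable {Y : CommAlgCat.{0} ℚ_[2]}

/-- The action of `M ⊗ s` on `V ⊗ Y`. -/
noncomputable def act (M : Matrix (Fin n) (Fin n) E) (s : Y →ₐ[ℚ_[2]] Y)
    (z : Fin n → E ⊗[ℚ_[2]] Y) : Fin n → E ⊗[ℚ_[2]] Y :=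
  M.map (algebraMap E _) *ᵥ fun i => Algebra.TensorProduct.map (AlgHom.id E E) s (z i)

variable {U : Type} (G : Gal L → U → Prop) (X : U → (Y →ₐ[ℚ_[2]] Y) → Prop)
  (ρ : Gal L →* Matrix (Fin n) (Fin n) E)

/-- `x` is a coboundary in `V ⊗ Y`, where `g` acts on `Y` by `s` if `G g u` and `X u s`. -/
def Cris (x : Gal L → Fin n → E) : Prop :=
  ∃ z : Fin n → E ⊗[ℚ_[2]] Y, ∀ g u s, G g u → X u s →
    act (ρ g) s z - z = fun i => algebraMap E _ (x g i)

/-- The endomorphism over `f` fixes no nonzero invariant element of `V ⊗ Y`. -/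
def NoFix (f : U) : Prop :=
  ∀ z : Fin n → E ⊗[ℚ_[2]] Y, (∀ g u s, G g u → X u s → act (ρ g) s z = z) →
    (∀ s, X f s → act 1 s z = z) → z = 0

/-- `V ⊗ Y` is the direct sum of the twists `(E ⊗ Y)(h i)`. -/
def DeRham (h : Fin n → ℤ) : Prop :=
  ∃ P : Matrix (Fin n) (Fin n) (E ⊗[ℚ_[2]] Y), IsUnit P ∧ ∀ g u s, G g u → X u s →
    ∀ i, act (ρ g) s (P.col i) = cyc E g ^ h i • P.col i

end

variable {K : Type} [Field K] [TopologicalSpace K] (O : ValuationSubring K)
  [Fact ¬IsUnit ((2 : ℕ) : O)] [IsAdicComplete (span {((2 : ℕ) : O)}) O]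

/-- `g` lies in the decomposition group of `j`, and `u` is its action on the tilt. -/
def Gw (j : AlgebraicClosure L →+* K) (g : Gal L) (u : PreTilt O 2 →+* PreTilt O 2) : Prop :=
  ∃ σ : K →+* K, Continuous σ ∧ (∀ x, σ (j x) = j (g x)) ∧
    ∀ x : PreTilt O 2, ((u x).untilt : K) = σ x.untilt

/-- The cocycles of the Selmer group of Bloch and Kato. -/
def Hf [NumberField L] (ρ : Gal L →* Matrix (Fin n) (Fin n) E) : Set (Gal L → Fin n → E) :=
  {x | Coc ρ ⊤ x ∧ (∀ 𝔓 : Idl L, 𝔓.IsMaximal → 2 ∉ 𝔓 → Cob ρ (Ine 𝔓) x) ∧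
    ∀ j, Cris (Gw O j) (Ec O) ρ x}

end Pool.Agent.BKf
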