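import Pool.Agent.Lib.MP_b4b3cb_nt.HF.Cm

/-! The tilt of the ring of integers of `ℂ₂`, the kernel of `θ`, the lemma of Fontaine. -/

namespace Pool.Agent.HF

open WittVector Ideal Pool.Agent.SelTwo Filter
open scoped Topology

variable {σ σ' : RingAut ℂ_[2]} {u u' : Ti →+* Ti}

theorem oc_cpl : Cpl (2 : OC) := (cpl_iff (w := ((2 : ℕ) : OC))).2 inferInstance

theorem ai_cpl : Cpl (2 : Ai) := (cpl_iff (w := ((2 : ℕ) : Ai))).2 inferInstance

theorem ai_two {a : Ai} : 2 ∣ a ↔ a.coeff 0 = 0 :=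
  mem_span_singleton.symm.trans (mem_span_p_iff_coeff_zero_eq_zero a)

namespace TiA

/-- The square root in the tilt. -/
noncomputable abbrev rt : Ti ≃+* Ti := (frobeniusEquiv Ti 2).symm

theorem co0 {x y : Ti} : 2 ∣ x.untilt - y.untilt ↔ PreTilt.coeff 0 x = PreTilt.coeff 0 y := by
  rw [← PreTilt.mk_untilt_eq_coeff_zero, ← PreTilt.mk_untilt_eq_coeff_zero, Ideal.Quotient.eq,
    mem_span_singleton]
  rfl

theorem co (k : ℕ) (x : Ti) :
    Ideal.Quotient.mk (span {((2 : ℕ) : OC)}) (rt^[k] x).untilt = PreTilt.coeff k x := by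
  rw [PreTilt.mk_untilt_eq_coeff_zero, PreTilt.coeff_iterate_frobeniusEquiv_symm, zero_add]

theorem ext {x y : Ti} (h : ∀ k, (rt^[k] x).untilt = (rt^[k] y).untilt) : x = y :=
  Perfection.ext fun k => (co k x).symm.trans ((congrArg _ (h k)).trans (co k y))

theorem rt_pow (k : ℕ) (x : Ti) : (rt^[k] x).untilt ^ 2 ^ k = x.untilt :=
  PreTilt.untilt_iterate_frobeniusEquiv_symm_pow x k

theorem rt_sq (x : Ti) : (rt x).untilt ^ 2 = x.untilt := rt_pow 1 x

theorem un_zero : (0 : Ti).untilt = 0 := Perfection.teichmuller_zero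

theorem un_eq_zero {x : Ti} : x.untilt = 0 ↔ x = 0 :=
  ⟨fun h => ext fun k => by
    rw [iterate_map_zero, un_zero]
    exact pow_eq_zero_iff (pow_ne_zero k two_ne_zero) |>.1 ((rt_pow k x).trans h),
    fun h => h ▸ un_zero⟩

theorem spec {x : Ti} {y : OC} (z : ℕ → OC) (h : ∀ n, Ideal.Quotient.mk _ (z n) = PreTilt.coeff n x)
    (e : ∀ n, z n ^ 2 ^ n = y) : x.untilt = y :=
  Perfection.teichmuller_spec fun n => ⟨z n, h n, e n ▸ SModEq.rfl⟩

theorem seq (z : ℕ → OC) (h : ∀ k, z (k + 1) ^ 2 = z k) : ∃ x : Ti, ∀ k, (rt^[k] x).untilt = z k := by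
  obtain ⟨x, hx⟩ : ∃ x : Ti, ∀ k, Ideal.Quotient.mk _ (z k) = PreTilt.coeff k x :=
    ⟨⟨fun k => Ideal.Quotient.mk _ (z k), fun k => by rw [← map_pow, h]⟩, fun _ => rfl⟩
  refine ⟨x, fun k => spec (fun n => z (n + k)) (fun n => ?_) fun n => ?_⟩
  · rw [PreTilt.coeff_iterate_frobeniusEquiv_symm, hx]
  · induction n with
    | zero => simp
    | succ n ih => rw [pow_succ', pow_mul, Nat.add_right_comm, h, ih]

theorem sqrt (y : OC) : ∃ w : OC, w ^ 2 = y := by
  obtain ⟨w, e⟩ := IsAlgClosed.exists_pow_nat_eq (y : ℂ_[2]) two_pos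
  refine ⟨⟨w, oc_mem.2 ?_⟩, Subtype.ext e⟩
  rw [← pow_le_one_iff_of_nonneg (norm_nonneg _) two_ne_zero, ← norm_pow, e]
  exact oc_mem.1 y.2

theorem two_dvd {y : OC} : 2 ∣ y ↔ ‖(y : ℂ_[2])‖ ≤ 2⁻¹ := oc_dvd.trans (by rw [← oc_two]; rfl)

/-- The restriction of an isometry to the integers. -/
noncomputable def res (σ : RingAut ℂ_[2]) (h : ∀ x, ‖σ x‖ = ‖x‖) : OC →+* OC where
  toFun x := ⟨σ x, oc_mem.2 ((h x).le.trans (oc_mem.1 x.2))⟩
  map_one' := Subtype.ext (map_one σ)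
  map_mul' x y := Subtype.ext (map_mul σ x.1 y.1)
  map_zero' := Subtype.ext (map_zero σ)
  map_add' x y := Subtype.ext (map_add σ x.1 y.1)

theorem hom_ext (f g : Ai →+* OC) (h : ∀ x, f (teichmuller 2 x) = g (teichmuller 2 x)) (a : Ai) :
    f a = g a := by
  refine sub_eq_zero.1 (oc_cpl.1 _ fun N => (pow_dvd_pow _ N.le_succ).trans ?_)
  obtain ⟨c, e⟩ := dvd_sub_sum_teichmuller_iterateFrobeniusEquiv_coeff a N
  rw [eq_add_of_sub_eq e]
  simp only [map_add, map_mul, map_pow, map_natCast, map_sum, h]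
  exact ⟨f c - g c, by rw [Nat.cast_ofNat, Nat.succ_eq_add_one]; ring⟩

theorem cc_dvd {a v : Ai} (h : v.coeff 0 ∣ a.coeff 0) : ∃ c d, a = v * c + 2 * d := by
  obtain ⟨c, e⟩ := h
  obtain ⟨d, e'⟩ := (ai_two (a := a - v * teichmuller 2 c)).2 (by
    rw [← constantCoeff_apply, map_sub, map_mul]
    exact sub_eq_zero.2 e)
  exact ⟨_, d, eq_add_of_sub_eq' e'⟩

theorem th_co (a : Ai) : 2 ∣ th a - (a.coeff 0).untilt := by
  rw [← mem_span_singleton]
  exact Ideal.Quotient.eq.1 ((mk_fontaineTheta a).trans (PreTilt.mk_untilt_eq_coeff_zero _).symm)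

theorem xi_co : xi.coeff 0 = 1 + eta := by
  rw [← constantCoeff_apply, xi, map_add, map_one]
  rfl

theorem pv_co : pv.coeff 0 = (1 + eta) ^ 2 := by
  rw [← constantCoeff_apply, pv, map_sub, map_one, map_pow, CharTwo.add_sq, one_pow,
    CharTwo.sub_eq_add, add_comm]
  rfl

end TiA

open TiA

theorem ti_dvd {a b : Ti} : a ∣ b ↔ ‖(b.untilt : ℂ_[2])‖ ≤ ‖(a.untilt : ℂ_[2])‖ := by
  rw [← oc_dvd]
  refine ⟨fun h => map_dvd _ h, fun h => ?_⟩
  by_cases a0 : a = 0
  · rw [a0, un_zero, zero_dvd_iff, un_eq_zero] at h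
    exact h ▸ dvd_zero _
  have n0 : ∀ k, (rt^[k] a).untilt ≠ 0 := fun k e => a0 (un_eq_zero.1 (by
    rw [← rt_pow k a, e, zero_pow (pow_ne_zero k two_ne_zero)]))
  choose z hz using fun k => show (rt^[k] a).untilt ∣ (rt^[k] b).untilt from by
    rw [← rt_pow k a, ← rt_pow k b, oc_dvd, SubmonoidClass.coe_pow, SubmonoidClass.coe_pow,
      norm_pow, norm_pow] at h
    exact oc_dvd.2 (le_of_pow_le_pow_left₀ (pow_ne_zero k two_ne_zero) (norm_nonneg _) h)
  obtain ⟨x, hx⟩ := seq z fun k => mul_left_cancel₀ (n0 k) (by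
    rw [← hz, ← rt_sq (rt^[k] a), ← rt_sq (rt^[k] b), ← mul_pow, ← Function.iterate_succ_apply' rt,
      ← Function.iterate_succ_apply' rt, hz])
  exact ⟨x, ext fun k => by rw [iterate_map_mul, map_mul, hx, hz]⟩

instance : IsDomain Ti :=
  have : Nontrivial Ti := CharP.nontrivial_of_char_ne_one (v := 2) (by norm_num)
  have : NoZeroDivisors Ti := ⟨fun {a b} h => by
    rwa [← un_eq_zero, map_mul, mul_eq_zero, un_eq_zero, un_eq_zero] at h⟩
  NoZeroDivisors.to_isDomain _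

instance : CharZero Ai := th.charZero

theorem un_surj (y : OC) : ∃ x : Ti, x.untilt = y := by
  choose s hs using sqrt
  obtain ⟨x, hx⟩ := seq (fun k => s^[k] y) fun k => by rw [Function.iterate_succ_apply', hs]
  exact ⟨x, hx 0⟩

theorem un_add (x y : Ti) : 2 ∣ (x + y).untilt - (x.untilt + y.untilt) := by
  rw [← mem_span_singleton]
  refine (Ideal.Quotient.eq (I := span {((2 : ℕ) : OC)})).1 ?_
  simp only [map_add, PreTilt.mk_untilt_eq_coeff_zero]

theorem eta_un : eta.untilt = -1 := Classical.epsilon_spec (un_surj (-1))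

theorem eta_nm : ‖((1 + eta).untilt : ℂ_[2])‖ = 2⁻¹ := by
  obtain ⟨c, e⟩ := un_add 1 (rt eta)
  have i := (rt_sq eta).trans eta_un
  rw [map_one, ← map_one rt, ← map_add] at e
  have h := rt_sq (1 + eta)
  set j := (rt eta).untilt
  obtain ⟨v, hv⟩ := (oc_cpl.unit (-j * (c * (1 + j) + c ^ 2))).exists_right_inv
  rw [eq_add_of_sub_eq e] at h
  refine le_antisymm (two_dvd.1 ⟨j + 2 * (c * (1 + j) + c ^ 2), by linear_combination i - h⟩) ?_
  rw [← oc_two]
  refine (oc_dvd (b := 2)).1 ⟨-j * v, ?_⟩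
  rw [← h]
  linear_combination (-2) * hv + v * (2 + j) * i

theorem exLf (σ : RingAut ℂ_[2]) (h : ∀ x, ‖σ x‖ = ‖x‖) : ∃ u, Lf σ u := by
  have H : span {((2 : ℕ) : OC)} ≤ Ideal.comap (res σ h) (span {((2 : ℕ) : OC)}) :=
    (span_singleton_le_iff_mem _).2 (by
      rw [Ideal.mem_comap, map_natCast]
      exact mem_span_singleton_self _)
  refine ⟨Perfection.map 2 (quotientMap _ (res σ h) H), h, fun x => congrArg Subtype.val
    (spec (y := res σ h x.untilt) (fun n => res σ h (rt^[n] x).untilt) (fun n => ?_) fun n => ?_)⟩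
  · exact (quotientMap_mk (H := H)).symm.trans (congrArg (quotientMap _ (res σ h) H) (co n x))
  · rw [← map_pow, rt_pow]

theorem Lf.uniq (a : Lf σ u) (b : Lf σ u') : u = u' :=
  RingHom.ext fun x => ext fun k => Subtype.ext (by
    rw [← RingHom.map_iterate_frobeniusEquiv_symm, ← RingHom.map_iterate_frobeniusEquiv_symm, a.2,
      b.2])

theorem Lf.comp (a : Lf σ u) (b : Lf σ' u') : Lf (σ * σ') (u.comp u') :=
  ⟨fun x => (a.1 _).trans (b.1 x), fun x => (a.2 _).trans (congrArg σ (b.2 x))⟩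

theorem lf_one : Lf 1 (RingHom.id Ti) := ⟨fun _ => rfl, fun _ => rfl⟩

theorem Lf.th (a : Lf σ u) (x : Ai) : (th (WittVector.map u x) : ℂ_[2]) = σ (th x) :=
  congrArg Subtype.val (hom_ext (HF.th.comp (WittVector.map u)) ((res σ a.1).comp HF.th)
    (fun y => Subtype.ext (by
      simp only [RingHom.comp_apply, map_teichmuller, fontaineTheta_teichmuller]
      exact a.2 y)) x)

theorem map_zp (u : Ti →+* Ti) (c : ℤ_[2]) : WittVector.map u (zp c) = zp c :=
  WittVector.ext fun _ =>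
    RingHom.congr_fun (RingHom.ext_zmod (u.comp (ZMod.castHom (dvd_refl 2) Ti)) _) _

theorem th_zp (c : ℤ_[2]) : (th (zp c) : ℂ_[2]) = algebraMap ℚ_[2] ℂ_[2] c := by
  let g : ℤ_[2] →+* OC := ((algebraMap ℚ_[2] ℂ_[2]).comp PadicInt.Coe.ringHom).codRestrict
    (PadicComplexInt 2) fun x => oc_mem.2 ((norm_algebraMap' _ _).le.trans x.2)
  refine congrArg Subtype.val (show th (zp c) = g c from sub_eq_zero.1 (oc_cpl.1 _ fun N => ?_))
  obtain ⟨d, e⟩ := mem_span_singleton.1 (PadicInt.appr_spec N c)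
  rw [eq_add_of_sub_eq e]
  simp only [map_add, map_mul, map_pow, map_natCast]
  exact ⟨th (zp d) - g d, by rw [Nat.cast_ofNat]; ring⟩

theorem th_surj : Function.Surjective th := fun y =>
  (un_surj y).imp' (teichmuller 2) fun x e => (fontaineTheta_teichmuller x).trans e

theorem TiA.th_xi : th xi = 0 := by
  rw [xi, map_add, map_one, fontaineTheta_teichmuller, eta_un, add_neg_cancel]

theorem TiA.one_add_dvd {y : Ti} : 1 + eta ∣ y ↔ 2 ∣ y.untilt := by rw [ti_dvd, eta_nm, two_dvd]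

theorem th_ker {a : Ai} : th a = 0 ↔ xi ∣ a := by
  refine ⟨fun h => ai_cpl.div (RingHom.ker th) (fun a h => ?_) th_xi (fun a h => cc_dvd ?_) h,
    fun ⟨c, e⟩ => by rw [e, map_mul, th_xi, zero_mul]⟩
  · rw [RingHom.mem_ker, map_mul, map_ofNat] at h
    exact (mul_eq_zero.1 h).resolve_left two_ne_zero
  · have := th_co a
    rwa [RingHom.mem_ker.1 h, zero_sub, dvd_neg, ← one_add_dvd, ← xi_co] at this

theorem TiA.th_te (k : ℕ) (x : Ti) :
    th ((WittVector.map fr)^[k] (teichmuller 2 x)) = x.untilt ^ 2 ^ k := by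
  induction k generalizing x with
  | zero => simp
  | succ k ih =>
    rw [Function.iterate_succ_apply, map_teichmuller, ih, frobenius_def, map_pow, ← pow_mul,
      pow_succ']

theorem TiA.font (k : ℕ) (a : Ai) (h : ∀ k, th ((WittVector.map fr)^[k] a) = 0) :
    (4 * ‖((a.coeff 0).untilt : ℂ_[2])‖) ^ 2 ^ k ≤ 4 := by
  induction k generalizing a with
  | zero => simpa using oc_mem.1 (a.coeff 0).untilt.2
  | succ k ih =>
    obtain ⟨b, rfl⟩ := th_ker.1 (h 0)
    have := ih (WittVector.map fr b) fun j => by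
      have := h (j + 1)
      rw [iterate_map_mul, map_mul, xi, iterate_map_add, iterate_map_one, map_add, map_one, th_te,
        eta_un, pow_succ' 2, pow_mul, neg_one_sq, one_pow, one_add_one_eq_two] at this
      exact (mul_eq_zero.1 this).resolve_left two_ne_zero
    rw [map_coeff, frobenius_def, map_pow, SubmonoidClass.coe_pow, norm_pow] at this
    rw [mul_coeff_zero, xi_co, map_mul, MulMemClass.coe_mul, norm_mul, eta_nm, pow_succ', pow_mul]
    exact le_of_eq_of_le (congrArg (· ^ 2 ^ k) (by ring)) this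

theorem th_font {a : Ai} (h : ∀ k, th ((WittVector.map fr)^[k] a) = 0) : pv ∣ a := by
  have m : ∀ a, a ∈ ⨅ k : ℕ, RingHom.ker (th.comp (WittVector.map fr ^ k)) ↔
      ∀ k, th ((WittVector.map fr)^[k] a) = 0 := fun a => by
    simp only [Ideal.mem_iInf, RingHom.mem_ker, RingHom.comp_apply, RingHom.coe_pow]
  refine ai_cpl.div _ (fun a h => (m _).2 fun k => ?_) ((m _).2 fun k => ?_)
    (fun a h => cc_dvd ?_) ((m a).2 h)
  · have := (m _).1 h k
    rw [iterate_map_mul, map_mul, ← RingHom.coe_pow, map_ofNat, map_ofNat] at this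
    exact (mul_eq_zero.1 this).resolve_left two_ne_zero
  · rw [pv, iterate_map_sub, iterate_map_one, ← map_pow, map_sub, map_one, th_te, map_pow, eta_un,
      neg_one_sq, one_pow, sub_self]
  · rw [pv_co, ti_dvd, map_pow, SubmonoidClass.coe_pow, norm_pow, eta_nm]
    by_contra n
    have n1 : 1 < 4 * ‖((a.coeff 0).untilt : ℂ_[2])‖ := by linarith [not_le.1 n]
    obtain ⟨k, e⟩ := pow_unbounded_of_one_lt 4 n1
    exact (e.trans_le (pow_le_pow_right₀ n1.le k.lt_two_pow_self.le)).not_ge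
      (font k a ((m a).1 h))

theorem ti_near {G : Type} [TopologicalSpace G] {a : G → RingAut ℂ_[2]} {u : G → Ti →+* Ti}
    (h : ∀ g, Lf (a g) (u g)) (hc : ∀ y, Continuous fun g => a g y) (x : Ti) (g₀ : G) :
    ∀ᶠ g in 𝓝 g₀, 1 + eta ∣ u g x - u g₀ x := by
  filter_upwards [Metric.tendsto_nhds.1 ((hc x.untilt).tendsto g₀) 2⁻¹ (by norm_num)] with g e
  have : 2 ∣ (u g x).untilt - (u g₀ x).untilt := two_dvd.2 (by
    rw [AddSubgroupClass.coe_sub, (h g).2, (h g₀).2, ← dist_eq_norm]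
    exact e.le)
  rw [one_add_dvd, ← sub_zero (PreTilt.untilt _), ← un_zero, co0, map_sub, co0.1 this, sub_self,
    map_zero]

end Pool.Agent.HF
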